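import Pool.Agent.Y179.SD.Lead

/-!
The cluster sequence `z_n z_{n+2} = z_{n+1}^3 + c^{E_{n+1}}`.
-/

noncomputable section

namespace Pool.Agent.Y179.SD

open Pool.Agent.Helper774.KSing
open Pool.Agent.Helper774.KStab (TorusField)

/-- The sequence `2, 1, 1, 2, 5, 13, 34, …`. -/
def E : ℕ → ℤ
  | 0 => 2
  | 1 => 1
  | (n + 2) => 3 * E (n + 1) - E n

theorem E_rec (n : ℕ) : E (n + 2) = 3 * E (n + 1) - E n := rfl

theorem E_zero : E 0 = 2 := rfl
theorem E_one : E 1 = 1 := rfl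
theorem E_two : E 2 = 1 := rfl
theorem E_three : E 3 = 2 := rfl

theorem E_pos_aux (n : ℕ) : 1 ≤ E n ∧ E n ≤ 2 * E (n + 1) := by
  induction n with
  | zero => exact ⟨by decide, by decide⟩
  | succ n ih =>
    rw [E_rec]
    constructor <;> omega

theorem E_pos (n : ℕ) : 1 ≤ E n := (E_pos_aux n).1

theorem E_mul (n : ℕ) : E n * E (n + 2) = E (n + 1) ^ 2 + 1 := by
  induction n with
  | zero => decide
  | succ n ih =>
    rw [E_rec (n + 1)]
    rw [E_rec] at ih ⊢
    linear_combination ih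

theorem E_markov (n : ℕ) : 1 + E n ^ 2 + E (n + 1) ^ 2 = 3 * E n * E (n + 1) := by
  have := E_mul n
  rw [E_rec] at this
  linear_combination -this

variable {K : Type} [Field K] [Algebra ℂ K]

/-- Laurent monomials. -/
def mon (p q c : K) (u : Fin 3 → ℤ) : K := p ^ u 0 * q ^ u 1 * c ^ u 2

omit [Algebra ℂ K] in
theorem mon_add {p q c : K} (hp : p ≠ 0) (hq : q ≠ 0) (hc : c ≠ 0) (u v : Fin 3 → ℤ) :
    mon p q c (u + v) = mon p q c u * mon p q c v := by
  simp only [mon, Pi.add_apply, zpow_add₀ hp, zpow_add₀ hq, zpow_add₀ hc]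
  ring

/-- The span of the Laurent monomials of weight `d`. -/
def Gr (p q c : K) (a b d : ℤ) : Submodule ℂ K :=
  Submodule.span ℂ (mon p q c '' {u | a * u 0 + b * u 1 + 3 * u 2 = d})

theorem Gr_mul {p q c : K} (hp : p ≠ 0) (hq : q ≠ 0) (hc : c ≠ 0) {a b d d' : ℤ} {f g : K}
    (hf : f ∈ Gr p q c a b d) (hg : g ∈ Gr p q c a b d') : f * g ∈ Gr p q c a b (d + d') := by
  have h : f * g ∈ Gr p q c a b d * Gr p q c a b d' := Submodule.mul_mem_mul hf hg
  unfold Gr at h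
  rw [Submodule.span_mul_span] at h
  refine Submodule.span_mono ?_ h
  rintro _ ⟨_, ⟨u, hu, rfl⟩, _, ⟨v, hv, rfl⟩, rfl⟩
  refine ⟨u + v, ?_, mon_add hp hq hc u v⟩
  show a * (u 0 + v 0) + b * (u 1 + v 1) + 3 * (u 2 + v 2) = d + d'
  have hu' : a * u 0 + b * u 1 + 3 * u 2 = d := hu
  have hv' : a * v 0 + b * v 1 + 3 * v 2 = d' := hv
  linear_combination hu' + hv'

theorem Gr_mon {p q c : K} {a b d : ℤ} (u : Fin 3 → ℤ) (h : a * u 0 + b * u 1 + 3 * u 2 = d) :
    mon p q c u ∈ Gr p q c a b d := Submodule.subset_span ⟨u, h, rfl⟩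

theorem Gr_one {p q c : K} {a b : ℤ} : (1 : K) ∈ Gr p q c a b 0 := by
  have := Gr_mon (p := p) (q := q) (c := c) (a := a) (b := b) (d := 0) 0 (by simp)
  simpa [mon] using this

theorem Gr_pow {p q c : K} (hp : p ≠ 0) (hq : q ≠ 0) (hc : c ≠ 0) {a b d : ℤ} {f : K}
    (hf : f ∈ Gr p q c a b d) (n : ℕ) : f ^ n ∈ Gr p q c a b (n * d) := by
  induction n with
  | zero => simpa using Gr_one
  | succ n ih =>
    have := Gr_mul hp hq hc ih hf
    rw [pow_succ]
    convert this using 1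
    push_cast
    ring

theorem Gr_c {p q c : K} {a b : ℤ} (l : ℤ) : c ^ l ∈ Gr p q c a b (3 * l) := by
  have := Gr_mon (p := p) (q := q) (c := c) (a := a) (b := b) (d := 3 * l) ![0, 0, l] (by simp)
  simpa [mon] using this

theorem Gr_p {p q c : K} {a b : ℤ} (l : ℤ) : p ^ l ∈ Gr p q c a b (l * a) := by
  have := Gr_mon (p := p) (q := q) (c := c) (a := a) (b := b) (d := l * a) ![l, 0, 0]
    (by simp [mul_comm])
  simpa [mon] using this

theorem Gr_q {p q c : K} {a b : ℤ} (l : ℤ) : q ^ l ∈ Gr p q c a b (l * b) := by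
  have := Gr_mon (p := p) (q := q) (c := c) (a := a) (b := b) (d := l * b) ![0, l, 0]
    (by simp [mul_comm])
  simpa [mon] using this

/-- A cluster sequence. -/
structure CSeq (K : Type) [Field K] where
  z : ℕ → K
  c : K
  hz : ∀ n, z n ≠ 0
  hc : c ≠ 0
  rel : ∀ n, z n * z (n + 2) = z (n + 1) ^ 3 + c ^ E (n + 1)

namespace CSeq

variable (S : CSeq K)

omit [Algebra ℂ K] in
theorem star (n : ℕ) : S.c ^ E (n + 3) * S.z n = S.z (n + 1) ^ 3 * S.z (n + 4) -
    (S.z (n + 2) ^ 8 + 3 * (S.z (n + 2) ^ 5 * S.c ^ E (n + 2)) +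
      3 * (S.z (n + 2) ^ 2 * S.c ^ (2 * E (n + 2)))) := by
  have h1 := S.rel n
  have h2 := S.rel (n + 1)
  have h3 := S.rel (n + 2)
  have h4 : S.c ^ E (n + 1) * S.c ^ E (n + 3) = (S.c ^ E (n + 2)) ^ 3 := by
    rw [← zpow_add₀ S.hc, ← zpow_natCast, ← zpow_mul]
    congr 1
    rw [E_rec (n + 1)]
    push_cast
    ring
  have h5 : S.c ^ (2 * E (n + 2)) = (S.c ^ E (n + 2)) ^ 2 := by
    rw [← zpow_natCast, ← zpow_mul]
    congr 1
    push_cast
    ring
  rw [h5]
  apply mul_right_cancel₀ (S.hz (n + 2))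
  have h2' : S.z (n + 1) * S.z (n + 3) = S.z (n + 2) ^ 3 + S.c ^ E (n + 2) := h2
  have h3' : S.z (n + 2) * S.z (n + 4) = S.z (n + 3) ^ 3 + S.c ^ E (n + 3) := h3
  have h6 : S.z (n + 1) ^ 3 * S.z (n + 3) ^ 3 = (S.z (n + 2) ^ 3 + S.c ^ E (n + 2)) ^ 3 := by
    rw [← h2']; ring
  linear_combination S.c ^ E (n + 3) * h1 - S.z (n + 1) ^ 3 * h3' - h6 + h4

/-- the elements of the sequence up to `N + 2` are Laurent polynomials in `z_N, z_{N+1}, c` -/
theorem mem_Gr (N : ℕ) (hN : 1 ≤ N) (j k : ℕ) (hk : k + j = N + 2) :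
    S.z k ∈ Gr (S.z N) (S.z (N + 1)) S.c (E N) (E (N + 1)) (E k) := by
  have hp := S.hz N
  have hq := S.hz (N + 1)
  have hc := S.hc
  induction j using Nat.strong_induction_on generalizing k with
  | _ j ih =>
    match j, ih with
    | 0, _ =>
      obtain rfl : k = N + 2 := by omega
      have h1 : S.z (N + 2) = S.z N ^ (-1 : ℤ) * (S.z (N + 1) ^ (3 : ℕ) + S.c ^ E (N + 1)) := by
        rw [← S.rel N, zpow_neg_one, ← mul_assoc, inv_mul_cancel₀ hp, one_mul]
      rw [h1, E_rec N]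
      have h2 : S.z (N + 1) ^ (3 : ℕ) + S.c ^ E (N + 1) ∈
          Gr (S.z N) (S.z (N + 1)) S.c (E N) (E (N + 1)) (3 * E (N + 1)) := by
        refine Submodule.add_mem _ ?_ (Gr_c _)
        have := Gr_q (p := S.z N) (q := S.z (N + 1)) (c := S.c) (a := E N) (b := E (N + 1)) 3
        exact_mod_cast this
      have h3 := Gr_mul hp hq hc (Gr_p (p := S.z N) (q := S.z (N + 1)) (c := S.c) (a := E N)
        (b := E (N + 1)) (-1)) h2
      convert h3 using 1
      congr 1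
      ring
    | 1, _ =>
      obtain rfl : k = N + 1 := by omega
      have := Gr_q (p := S.z N) (q := S.z (N + 1)) (c := S.c) (a := E N) (b := E (N + 1)) 1
      simpa using this
    | 2, _ =>
      obtain rfl : k = N := by omega
      have := Gr_p (p := S.z k) (q := S.z (k + 1)) (c := S.c) (a := E k) (b := E (k + 1)) 1
      simpa using this
    | 3, _ =>
      obtain rfl : N = k + 1 := by omega
      have h1 : S.z k = S.z (k + 2) ^ (-1 : ℤ) * (S.z (k + 1) ^ (3 : ℕ) + S.c ^ E (k + 1)) := by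
        rw [← S.rel k, zpow_neg_one, mul_comm (S.z k), ← mul_assoc, inv_mul_cancel₀ hq, one_mul]
      rw [h1]
      have h2 : S.z (k + 1) ^ (3 : ℕ) + S.c ^ E (k + 1) ∈
          Gr (S.z (k + 1)) (S.z (k + 1 + 1)) S.c (E (k + 1)) (E (k + 1 + 1))
            (3 * E (k + 1)) := by
        refine Submodule.add_mem _ ?_ (Gr_c _)
        have := Gr_p (p := S.z (k + 1)) (q := S.z (k + 1 + 1)) (c := S.c) (a := E (k + 1))
          (b := E (k + 1 + 1)) 3
        exact_mod_cast this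
      have h3 := Gr_mul hp hq hc (Gr_q (p := S.z (k + 1)) (q := S.z (k + 1 + 1)) (c := S.c)
        (a := E (k + 1)) (b := E (k + 1 + 1)) (-1)) h2
      convert h3 using 1
      congr 1
      have := E_rec k
      show E k = -1 * E (k + 2) + 3 * E (k + 1)
      rw [this]
      ring
    | (j + 4), ih =>
      have i1 := ih (j + 3) (by omega) (k + 1) (by omega)
      have i2 := ih (j + 2) (by omega) (k + 2) (by omega)
      have i4 := ih j (by omega) (k + 4) (by omega)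
      have h1 : S.z k = S.c ^ (-E (k + 3)) * (S.z (k + 1) ^ 3 * S.z (k + 4) -
          (S.z (k + 2) ^ 8 + 3 * (S.z (k + 2) ^ 5 * S.c ^ E (k + 2)) +
          3 * (S.z (k + 2) ^ 2 * S.c ^ (2 * E (k + 2))))) := by
        rw [← S.star k, ← mul_assoc, ← zpow_add₀ hc, neg_add_cancel, zpow_zero, one_mul]
      rw [h1]
      have e1 := E_rec k
      have e2 := E_rec (k + 1)
      have e3 := E_rec (k + 2)
      have d1 : S.z (k + 1) ^ 3 * S.z (k + 4) ∈
          Gr (S.z N) (S.z (N + 1)) S.c (E N) (E (N + 1)) (8 * E (k + 2)) := by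
        have := Gr_mul hp hq hc (Gr_pow hp hq hc i1 3) i4
        convert this using 1
        congr 1
        show 8 * E (k + 2) = ((3 : ℕ) : ℤ) * E (k + 1) + E (k + 2 + 2)
        rw [e3, show k + 2 + 1 = k + 1 + 2 by omega, e2]
        push_cast
        show 8 * E (k + 2) = 3 * E (k + 1) + (3 * (3 * E (k + 2) - E (k + 1)) - E (k + 2))
        ring
      have d2 : S.z (k + 2) ^ 8 ∈
          Gr (S.z N) (S.z (N + 1)) S.c (E N) (E (N + 1)) (8 * E (k + 2)) := by
        have := Gr_pow hp hq hc i2 8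
        exact_mod_cast this
      have d3 : S.z (k + 2) ^ 5 * S.c ^ E (k + 2) ∈
          Gr (S.z N) (S.z (N + 1)) S.c (E N) (E (N + 1)) (8 * E (k + 2)) := by
        have := Gr_mul hp hq hc (Gr_pow hp hq hc i2 5) (Gr_c (E (k + 2)))
        convert this using 1
        congr 1
        push_cast
        ring
      have d4 : S.z (k + 2) ^ 2 * S.c ^ (2 * E (k + 2)) ∈
          Gr (S.z N) (S.z (N + 1)) S.c (E N) (E (N + 1)) (8 * E (k + 2)) := by
        have := Gr_mul hp hq hc (Gr_pow hp hq hc i2 2) (Gr_c (2 * E (k + 2)))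
        convert this using 1
        congr 1
        push_cast
        ring
      have t : ∀ f ∈ Gr (S.z N) (S.z (N + 1)) S.c (E N) (E (N + 1)) (8 * E (k + 2)),
          3 * f ∈ Gr (S.z N) (S.z (N + 1)) S.c (E N) (E (N + 1)) (8 * E (k + 2)) := by
        intro f hf
        have := Submodule.smul_mem _ (3 : ℂ) hf
        rw [Algebra.smul_def, map_ofNat] at this
        exact this
      have d5 := Submodule.sub_mem _ d1 (Submodule.add_mem _ (Submodule.add_mem _ d2 (t _ d3))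
        (t _ d4))
      have d6 := Gr_mul hp hq hc (Gr_c (p := S.z N) (q := S.z (N + 1)) (c := S.c) (a := E N)
        (b := E (N + 1)) (-E (k + 3))) d5
      convert d6 using 1
      congr 1
      rw [show k + 3 = k + 1 + 2 by omega, e2]
      show E k = 3 * -(3 * E (k + 2) - E (k + 1)) + 8 * E (k + 2)
      rw [e1]
      ring

/-- The third coordinate of the projective plane. -/
def Z : K := (S.z 0 * S.z 3 - S.z 1 ^ 2 * S.z 2 ^ 2) / S.c

omit [Algebra ℂ K] in
theorem cubic : S.z 1 * S.z 2 * S.Z = S.z 1 ^ 3 + S.z 2 ^ 3 + S.c := by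
  have h1 : S.z 0 * S.z 2 = S.z 1 ^ 3 + S.c := by
    have := S.rel 0
    simpa [E] using this
  have h2 : S.z 1 * S.z 3 = S.z 2 ^ 3 + S.c := by
    have := S.rel 1
    simpa [E] using this
  rw [Z, mul_div_assoc', div_eq_iff S.hc]
  linear_combination S.z 1 * S.z 3 * h1 + (S.z 1 ^ 3 + S.c) * h2

theorem Z_mem_Gr (N : ℕ) (hN : 1 ≤ N) :
    S.Z ∈ Gr (S.z N) (S.z (N + 1)) S.c (E N) (E (N + 1)) 1 := by
  have hp := S.hz N
  have hq := S.hz (N + 1)
  have hc := S.hc
  have m0 := S.mem_Gr N hN (N + 2) 0 (by omega)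
  have m1 := S.mem_Gr N hN (N + 1) 1 (by omega)
  have m2 := S.mem_Gr N hN N 2 (by omega)
  have m3 := S.mem_Gr N hN (N - 1) 3 (by omega)
  rw [E_zero] at m0
  rw [E_one] at m1
  rw [E_two] at m2
  rw [E_three] at m3
  have d1 : S.z 0 * S.z 3 ∈ Gr (S.z N) (S.z (N + 1)) S.c (E N) (E (N + 1)) 4 := by
    have := Gr_mul hp hq hc m0 m3
    norm_num at this
    exact this
  have d2 : S.z 1 ^ 2 * S.z 2 ^ 2 ∈ Gr (S.z N) (S.z (N + 1)) S.c (E N) (E (N + 1)) 4 := by
    have := Gr_mul hp hq hc (Gr_pow hp hq hc m1 2) (Gr_pow hp hq hc m2 2)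
    norm_num at this
    exact this
  have d3 := Gr_mul hp hq hc (Submodule.sub_mem _ d1 d2) (Gr_c (p := S.z N) (q := S.z (N + 1))
    (c := S.c) (a := E N) (b := E (N + 1)) (-1))
  norm_num at d3
  rw [Z, div_eq_mul_inv]
  exact d3

/-- The homomorphism from the coordinate ring of the projective plane. -/
def ι : MvPolynomial (Fin 3) ℂ →ₐ[ℂ] K := MvPolynomial.aeval ![S.z 1, S.z 2, S.Z]

theorem ι_mem_Gr (N : ℕ) (hN : 1 ≤ N) (m : ℕ) (g : MvPolynomial (Fin 3) ℂ)
    (hg : g.IsHomogeneous m) :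
    S.ι g ∈ Gr (S.z N) (S.z (N + 1)) S.c (E N) (E (N + 1)) m := by
  have hp := S.hz N
  have hq := S.hz (N + 1)
  have hc := S.hc
  rw [g.as_sum, map_sum]
  refine Submodule.sum_mem _ fun s hs => ?_
  have hs' : s.degree = m := by
    by_contra hne
    exact (MvPolynomial.mem_support_iff.1 hs) (hg.coeff_eq_zero hne)
  rw [MvPolynomial.monomial_eq, map_mul, ← MvPolynomial.algebraMap_eq, AlgHom.commutes,
    ← Algebra.smul_def]
  refine Submodule.smul_mem _ _ ?_
  rw [Finsupp.prod_fintype _ _ (fun i => pow_zero _), map_prod, Fin.prod_univ_three]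
  simp only [map_pow]
  have e0 : S.ι (MvPolynomial.X 0) = S.z 1 := by simp [ι]
  have e1 : S.ι (MvPolynomial.X 1) = S.z 2 := by simp [ι]
  have e2 : S.ι (MvPolynomial.X 2) = S.Z := by simp [ι]
  rw [e0, e1, e2]
  have m1 := S.mem_Gr N hN (N + 1) 1 (by omega)
  have m2 := S.mem_Gr N hN N 2 (by omega)
  have m3 := S.Z_mem_Gr N hN
  have d := Gr_mul hp hq hc (Gr_mul hp hq hc (Gr_pow hp hq hc m1 (s 0)) (Gr_pow hp hq hc m2 (s 1)))
    (Gr_pow hp hq hc m3 (s 2))
  convert d using 1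
  congr 1
  rw [← hs', Finsupp.degree_eq_sum, Fin.sum_univ_three]
  show ((s 0 + s 1 + s 2 : ℕ) : ℤ) = (s 0 : ℤ) * 1 + (s 1 : ℤ) * 1 + (s 2 : ℤ) * 1
  push_cast
  ring

end CSeq

end Pool.Agent.Y179.SD
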