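import Pool.Agent.Y179.SD.Init

/-!
The lowest terms of the elements of the coordinate ring of the projective plane lie in the toric ring.
-/

noncomputable section

namespace Pool.Agent.Y179.SD

open Pool.Agent.Helper774.KSing
open Pool.Agent.Helper774.KStab (TorusField)

variable {K : Type} [Field K] [Algebra ℂ K]

namespace Seed

section

variable {T : TorusField 3 K} {t : ℕ} (S : Seed T (t + 1))

theorem vec3 (a b c : ℤ) (u : Fin 3 → ℤ) (h0 : u 0 = a) (h1 : u 1 = b) (h2 : u 2 = c) :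
    u = ![a, b, c] := by
  funext i
  fin_cases i
  · exact h0
  · exact h1
  · exact h2

theorem leadΨ_c : Lead (S.Ψ S.c) 0 (T.χ ![0, 0, 1]) := by
  rw [S.hc', S.hΨ]
  have := Lead.single ((![0, 0, 1] : Fin 3 → ℤ) 0 + (![0, 0, 1] : Fin 3 → ℤ) 1) (T.χ ![0, 0, 1])
  simpa using this

theorem leadΨ_x : Lead (S.Ψ (S.z (t + 1))) 1 (T.χ ![1, 0, 0]) := by
  rw [S.hx, S.hΨ]
  have := Lead.single ((![1, 0, 0] : Fin 3 → ℤ) 0 + (![1, 0, 0] : Fin 3 → ℤ) 1) (T.χ ![1, 0, 0])
  simpa using this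

theorem leadΨ_y : Lead (S.Ψ (S.z (t + 2))) 1 (T.χ ![0, 1, 0]) := by
  have h : S.z (t + 2) = T.χ ![0, 1, 0] := S.hy
  rw [h, S.hΨ]
  have := Lead.single ((![0, 1, 0] : Fin 3 → ℤ) 0 + (![0, 1, 0] : Fin 3 → ℤ) 1) (T.χ ![0, 1, 0])
  simpa using this

theorem leadΨ_ce (e : ℤ) : Lead (S.Ψ (S.c ^ e)) 0 (T.χ ![0, 0, e]) := by
  have := S.leadΨ_c.zpow S.Ψ (chi_ne T _) e
  rw [chi_zpow, mul_zero] at this
  have h : e • (![0, 0, 1] : Fin 3 → ℤ) = ![0, 0, e] := vec3 _ _ _ _ (by simp) (by simp) (by simp)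
  rwa [h] at this

theorem leadΨ_z : Lead (S.Ψ (S.z t)) (-1) (T.χ ![0, -1, E (t + 1)]) := by
  have h1 := S.rel t
  have h2 := S.leadΨ_x.pow 3
  have h3 := h2.add_gt (S.leadΨ_ce (E (t + 1))) (by norm_num)
  rw [← map_pow, ← map_add, ← h1] at h3
  have h4 := h3.div S.Ψ S.leadΨ_y (chi_ne T _)
  rw [mul_div_cancel_right₀ _ (S.hz _)] at h4
  have e : T.χ ![0, 0, E (t + 1)] / T.χ ![0, 1, 0] = T.χ ![0, -1, E (t + 1)] := by
    rw [div_eq_iff (chi_ne T _), ← T.χ_add]
    congr 1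
    exact (vec3 _ _ _ _ (by simp) (by simp) (by simp)).symm
  rw [e] at h4
  exact h4

theorem leadΨ_z' : Lead (S.Ψ (S.z (t + 3))) (-1) (T.χ ![-1, 0, E (t + 2)]) := by
  have h1 : S.z (t + 1) * S.z (t + 3) = S.z (t + 2) ^ 3 + S.c ^ E (t + 2) := S.rel (t + 1)
  have h2 := S.leadΨ_y.pow 3
  have h3 := h2.add_gt (S.leadΨ_ce (E (t + 2))) (by norm_num)
  rw [← map_pow, ← map_add, ← h1] at h3
  have h4 := h3.div S.Ψ S.leadΨ_x (chi_ne T _)
  rw [mul_div_cancel_left₀ _ (S.hz _)] at h4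
  have e : T.χ ![0, 0, E (t + 2)] / T.χ ![1, 0, 0] = T.χ ![-1, 0, E (t + 2)] := by
    rw [div_eq_iff (chi_ne T _), ← T.χ_add]
    congr 1
    exact (vec3 _ _ _ _ (by simp) (by simp) (by simp)).symm
  rw [e] at h4
  exact h4

theorem V_prev : S.V t = ![3, -1, 0] := by
  have h := S.hV t
  have h0 := S.V0
  have h1 : S.V (t + 2) = ![0, 1, 0] := S.V1
  rw [h0, h1] at h
  rw [eq_sub_of_add_eq h]
  exact vec3 _ _ _ _ (by simp) (by simp) (by simp)

theorem V_next : S.V (t + 3) = ![-1, 3, 0] := by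
  have h : S.V (t + 1) + S.V (t + 3) = (3 : ℤ) • S.V (t + 2) := S.hV (t + 1)
  have h0 := S.V0
  have h1 : S.V (t + 2) = ![0, 1, 0] := S.V1
  rw [h0, h1] at h
  rw [eq_sub_of_add_eq' h]
  exact vec3 _ _ _ _ (by simp) (by simp) (by simp)

theorem coeff_mem (ht : 1 ≤ t) (m : ℕ) (g : MvPolynomial (Fin 3) ℂ) (hg : g.IsHomogeneous m) (l : ℤ)
    (hl : ∀ i < l, (S.Ψ (S.ι g)).coeff i = 0) :
    (S.Ψ (S.ι g)).coeff l ∈ Submodule.span ℂ
      (T.χ '' {u | u ∈ Sset (E (t + 1)) (E (t + 2)) m ∧ u 0 + u 1 = l}) := by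
  have hV0 := S.V0
  have hV1 : S.V (t + 2) = ![0, 1, 0] := S.V1
  have l0 : Lead (S.Φ (S.z t)) 0 (T.χ ![3, -1, 0]) := by rw [← S.V_prev]; exact S.lead t
  have l1 : Lead (S.Φ (S.z (t + 1))) 0 (T.χ ![1, 0, 0]) := by rw [← hV0]; exact S.lead (t + 1)
  have l2 : Lead (S.Φ (S.z (t + 2))) 0 (T.χ ![0, 1, 0]) := by rw [← hV1]; exact S.lead (t + 2)
  have l3 : Lead (S.Φ (S.z (t + 3))) 0 (T.χ ![-1, 3, 0]) := by rw [← S.V_next]; exact S.lead (t + 3)
  have inj : ∀ A B C : Fin 3 → ℤ, (∀ u : Fin 3 → ℤ, u 0 • A + u 1 • B + u 2 • C = 0 → u = 0) →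
      Function.Injective fun u : Fin 3 → ℤ => u 0 • A + u 1 • B + u 2 • C := by
    intro A B C h u v huv
    have := h (u - v) (by
      simp only [Pi.sub_apply]
      have huv' : u 0 • A + u 1 • B + u 2 • C = v 0 • A + v 1 • B + v 2 • C := huv
      have : (u 0 - v 0) • A + (u 1 - v 1) • B + (u 2 - v 2) • C =
        (u 0 • A + u 1 • B + u 2 • C) - (v 0 • A + v 1 • B + v 2 • C) := by module
      rw [this, huv', sub_self])
    exact sub_eq_zero.1 this
  have zero3 : ∀ u : Fin 3 → ℤ, u 0 = 0 → u 1 = 0 → u 2 = 0 → u = 0 := by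
    intro u h0 h1 h2
    funext i
    fin_cases i
    · exact h0
    · exact h1
    · exact h2
  have A1 := S.expand_seed t ht l0 l1 (inj _ _ _ (by
      intro u hu
      have e0 := congrFun hu 0
      have e1 := congrFun hu 1
      have e2 := congrFun hu 2
      simp at e0 e1 e2
      exact zero3 u (by omega) (by omega) (by omega))) S.leadΨ_z S.leadΨ_x S.leadΨ_c
      (inj _ _ _ (by
      intro u hu
      have e0 := congrFun hu 0
      have e1 := congrFun hu 1
      have e2 := congrFun hu 2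
      simp at e0 e1 e2
      have : u 0 = 0 := by omega
      rw [this] at e2
      exact zero3 u (by omega) (by omega) (by omega))) m g hg l hl
  have A2 := S.expand_seed (t + 1) (by omega) l1 l2 (inj _ _ _ (by
      intro u hu
      have e0 := congrFun hu 0
      have e1 := congrFun hu 1
      have e2 := congrFun hu 2
      simp at e0 e1 e2
      exact zero3 u (by omega) (by omega) (by omega))) S.leadΨ_x S.leadΨ_y S.leadΨ_c
      (inj _ _ _ (by
      intro u hu
      have e0 := congrFun hu 0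
      have e1 := congrFun hu 1
      have e2 := congrFun hu 2
      simp at e0 e1 e2
      exact zero3 u (by omega) (by omega) (by omega))) m g hg l hl
  have A3 := S.expand_seed (t + 2) (by omega) l2 l3 (inj _ _ _ (by
      intro u hu
      have e0 := congrFun hu 0
      have e1 := congrFun hu 1
      have e2 := congrFun hu 2
      simp at e0 e1 e2
      exact zero3 u (by omega) (by omega) (by omega))) S.leadΨ_y S.leadΨ_z' S.leadΨ_c
      (inj _ _ _ (by
      intro u hu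
      have e0 := congrFun hu 0
      have e1 := congrFun hu 1
      have e2 := congrFun hu 2
      simp at e0 e1 e2
      have : u 1 = 0 := by omega
      rw [this] at e2
      exact zero3 u (by omega) (by omega) (by omega))) m g hg l hl
  refine Submodule.span_mono (Set.image_mono ?_) (span_inter T (span_inter T A1 A2) A3)
  rintro v ⟨⟨⟨u, hu1, hu2, hu3, hu4⟩, ⟨w, hw1, hw2, hw3, hw4⟩⟩, ⟨x, hx1, hx2, hx3, hx4⟩⟩
  have u0 := congrFun hu4 0
  have u1 := congrFun hu4 1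
  have u2 := congrFun hu4 2
  have w0 := congrFun hw4 0
  have w1 := congrFun hw4 1
  have w2 := congrFun hw4 2
  have x0 := congrFun hx4 0
  have x1 := congrFun hx4 1
  have x2 := congrFun hx4 2
  simp at u0 u1 u2 w0 w1 w2 x0 x1 x2
  refine ⟨⟨?_, ?_, ?_, ?_⟩, ?_⟩
  · rw [w0, w1, w2]
    exact hw1
  · rw [w2]; exact hw2
  · have : E (t + 1) * v 1 + v 2 = u 2 := by
      rw [u1, u2]; ring
    rw [this]; exact hu2
  · have : E (t + 2) * v 0 + v 2 = x 2 := by
      rw [x0, x2]; ring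
    rw [this]; exact hx2
  · rw [w0, w1]
    linarith

end

end Seed

end Pool.Agent.Y179.SD
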