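import Pool.Agent.Y179.SD.Inj

/-!
The number of lattice points of the toric rings does not depend on the Markov triple.
-/

noncomputable section

namespace Pool.Agent.Y179.SD

open Pool.Agent.Helper774.KSing
open Pool.Agent.Helper774.KStab (TorusField)

namespace Seed

/-- The mutation. -/
def mutn (b e : ℤ) (u : Fin 3 → ℤ) : Fin 3 → ℤ :=
  ![u 1, -u 0 + 3 * min (u 1) 0, u 2 + b * u 0 - e * min (u 1) 0]

theorem mutn_inj (b e : ℤ) : Function.Injective (mutn b e) := by
  intro u v h
  have h0 := congrFun h 0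
  have h1 := congrFun h 1
  have h2 := congrFun h 2
  simp only [mutn, Matrix.cons_val_zero, Matrix.cons_val_one, Matrix.cons_val] at h0 h1 h2
  rw [h0] at h1 h2
  have h3 : u 0 = v 0 := by linarith
  rw [h3] at h2
  funext i
  fin_cases i
  · exact h3
  · exact h0
  · show u 2 = v 2
    linarith

theorem mutn_image (a b e m : ℤ) (ha : 0 < a) (hb : 0 < b) (he : 0 < e) (h : e = 3 * b - a) :
    mutn b e '' Sset a b m = Sset b e m := by
  ext v
  constructor
  · rintro ⟨u, ⟨h1, h2, h3, h4⟩, rfl⟩
    simp only [Sset, Set.mem_setOf_eq, mutn, Matrix.cons_val_zero, Matrix.cons_val_one,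
      Matrix.cons_val]
    rcases le_or_gt 0 (u 1) with h5 | h5
    · rw [min_eq_right h5]
      refine ⟨?_, ?_, ?_, ?_⟩
      · subst h; linarith
      · linarith
      · subst h; nlinarith
      · nlinarith
    · rw [min_eq_left h5.le]
      refine ⟨?_, ?_, ?_, ?_⟩
      · subst h; linarith
      · nlinarith
      · subst h; nlinarith
      · nlinarith
  · rintro ⟨h1, h2, h3, h4⟩
    refine ⟨![-v 1 + 3 * min (v 0) 0, v 0,
      v 2 - b * (-v 1 + 3 * min (v 0) 0) + e * min (v 0) 0], ?_, ?_⟩
    · simp only [Sset, Set.mem_setOf_eq, Matrix.cons_val_zero, Matrix.cons_val_one,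
        Matrix.cons_val]
      rcases le_or_gt 0 (v 0) with h5 | h5
      · rw [min_eq_right h5]
        refine ⟨?_, ?_, ?_, ?_⟩
        · subst h; linarith
        · linarith
        · nlinarith
        · nlinarith
      · rw [min_eq_left h5.le]
        refine ⟨?_, ?_, ?_, ?_⟩
        · subst h; linarith
        · subst h; nlinarith
        · subst h; nlinarith
        · nlinarith
    · funext i
      fin_cases i
      · rfl
      · simp [mutn]
      · simp [mutn]
        ring

/-- base case -/
def emb (d : Fin 3 →₀ ℕ) : Fin 3 → ℤ := ![(d 0 : ℤ) - d 2, (d 1 : ℤ) - d 2, d 2]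

theorem emb_inj : Function.Injective emb := by
  intro u v h
  have h0 := congrFun h 0
  have h1 := congrFun h 1
  have h2 := congrFun h 2
  simp only [emb, Matrix.cons_val_zero, Matrix.cons_val_one, Matrix.cons_val] at h0 h1 h2
  ext i
  fin_cases i
  · show u 0 = v 0
    omega
  · show u 1 = v 1
    omega
  · show u 2 = v 2
    omega

theorem emb_image (m : ℕ) : emb '' {d | d.degree = m} = Sset 1 1 m := by
  ext v
  constructor
  · rintro ⟨d, hd, rfl⟩
    have hd' : d 0 + d 1 + d 2 = m := by
      have : d.degree = m := hd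
      rw [← this, Finsupp.degree_eq_sum, Fin.sum_univ_three]
    simp only [Sset, Set.mem_setOf_eq, emb, Matrix.cons_val_zero, Matrix.cons_val_one,
      Matrix.cons_val]
    refine ⟨?_, ?_, ?_, ?_⟩ <;> omega
  · rintro ⟨h1, h2, h3, h4⟩
    refine ⟨Finsupp.equivFunOnFinite.symm ![(v 0 + v 2).toNat, (v 1 + v 2).toNat, (v 2).toNat],
      ?_, ?_⟩
    · show Finsupp.degree _ = m
      rw [Finsupp.degree_eq_sum, Fin.sum_univ_three]
      simp
      omega
    · funext i
      fin_cases i
      · simp [emb]
        omega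
      · simp [emb]
        omega
      · simp [emb]
        omega

theorem Sset_count (n : ℕ) (hn : 1 ≤ n) (m : ℕ) : (Sset (E n) (E (n + 1)) m).Finite ∧
    (Sset (E n) (E (n + 1)) m).ncard = {d : Fin 3 →₀ ℕ | d.degree = m}.ncard := by
  induction n, hn using Nat.le_induction with
  | base =>
    rw [E_one, E_two, ← emb_image]
    exact ⟨(Finsupp.finite_of_degree_eq m).image _, Set.ncard_image_of_injective _ emb_inj⟩
  | succ n hn ih =>
    have h := mutn_image (E n) (E (n + 1)) (E (n + 2)) m (E_pos n) (E_pos (n + 1)) (E_pos (n + 2))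
      (E_rec n)
    show (Sset (E (n + 1)) (E (n + 2)) m).Finite ∧
      (Sset (E (n + 1)) (E (n + 2)) m).ncard = {d : Fin 3 →₀ ℕ | d.degree = m}.ncard
    rw [← h]
    exact ⟨ih.1.image _, by rw [Set.ncard_image_of_injective _ (mutn_inj _ _), ih.2]⟩

theorem finrank_hom (m : ℕ) : Module.finrank ℂ (MvPolynomial.homogeneousSubmodule (Fin 3) ℂ m) =
    {d : Fin 3 →₀ ℕ | d.degree = m}.ncard := by
  rw [MvPolynomial.homogeneousSubmodule_eq_finsupp_supported]
  have := Module.finrank_eq_nat_card_basis
    (MvPolynomial.basisRestrictSupport ℂ {d : Fin 3 →₀ ℕ | d.degree = m})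
  rw [← Nat.card_coe_set_eq]
  exact this

end Seed

end Pool.Agent.Y179.SD
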