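import Pool.Agent.Helper774.KSing.Defs

/-!
Special degenerations (central fibres of special test configurations) of klt Fano varieties, in
terms of finitely generated filtrations of anticanonical algebras, and bounded sets of projective
varieties.
-/

noncomputable section

namespace Pool.Agent.Y179.SD

open Pool.Agent.Helper774.KSing

/-- A filtration `F` of the anticanonical algebra `R(X, r) = ⨁ m, H⁰(X, O_X(-r m K_X))`: for every `m`
a decreasing, exhaustive and separated filtration of `H⁰(X, O_X(-r m K_X))` by subspaces `F m l`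
(`l ∈ ℤ`), such that `F m l * F m' l' ⊆ F (m + m') (l + l')`. -/
structure Filtration (X : Variety) (r : ℕ) where
  /-- the step `l` of the filtration in degree `m` -/
  F : ℕ → ℤ → Submodule ℂ X.K
  le : ∀ m l, F m l ≤ X.antican (r * m)
  anti : ∀ m l, F m (l + 1) ≤ F m l
  exhaustive : ∀ m, ∃ l, F m l = X.antican (r * m)
  separated : ∀ m, ∃ l, F m l = ⊥
  one : (1 : X.K) ∈ F 0 0
  mul : ∀ {m m' : ℕ} {l l' : ℤ} {f g : X.K}, f ∈ F m l → g ∈ F m' l' → f * g ∈ F (m + m') (l + l')

namespace Filtration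

variable {X : Variety} {r : ℕ}

/-- The Rees algebra `⨁ m l, F m l t^(-l)` of the filtration: the subalgebra of the algebra `K[ℕ × ℤ]`
over the function field `K` of `X` generated by the elements `f` of `F m l` in degree `(m, l)` (this
element stands for `f t^(-l)`, and `t` is the element `1` of `F 0 (-1)` in degree `(0, -1)`). -/
def rees (𝓕 : Filtration X r) : Subalgebra ℂ (AddMonoidAlgebra X.K (ℕ × ℤ)) :=
  Algebra.adjoin ℂ {x | ∃ (m : ℕ) (l : ℤ) (f : X.K), f ∈ 𝓕.F m l ∧
    x = AddMonoidAlgebra.single (m, l) f}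

/-- The linear map `σ m l` (of which only the restriction to `F m l` matters) has the kernel
`F m (l + 1)` on `F m l`. So it defines an injective linear map from the graded piece
`F m l / F m (l + 1)` to the function field of `Y`. -/
def HasKer (𝓕 : Filtration X r) (Y : Variety) (σ : ℕ → ℤ → X.K →ₗ[ℂ] Y.K) : Prop :=
  ∀ m l, ∀ f ∈ 𝓕.F m l, σ m l f = 0 ↔ f ∈ 𝓕.F m (l + 1)

/-- The linear maps `σ m l` are compatible with the units and the products. -/
def IsMul (𝓕 : Filtration X r) (Y : Variety) (σ : ℕ → ℤ → X.K →ₗ[ℂ] Y.K) : Prop :=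
  σ 0 0 1 = 1 ∧
  ∀ m m' l l', ∀ f ∈ 𝓕.F m l, ∀ g ∈ 𝓕.F m' l', σ (m + m') (l + l') (f * g) = σ m l f * σ m' l' g

/-- `H⁰(Y, O_Y(-r m K_Y))` is the direct sum over `l ∈ ℤ` of the images of the maps `σ m l` on `F m l`,
for every `m`. -/
def IsDecomp (𝓕 : Filtration X r) (Y : Variety) (σ : ℕ → ℤ → X.K →ₗ[ℂ] Y.K) : Prop :=
  ∀ m, iSupIndep (fun l => (𝓕.F m l).map (σ m l)) ∧
    ⨆ l, (𝓕.F m l).map (σ m l) = Y.antican (r * m)

/-- An isomorphism of graded algebras between the associated graded algebra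
`⨁ m l, F m l / F m (l + 1)` and the anticanonical algebra
`R(Y, r) = ⨁ m, H⁰(Y, O_Y(-r m K_Y))` of `Y`. -/
def GrIso (𝓕 : Filtration X r) (Y : Variety) : Prop :=
  ∃ σ : ℕ → ℤ → X.K →ₗ[ℂ] Y.K, 𝓕.HasKer Y σ ∧ 𝓕.IsMul Y σ ∧ 𝓕.IsDecomp Y σ

end Filtration

/-- `Y` is the central fibre of a special degeneration of the klt Fano variety `X`: `Y` is a klt Fano
variety, and for some `r ≥ 1` there is a filtration of the anticanonical algebra `R(X, r)` whose
Rees algebra `𝓡` is a finitely generated `ℂ`-algebra and whose associated graded algebra is isomorphic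
to the anticanonical algebra `R(Y, r)` of `Y`.

The degeneration itself is `𝓧 = Proj 𝓡 → 𝔸¹ = Spec ℂ[t]`, a flat projective family with the
`𝔾_m`-action given by the grading by `l`; it restricts to the product `X × (𝔸¹ ∖ 0)` over `𝔸¹ ∖ 0`, since
`𝓡[1/t] = R(X, r)[t, 1/t]`, and its fibre over `0` is `Proj (𝓡 / t 𝓡) = Proj R(Y, r) = Y`. As `Y` is
normal, `𝓧` is normal, and as the central fibre is integral, `O(1)` and `-r K` agree on `𝓧`, so that
`-K` is `ℚ`-Cartier and relatively ample. Conversely, every special degeneration `𝓧` with central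
fibre `Y` is of this form, with `𝓡 = ⨁ m, H⁰(𝓧, O(-r m K))` and `r` divisible enough. -/
def IsSpecialDegeneration (X Y : Variety) : Prop :=
  Y.IsFano ∧ Y.IsKlt ∧ ∃ r : ℕ, 1 ≤ r ∧ ∃ 𝓕 : Filtration X r, 𝓕.rees.FG ∧ 𝓕.GrIso Y

/-- The forms which vanish at the point `y` of `ℙ^N` with coordinates in the field `K` are those of
the saturation of the ideal `I`. -/
def IsIdealOf {K : Type} [Field K] [Algebra ℂ K] {N : ℕ} (y : Fin (N + 1) → K)
    (I : Ideal (MvPolynomial (Fin (N + 1)) ℂ)) : Prop :=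
  ∀ (d : ℕ) (f : MvPolynomial (Fin (N + 1)) ℂ), f.IsHomogeneous d →
    (MvPolynomial.aeval y f = 0 ↔
      ∃ n : ℕ, ∀ g : MvPolynomial (Fin (N + 1)) ℂ, g.IsHomogeneous n → g * f ∈ I)

/-- The affine chart `x_i ≠ 0` of the closure of the point `y` of `ℙ^N` with coordinates in `K`: the
algebra `ℂ[y_0 / y_i, …, y_N / y_i]`. -/
def projChart {K : Type} [Field K] [Algebra ℂ K] {N : ℕ} (y : Fin (N + 1) → K) (i : Fin (N + 1)) :
    Subalgebra ℂ K := Algebra.adjoin ℂ (Set.range fun j => y j / y i)

/-- The variety `X` is isomorphic to the projective scheme `Proj (ℂ[x_0, …, x_N] / I)`, where `I` is a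
homogeneous ideal: there are elements `y_0, …, y_N` of the function field of `X` (the homogeneous
coordinates of the generic point), not all zero, such that the forms which vanish at `y` are those
of the saturation of `I`, and the points of `X` are the points of the affine varieties
`Spec ℂ[y_0 / y_i, …, y_N / y_i]` with `y_i ≠ 0`. -/
def IsProj (X : Variety) {N : ℕ} (I : Ideal (MvPolynomial (Fin (N + 1)) ℂ)) : Prop :=
  ∃ y : Fin (N + 1) → X.K, (∃ i, y i ≠ 0) ∧ IsIdealOf y I ∧
    X.points = {A | ∃ i, y i ≠ 0 ∧ ∃ p : Ideal (projChart y i), p.IsPrime ∧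
      A = locRing (projChart y i) p}

/-- A set of varieties is bounded if its members are isomorphic to fibres `Z_t`, `t ∈ T(ℂ)`, of a
projective morphism `Z → T` with `T` of finite type over `ℂ`. One may take for `T` an affine scheme
`Spec B` and for `Z` the closed subscheme of `ℙ^N × T` given by a set `S` of homogeneous
polynomials in `B[x_0, …, x_N]`. -/
def IsBounded (P : Set Variety) : Prop :=
  ∃ (B : Type) (_ : CommRing B) (_ : Algebra ℂ B) (N : ℕ) (S : Set (MvPolynomial (Fin (N + 1)) B)),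
    Algebra.FiniteType ℂ B ∧ (∀ f ∈ S, ∃ d, f.IsHomogeneous d) ∧
    ∀ X ∈ P, ∃ t : B →ₐ[ℂ] ℂ, IsProj X (Ideal.span (MvPolynomial.map t.toRingHom '' S))

end Pool.Agent.Y179.SD
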