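import Pool.Agent.Y179.SD.Kap
import Pool.Agent.Y179.SD.Defs

/-!
The filtration of the anticanonical ring of the projective plane and its associated graded ring.
-/

noncomputable section

namespace Pool.Agent.Y179.SD

open Pool.Agent.Helper774.KSing
open Pool.Agent.Helper774.KStab (TorusField)

variable {K L : Type} [Field K] [Algebra ℂ K] [Field L] [Algebra ℂ L]
  {T : TorusField 3 K} {t : ℕ} (S : Seed T (t + 1)) (T2 : TorusField 2 L)

namespace Seed

/-- The filtration. -/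
def fil (ht : 1 ≤ t) : Filtration (toricVar T2 dat2) 1 where
  F m l := (S.PF (3 * m) l).map (kap T2 m)
  le m l := by
    rw [one_mul, antican2]
    exact Submodule.map_mono fun g hg => hg.1
  anti m l := Submodule.map_mono (S.PF_anti (by omega))
  exhaustive m := by
    obtain ⟨B, b1, -⟩ := S.PF_low ht (3 * m)
    refine ⟨-B, ?_⟩
    rw [b1 _ le_rfl, one_mul, antican2]
  separated m := by
    obtain ⟨B, -, b2, -⟩ := S.PF_low ht (3 * m)
    refine ⟨B, ?_⟩
    rw [b2 _ le_rfl, Submodule.map_bot]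
  one := ⟨1, S.PF_one.1, kap_one T2⟩
  mul := by
    rintro m m' l l' _ _ ⟨f, hf, rfl⟩ ⟨g, hg, rfl⟩
    refine ⟨f * g, ?_, kap_mul T2 m m' f g⟩
    have := (S.PF_mul hf hg).1
    rw [← mul_add] at this
    exact this

theorem fil_F (ht : 1 ≤ t) (m : ℕ) (l : ℤ) :
    (S.fil T2 ht).F m l = (S.PF (3 * m) l).map (kap T2 m) := rfl

theorem cf_mem (ht : 1 ≤ t) (m : ℕ) (l : ℤ) {g : MvPolynomial (Fin 3) ℂ} (hg : g ∈ S.PF (3 * m) l) :
    S.cf l g ∈ Submodule.span ℂ (T.χ '' Lm (E (t + 1)) (E (t + 2)) m) := by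
  have h1 : S.cf l g ∈ (S.PF (3 * m) l).map (S.cf l) := ⟨g, hg, rfl⟩
  rw [S.map_eq ht] at h1
  exact Submodule.span_mono (Set.image_mono fun u hu => Sset_sub_Lm _ _ m hu.1) h1

theorem tau_inj (τ : K →ₗ[ℂ] L) (hτ : ∀ u, τ (T.χ u) = T2.χ (pr (E (t + 1)) (E (t + 2)) u)) (m : ℤ)
    (f : K) (hf : f ∈ Submodule.span ℂ (T.χ '' Lm (E (t + 1)) (E (t + 2)) m)) (h : τ f = 0) :
    f = 0 := by
  rw [Finsupp.mem_span_image_iff_linearCombination] at hf
  obtain ⟨c, hc, rfl⟩ := hf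
  rw [Finsupp.linearCombination_apply, Finsupp.sum, map_sum] at h
  have h1 := indep_on T2 (pr (E (t + 1)) (E (t + 2))) _
    (pr_inj (m := m) (E_pos (t + 1)) (E_pos (t + 2)) (markov t)) c.support
    ((Finsupp.mem_supported ℂ c).1 hc) (fun u => c u) (by
      rw [← h]
      exact Finset.sum_congr rfl fun u _ => by rw [map_smul, hτ])
  have : c = 0 := by
    ext u
    by_cases hu : u ∈ c.support
    · exact h1 u hu
    · exact Finsupp.notMem_support_iff.1 hu
  rw [this, map_zero]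

theorem tau_mul (τ : K →ₗ[ℂ] L) (hτ : ∀ u, τ (T.χ u) = T2.χ (pr (E (t + 1)) (E (t + 2)) u))
    (m m' : ℤ) (f g : K) (hf : f ∈ Submodule.span ℂ (T.χ '' Lm (E (t + 1)) (E (t + 2)) m))
    (hg : g ∈ Submodule.span ℂ (T.χ '' Lm (E (t + 1)) (E (t + 2)) m')) :
    τ (f * g) = τ f * τ g := by
  induction hf using Submodule.span_induction with
  | zero => rw [zero_mul, map_zero, zero_mul]
  | add x y _ _ hx hy => rw [add_mul, map_add, map_add, add_mul, hx, hy]
  | smul c x _ hx => rw [smul_mul_assoc, map_smul, map_smul, smul_mul_assoc, hx]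
  | mem x hx =>
    obtain ⟨u, hu, rfl⟩ := hx
    induction hg using Submodule.span_induction with
    | zero => rw [mul_zero, map_zero, mul_zero]
    | add x y _ _ hx hy => rw [mul_add, map_add, map_add, mul_add, hx, hy]
    | smul c x _ hx => rw [mul_smul_comm, map_smul, map_smul, mul_smul_comm, hx]
    | mem x hx =>
      obtain ⟨v, hv, rfl⟩ := hx
      rw [← T.χ_add, hτ, hτ, hτ, pr_add hu hv, T2.χ_add]

/-- spans of characters over disjoint sets are independent -/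
theorem indep_span {n : ℕ} {F : Type} [Field F] [Algebra ℂ F] (T : TorusField n F) {I : Type}
    (A : I → Set (Fin n → ℤ)) (hA : ∀ i j, i ≠ j → Disjoint (A i) (A j)) :
    iSupIndep fun i => Submodule.span ℂ (T.χ '' A i) := by
  intro i
  have h1 : (⨆ (j : I) (_ : j ≠ i), Submodule.span ℂ (T.χ '' A j)) ≤
      Submodule.span ℂ (T.χ '' ⋃ (j : I) (_ : j ≠ i), A j) := by
    refine iSup₂_le fun j hj => Submodule.span_mono (Set.image_mono ?_)
    intro x hx
    rw [Set.mem_iUnion₂]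
    exact ⟨j, hj, hx⟩
  refine Disjoint.mono_right h1 ?_
  refine T.li.disjoint_span_image ?_
  rw [Set.disjoint_iUnion₂_right]
  intro j hj
  exact hA i j hj.symm

theorem grIso (ht : 1 ≤ t) : (S.fil T2 ht).GrIso (toricVar T2 (dat t)) := by
  obtain ⟨τ, hτ⟩ := exists_tau T T2 (pr (E (t + 1)) (E (t + 2)))
  choose G hG using fun m => exists_G T2 m
  let σ : ℕ → ℤ → L →ₗ[ℂ] L := fun m l => τ ∘ₗ S.cf l ∘ₗ G m
  have hσ : ∀ (m : ℕ) (l : ℤ) (g : MvPolynomial (Fin 3) ℂ), g ∈ S.PF (3 * m) l →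
      σ m l (kap T2 m g) = τ (S.cf l g) := by
    intro m l g hg
    show τ (S.cf l (G m (kap T2 m g))) = _
    rw [hG m g hg.1]
  have hrange : ∀ (m : ℕ) (l : ℤ), ((S.fil T2 ht).F m l).map (σ m l) = Submodule.span ℂ
      (T2.χ '' (pr (E (t + 1)) (E (t + 2)) '' Sl t (3 * m) l)) := by
    intro m l
    have h1 : ((S.fil T2 ht).F m l).map (σ m l) = ((S.PF (3 * m) l).map (S.cf l)).map τ := by
      ext x
      constructor
      · rintro ⟨_, ⟨g, hg, rfl⟩, rfl⟩
        exact ⟨_, ⟨g, hg, rfl⟩, (hσ m l g hg).symm⟩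
      · rintro ⟨_, ⟨g, hg, rfl⟩, rfl⟩
        exact ⟨kap T2 m g, ⟨g, hg, rfl⟩, hσ m l g hg⟩
    rw [h1, S.map_eq ht, Submodule.map_span, Set.image_image, Set.image_image]
    congr 1
    exact Set.image_congr fun u _ => hτ u
  refine ⟨σ, ?_, ⟨?_, ?_⟩, fun m => ⟨?_, ?_⟩⟩
  · rintro m l _ ⟨g, hg, rfl⟩
    rw [hσ m l g hg]
    constructor
    · intro h
      have h1 := tau_inj T2 τ hτ m _ (S.cf_mem ht m l hg) h
      exact ⟨g, S.mem_PF_succ.2 ⟨hg, h1⟩, rfl⟩
    · rintro ⟨g', hg', h⟩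
      have : g' = g := by
        have h2 : kap T2 m (g' - g) = 0 := by rw [map_sub, h, sub_self]
        exact sub_eq_zero.1 (kap_inj T2 m (3 * m) (g' - g) (hg'.1.sub hg.1) h2)
      subst this
      rw [(S.mem_PF_succ.1 hg').2, map_zero]
  · have h1 := hσ 0 0 1 S.PF_one.1
    have h2 : τ 1 = 1 := by
      have := hτ 0
      rw [T.χ_zero] at this
      rw [this]
      have h3 : pr (E (t + 1)) (E (t + 2)) 0 = 0 := by
        funext i
        fin_cases i <;> simp [pr]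
      rw [h3, T2.χ_zero]
    rw [kap_one] at h1
    refine h1.trans ?_
    rw [S.PF_one.2, h2]
  · rintro m m' l l' _ ⟨f, hf, rfl⟩ _ ⟨g, hg, rfl⟩
    rw [hσ m l f hf, hσ m' l' g hg]
    obtain ⟨h1, h2⟩ := S.PF_mul hf hg
    rw [← mul_add] at h1
    have h3 := hσ (m + m') (l + l') (f * g) h1
    rw [h2, tau_mul T2 τ hτ m m' _ _ (S.cf_mem ht m l hf) (S.cf_mem ht m' l' hg)] at h3
    rw [← h3, ← kap_mul]
  · have : (fun l : ℤ => ((S.fil T2 ht).F m l).map (σ m l)) = fun l : ℤ => Submodule.span ℂ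
      (T2.χ '' (pr (E (t + 1)) (E (t + 2)) '' Sl t (3 * m) l)) := funext fun l => hrange m l
    rw [this]
    apply indep_span
    intro l l' hl
    rw [Set.disjoint_left]
    rintro _ ⟨u, hu, rfl⟩ ⟨v, hv, h⟩
    have h1 := pr_inj (m := m) (E_pos (t + 1)) (E_pos (t + 2)) (markov t)
      (Sset_sub_Lm _ _ m hv.1) (Sset_sub_Lm _ _ m hu.1) h
    subst h1
    exact hl (hu.2.symm.trans hv.2)
  · have h1 : ⨆ l : ℤ, ((S.fil T2 ht).F m l).map (σ m l) = ⨆ l : ℤ, Submodule.span ℂ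
      (T2.χ '' (pr (E (t + 1)) (E (t + 2)) '' Sl t (3 * m) l)) := iSup_congr fun l => hrange m l
    rw [h1, ← Submodule.span_iUnion, ← Set.image_iUnion, ← Set.image_iUnion, one_mul]
    have h2 : ⋃ l : ℤ, Sl t (3 * m) l = Sset (E (t + 1)) (E (t + 2)) ((3 * m : ℕ) : ℤ) := by
      ext u
      rw [Set.mem_iUnion]
      exact ⟨fun ⟨l, hu⟩ => hu.1, fun hu => ⟨u 0 + u 1, hu, rfl⟩⟩
    rw [h2, pr_image]
    ext f
    exact (toric_antican T2 (dat t) m f).symm

end Seed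

end Pool.Agent.Y179.SD
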