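import Pool.Agent.Y179.SD.Lat
import Pool.Agent.Y179.SD.Defs

/-!
Embedding dimension of the torus fixed points of toric surfaces.
-/

noncomputable section

namespace Pool.Agent.Y179.SD

open Pool.Agent.Helper774.KSing
open Pool.Agent.Helper774.KStab (TorusField)

variable {L : Type} [Field L] [Algebra ℂ L] (T : TorusField 2 L) (R : Matrix (Fin 2) (Fin 2) ℤ)

/-- the irreducible elements of the monoid of the cone -/
def Irr (w : Fin 2 → ℤ) : Prop :=
  w ∈ Mset R 0 ∧ w ≠ 0 ∧ ∀ u ∈ Mset R 0, ∀ v ∈ Mset R 0, u + v = w → u = 0 ∨ v = 0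

theorem exists_functional (w : Fin 2 → ℤ) :
    ∃ c : L →ₗ[ℂ] ℂ, c (T.χ w) = 1 ∧ ∀ u, u ≠ w → c (T.χ u) = 0 := by
  classical
  obtain ⟨g, hg⟩ := LinearMap.exists_extend ((Module.Basis.span T.li).constr ℂ
    fun u => if u = w then (1 : ℂ) else 0)
  have key : ∀ u, g (T.χ u) = if u = w then (1 : ℂ) else 0 := by
    intro u
    have h1 : (Module.Basis.span T.li) u = ⟨T.χ u, Submodule.subset_span ⟨u, rfl⟩⟩ :=
      Module.Basis.span_apply T.li u
    have h2 := (Module.Basis.span T.li).constr_basis ℂ (fun u => if u = w then (1 : ℂ) else 0) u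
    rw [h1] at h2
    rw [← h2, ← hg]
    rfl
  refine ⟨g, by rw [key, if_pos rfl], fun u hu => by rw [key, if_neg hu]⟩

/-- the coefficient of `χ w` -/
def co (w : Fin 2 → ℤ) : L →ₗ[ℂ] ℂ := Classical.choose (exists_functional T w)

theorem co_self (w : Fin 2 → ℤ) : co T w (T.χ w) = 1 := (Classical.choose_spec
  (exists_functional T w)).1

theorem co_ne {u w : Fin 2 → ℤ} (h : u ≠ w) : co T w (T.χ u) = 0 := (Classical.choose_spec
  (exists_functional T w)).2 u h

variable {R}

theorem Mset_pointed (hR : R.det ≠ 0) {u v : Fin 2 → ℤ} (hu : u ∈ Mset R 0) (hv : v ∈ Mset R 0)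
    (h : u + v = 0) : u = 0 ∧ v = 0 := by
  have h1 : ∀ j, Matrix.vecMul u R j = 0 := by
    intro j
    have a := hu j
    have b := hv j
    have c : Matrix.vecMul u R j + Matrix.vecMul v R j = 0 := by
      rw [← Pi.add_apply, ← Matrix.add_vecMul, h, Matrix.zero_vecMul, Pi.zero_apply]
    linarith
  have h2 : u = 0 := Matrix.eq_zero_of_vecMul_eq_zero hR (funext h1)
  refine ⟨h2, ?_⟩
  rw [h2, zero_add] at h
  exact h

theorem co_zero_mul (hR : R.det ≠ 0) {a b : L} (ha : a ∈ cone T R) (hb : b ∈ cone T R) :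
    co T 0 (a * b) = co T 0 a * co T 0 b := by
  rw [mem_cone] at ha hb
  unfold mspan at ha hb
  induction ha using Submodule.span_induction with
  | zero => rw [zero_mul, map_zero, zero_mul]
  | add x y _ _ hx hy => rw [add_mul, map_add, map_add, add_mul, hx, hy]
  | smul c x _ hx => rw [smul_mul_assoc, map_smul, map_smul, smul_mul_assoc, hx]
  | mem x hx =>
    obtain ⟨u, hu, rfl⟩ := hx
    induction hb using Submodule.span_induction with
    | zero => rw [mul_zero, map_zero, mul_zero]
    | add x y _ _ hx hy => rw [mul_add, map_add, map_add, mul_add, hx, hy]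
    | smul c x _ hx => rw [mul_smul_comm, map_smul, map_smul, mul_smul_comm, hx]
    | mem x hx =>
      obtain ⟨v, hv, rfl⟩ := hx
      rw [← T.χ_add]
      by_cases h : u + v = 0
      · obtain ⟨h1, h2⟩ := Mset_pointed hR hu hv h
        rw [h, h1, h2, co_self, mul_one]
      · rw [co_ne T h]
        by_cases h1 : u = 0
        · have h2 : v ≠ 0 := by
            rintro rfl
            exact h (by rw [h1, add_zero])
          rw [co_ne T h2, mul_zero]
        · rw [co_ne T h1, zero_mul]

theorem co_irr_mul {w : Fin 2 → ℤ} (hw : Irr R w) {a b : L} (ha : a ∈ cone T R)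
    (hb : b ∈ cone T R) : co T w (a * b) = co T 0 a * co T w b + co T w a * co T 0 b := by
  rw [mem_cone] at ha hb
  unfold mspan at ha hb
  induction ha using Submodule.span_induction with
  | zero => simp only [zero_mul, map_zero, add_zero]
  | add x y _ _ hx hy => rw [add_mul, map_add, map_add, map_add, hx, hy]; ring
  | smul c x _ hx =>
    rw [smul_mul_assoc, map_smul, map_smul, map_smul, hx]
    simp only [smul_eq_mul]
    ring
  | mem x hx =>
    obtain ⟨u, hu, rfl⟩ := hx
    induction hb using Submodule.span_induction with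
    | zero => simp only [mul_zero, map_zero, add_zero]
    | add x y _ _ hx hy => rw [mul_add, map_add, map_add, map_add, hx, hy]; ring
    | smul c x _ hx =>
      rw [mul_smul_comm, map_smul, map_smul, map_smul, hx]
      simp only [smul_eq_mul]
      ring
    | mem x hx =>
      obtain ⟨v, hv, rfl⟩ := hx
      rw [← T.χ_add]
      by_cases h : u + v = w
      · rcases hw.2.2 u hu v hv h with h1 | h1
        · rw [h1, zero_add] at h
          rw [h1, zero_add, h, co_self, co_self, co_ne T hw.2.1.symm]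
          ring
        · rw [h1, add_zero] at h
          rw [h1, add_zero, h, co_self, co_self, co_ne T hw.2.1.symm]
          ring
      · rw [co_ne T h]
        by_cases h1 : u = 0
        · have h2 : v ≠ w := by
            rintro rfl
            exact h (by rw [h1, zero_add])
          have h3 : u ≠ w := by
            rintro rfl
            exact hw.2.1 h1
          rw [co_ne T h2, co_ne T h3]
          ring
        · by_cases h2 : v = 0
          · have h3 : u ≠ w := by
              rintro rfl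
              exact h (by rw [h2, add_zero])
            rw [co_ne T h3, co_ne T h1]
            ring
          · rw [co_ne T h1, co_ne T h2]
            ring

/-- The number of the irreducible elements of the monoid is at most the number of generators of any
affine neighbourhood of the torus fixed point. -/
theorem card_le (hR : R.det ≠ 0) (W : Finset (Fin 2 → ℤ)) (hW : ∀ w ∈ W, Irr R w) {N : ℕ}
    (g : Fin N → L) (A : Set L) (R' : Subalgebra ℂ L) (hR' : R' = Algebra.adjoin ℂ (Set.range g))
    (p : Ideal R') (hp : p.IsPrime) (h1 : A = locRing R' p)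
    (h2 : A = {z | ∃ a ∈ cone T R, ∃ s ∈ cone T R, co T 0 s ≠ 0 ∧ z * s = a}) :
    W.card ≤ N := by
  classical
  by_contra hlt
  push Not at hlt
  have hsub : ∀ z ∈ R', z ∈ A := by
    intro z hz
    rw [h1]
    exact ⟨⟨z, hz⟩, 1, (Ideal.ne_top_iff_one p).1 hp.ne_top, by simp⟩
  have hg : ∀ j, ∃ a ∈ cone T R, ∃ s ∈ cone T R, co T 0 s ≠ 0 ∧ g j * s = a := by
    intro j
    have := hsub (g j) (by rw [hR']; exact Algebra.subset_adjoin ⟨j, rfl⟩)
    rw [h2] at this
    exact this
  choose a ha s hs hs0 hgs using hg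
  obtain ⟨lam, hlam, w₀, hw₀, hne⟩ : ∃ lam : (Fin 2 → ℤ) → ℂ,
      (∀ j, ∑ w ∈ W, lam w * (co T w (a j) * co T 0 (s j) - co T 0 (a j) * co T w (s j)) = 0) ∧
      ∃ w ∈ W, lam w ≠ 0 := by
    have hli : ¬ LinearIndependent ℂ (fun w : W => fun j : Fin N =>
        co T w (a j) * co T 0 (s j) - co T 0 (a j) * co T w (s j)) := by
      intro hli
      have := hli.fintype_card_le_finrank
      rw [Module.finrank_fin_fun, Fintype.card_coe] at this
      omega
    rw [Fintype.not_linearIndependent_iff] at hli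
    obtain ⟨lam, hl1, w, hw⟩ := hli
    refine ⟨fun v => if h : v ∈ W then lam ⟨v, h⟩ else 0, fun j => ?_, w, w.2, ?_⟩
    · have h3 := congrFun hl1 j
      rw [Finset.sum_apply] at h3
      rw [← Finset.sum_coe_sort]
      refine Eq.trans (Finset.sum_congr rfl fun v _ => ?_) h3
      simp only [dif_pos v.2]
      rfl
    · simp only [dif_pos w.2]
      exact hw
  let D : L → ℂ := fun z => ∑ w ∈ W, lam w * co T w z
  have hDadd : ∀ x y, D (x + y) = D x + D y := by
    intro x y
    simp only [D, map_add, mul_add, Finset.sum_add_distrib]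
  have hDmul : ∀ x ∈ cone T R, ∀ y ∈ cone T R, D (x * y) = co T 0 x * D y + D x * co T 0 y := by
    intro x hx y hy
    simp only [D, Finset.mul_sum, Finset.sum_mul, ← Finset.sum_add_distrib]
    refine Finset.sum_congr rfl fun w hw => ?_
    rw [co_irr_mul T (hW w hw) hx hy]
    ring
  have hone : co T 0 (1 : L) = 1 := by
    rw [← T.χ_zero]
    exact co_self T 0
  have hD1 : D 1 = 0 := by
    have := hDmul 1 (cone T R).one_mem 1 (cone T R).one_mem
    rw [mul_one, hone] at this
    linear_combination -this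
  have hDalg : ∀ c : ℂ, D (algebraMap ℂ L c) = 0 := by
    intro c
    have : D (algebraMap ℂ L c) = c * D 1 := by
      simp only [D, Algebra.algebraMap_eq_smul_one, map_smul, smul_eq_mul, Finset.mul_sum]
      exact Finset.sum_congr rfl fun w _ => by ring
    rw [this, hD1, mul_zero]
  have hg0 : ∀ j, D (a j) * co T 0 (s j) = co T 0 (a j) * D (s j) := by
    intro j
    have := hlam j
    simp only [D, Finset.mul_sum, Finset.sum_mul]
    rw [← sub_eq_zero, ← Finset.sum_sub_distrib, ← this]
    exact Finset.sum_congr rfl fun w _ => by ring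
  have hQ : ∀ z ∈ R', ∃ x ∈ cone T R, ∃ y ∈ cone T R, co T 0 y ≠ 0 ∧ z * y = x ∧
      D x * co T 0 y = co T 0 x * D y := by
    intro z hz
    rw [hR'] at hz
    induction hz using Algebra.adjoin_induction with
    | mem x hx =>
      obtain ⟨j, rfl⟩ := hx
      exact ⟨a j, ha j, s j, hs j, hs0 j, hgs j, hg0 j⟩
    | algebraMap c =>
      refine ⟨_, (cone T R).algebraMap_mem c, 1, (cone T R).one_mem, ?_, mul_one _, ?_⟩
      · rw [hone]; exact one_ne_zero
      · rw [hDalg, hD1]; ring
    | add z z' _ _ hz hz' =>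
      obtain ⟨x, hx, y, hy, hy0, e, hd⟩ := hz
      obtain ⟨x', hx', y', hy', hy0', e', hd'⟩ := hz'
      have m1 := (cone T R).mul_mem hx hy'
      have m2 := (cone T R).mul_mem hx' hy
      refine ⟨x * y' + x' * y, (cone T R).add_mem m1 m2, y * y', (cone T R).mul_mem hy hy', ?_, ?_,
        ?_⟩
      · rw [co_zero_mul T hR hy hy']
        exact mul_ne_zero hy0 hy0'
      · rw [← e, ← e']; ring
      · rw [hDadd, hDmul _ hx _ hy', hDmul _ hx' _ hy, co_zero_mul T hR hy hy', hDmul _ hy _ hy',
          map_add, co_zero_mul T hR hx hy', co_zero_mul T hR hx' hy]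
        linear_combination co T 0 y' ^ 2 * hd + co T 0 y ^ 2 * hd'
    | mul z z' _ _ hz hz' =>
      obtain ⟨x, hx, y, hy, hy0, e, hd⟩ := hz
      obtain ⟨x', hx', y', hy', hy0', e', hd'⟩ := hz'
      refine ⟨x * x', (cone T R).mul_mem hx hx', y * y', (cone T R).mul_mem hy hy', ?_, ?_, ?_⟩
      · rw [co_zero_mul T hR hy hy']
        exact mul_ne_zero hy0 hy0'
      · rw [← e, ← e']; ring
      · rw [hDmul _ hx _ hx', hDmul _ hy _ hy', co_zero_mul T hR hy hy', co_zero_mul T hR hx hx']
        linear_combination co T 0 x' * co T 0 y' * hd + co T 0 x * co T 0 y * hd'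
  -- the contradiction
  have hwmem : T.χ w₀ ∈ cone T R := mem_cone_chi T R (hW w₀ hw₀).1
  have hwA : T.χ w₀ ∈ A := by
    rw [h2]
    exact ⟨_, hwmem, 1, (cone T R).one_mem, by rw [hone]; exact one_ne_zero, mul_one _⟩
  rw [h1] at hwA
  obtain ⟨α, σ, hσ, he⟩ := hwA
  obtain ⟨x, hx, y, hy, hy0, e, hd⟩ := hQ α α.2
  obtain ⟨x', hx', y', hy', hy0', e', hd'⟩ := hQ σ σ.2
  have hσ0 : (σ : L) ≠ 0 := by
    intro h
    apply hσ
    have : σ = 0 := Subtype.ext h
    rw [this]
    exact p.zero_mem
  have hσinv : (σ : L)⁻¹ ∈ A := by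
    rw [h1]
    exact ⟨1, σ, hσ, by rw [inv_mul_cancel₀ hσ0]; rfl⟩
  rw [h2] at hσinv
  obtain ⟨x'', hx'', y'', hy'', hy0'', e''⟩ := hσinv
  have hx0' : co T 0 x' ≠ 0 := by
    have h3 : x' * x'' = y' * y'' := by
      rw [← e', ← e'']
      field_simp
    have h4 := congrArg (co T 0) h3
    rw [co_zero_mul T hR hx' hx'', co_zero_mul T hR hy' hy''] at h4
    intro h5
    rw [h5, zero_mul] at h4
    exact mul_ne_zero hy0' hy0'' h4.symm
  -- `χ w₀ * (y x') = x y'`
  have h3 : T.χ w₀ * (y * x') = x * y' := by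
    rw [← e', ← e, ← he]
    ring
  have h4 := congrArg D h3
  rw [hDmul _ hwmem _ ((cone T R).mul_mem hy hx'), co_ne T (hW w₀ hw₀).2.1,
    co_zero_mul T hR hy hx', hDmul _ hx _ hy'] at h4
  have h5 := congrArg (co T 0) h3
  rw [co_zero_mul T hR hwmem ((cone T R).mul_mem hy hx'), co_ne T (hW w₀ hw₀).2.1,
    co_zero_mul T hR hx hy'] at h5
  have h6 : D (T.χ w₀) = lam w₀ := by
    simp only [D]
    rw [Finset.sum_eq_single w₀]
    · rw [co_self, mul_one]
    · intro w _ hw
      rw [co_ne T (Ne.symm hw), mul_zero]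
    · intro h
      exact absurd hw₀ h
  have h7 : co T 0 x = 0 := by
    rw [zero_mul] at h5
    rcases mul_eq_zero.1 h5.symm with h | h
    · exact h
    · exact absurd h hy0'
  rw [h7, zero_mul, zero_add, zero_mul, zero_add, h6] at h4
  rw [h7, zero_mul] at hd
  rcases mul_eq_zero.1 hd with h8 | h8
  · rw [h8, zero_mul] at h4
    rcases mul_eq_zero.1 h4 with h9 | h9
    · exact hne h9
    · exact mul_ne_zero hy0 hx0' h9
  · exact hy0 h8

end Pool.Agent.Y179.SD
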