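import Pool.Agent.Helper774.KSing.Val

/-!
Expansion of the elements of the function field of a torus along a one-parameter subgroup.
-/

noncomputable section

namespace Pool.Agent.Y179.SD

open Pool.Agent.Helper774.KSing
open Pool.Agent.Helper774.KStab (TorusField LP phiA phiA_apply phiA_inj)

variable {n : ℕ} {K : Type} [Field K] [Algebra ℂ K]

attribute [-instance] HahnSeries.powerSeriesAlgebra in
theorem exists_hahn (T : TorusField n K) (φ : (Fin n → ℤ) →+ ℤ) :
    ∃ Φ : K →+* HahnSeries ℤ K, (∀ u, Φ (T.χ u) = HahnSeries.single (φ u) (T.χ u)) ∧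
      ∀ c : ℂ, Φ (algebraMap ℂ K c) = HahnSeries.single 0 (algebraMap ℂ K c) := by
  classical
  have hdom : IsDomain (LP n) := (phiA_inj T).isDomain (phiA T).toRingHom
  let _ : Algebra (LP n) K := (phiA T).toRingHom.toAlgebra
  have hmap : ∀ x : LP n, algebraMap (LP n) K x = phiA T x := fun x => rfl
  have hfr : IsFractionRing (LP n) K := by
    refine (isLocalization_iff _ _).2 ⟨fun y => ?_, fun z => ?_, fun {x y} h => ?_⟩
    · rw [hmap]
      refine IsUnit.mk0 _ fun h => ?_
      have : (y : LP n) = 0 := phiA_inj T (by rw [h, map_zero])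
      exact nonZeroDivisors.ne_zero y.2 this
    · obtain ⟨a, ha, b, hb, hb0, hab⟩ := T.frac z
      rw [Finsupp.mem_span_range_iff_exists_finsupp] at ha hb
      obtain ⟨ca, rfl⟩ := ha
      obtain ⟨cb, rfl⟩ := hb
      have hb1 : phiA T (AddMonoidAlgebra.ofCoeff cb) = cb.sum fun i a => a • T.χ i := by
        rw [phiA_apply, Finsupp.linearCombination_apply]
      have ha1 : phiA T (AddMonoidAlgebra.ofCoeff ca) = ca.sum fun i a => a • T.χ i := by
        rw [phiA_apply, Finsupp.linearCombination_apply]
      refine ⟨⟨AddMonoidAlgebra.ofCoeff ca, ⟨AddMonoidAlgebra.ofCoeff cb, ?_⟩⟩, ?_⟩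
      · refine mem_nonZeroDivisors_of_ne_zero fun h => hb0 ?_
        rw [← hb1, h, map_zero]
      · rw [hmap, hmap]
        show z * phiA T (AddMonoidAlgebra.ofCoeff cb) = phiA T (AddMonoidAlgebra.ofCoeff ca)
        rw [ha1, hb1]
        exact hab
    · rw [hmap, hmap] at h
      exact ⟨1, by rw [phiA_inj T h]⟩
  have hinj : Function.Injective (psiAP T φ).toRingHom := psiAP_inj T φ
  have key : ∀ x : LP n, (IsFractionRing.lift hinj : K →+* HahnSeries ℤ K) (phiA T x) =
      psiAP T φ x := fun x => IsFractionRing.lift_algebraMap hinj x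
  refine ⟨IsFractionRing.lift hinj, fun u => ?_, fun c => ?_⟩
  · have h1 : T.χ u = phiA T (AddMonoidAlgebra.single u 1) := by
      rw [phiA_apply, AddMonoidAlgebra.coeff_single, Finsupp.linearCombination_single, one_smul]
    conv_lhs => rw [h1]
    rw [key, psiAP, AddMonoidAlgebra.lift_single, one_smul]
    rfl
  · have h1 : algebraMap ℂ K c = phiA T (algebraMap ℂ _ c) := ((phiA T).commutes c).symm
    conv_lhs => rw [h1]
    rw [key, AlgHom.commutes]
    rfl

end Pool.Agent.Y179.SD
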