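import Pool.Agent.Y179.SD.Emb

/-!
The number of irreducible elements at the torus fixed points of `ℙ(1, a², b²)` is unbounded.
-/

noncomputable section

namespace Pool.Agent.Y179.SD

open Pool.Agent.Helper774.KSing
open Pool.Agent.Helper774.KStab (TorusField)

variable {R : Matrix (Fin 2) (Fin 2) ℤ}

/-- first coordinate -/
def cx (R : Matrix (Fin 2) (Fin 2) ℤ) (u : Fin 2 → ℤ) : ℤ := Matrix.vecMul u R 0

/-- second coordinate -/
def cy (R : Matrix (Fin 2) (Fin 2) ℤ) (u : Fin 2 → ℤ) : ℤ := Matrix.vecMul u R 1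

theorem cx_add (u v : Fin 2 → ℤ) : cx R (u + v) = cx R u + cx R v := by
  rw [cx, cx, cx, Matrix.add_vecMul, Pi.add_apply]

theorem cy_add (u v : Fin 2 → ℤ) : cy R (u + v) = cy R u + cy R v := by
  rw [cy, cy, cy, Matrix.add_vecMul, Pi.add_apply]

theorem mem_M {u : Fin 2 → ℤ} : u ∈ Mset R 0 ↔ 0 ≤ cx R u ∧ 0 ≤ cy R u := by
  constructor
  · intro h
    exact ⟨h 0, h 1⟩
  · rintro ⟨h0, h1⟩ j
    fin_cases j
    · exact h0
    · exact h1

theorem eq_zero_of (hR : R.det ≠ 0) {u : Fin 2 → ℤ} (h0 : cx R u = 0) (h1 : cy R u = 0) : u = 0 := by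
  apply Matrix.eq_zero_of_vecMul_eq_zero hR
  funext j
  fin_cases j
  · exact h0
  · exact h1

/-- there is an irreducible element below every nonzero element of the monoid -/
theorem exists_irr (hR : R.det ≠ 0) (e : Fin 2 → ℤ) (he : e ∈ Mset R 0) (he0 : e ≠ 0) :
    ∃ w, Irr R w ∧ cx R w ≤ cx R e ∧ cy R w ≤ cy R e := by
  obtain ⟨k, hk⟩ : ∃ k : ℕ, (cx R e + cy R e).toNat = k := ⟨_, rfl⟩
  induction k using Nat.strong_induction_on generalizing e with
  | _ k ih =>
    by_cases hirr : Irr R e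
    · exact ⟨e, hirr, le_rfl, le_rfl⟩
    · have h1 : ∃ u ∈ Mset R 0, ∃ v ∈ Mset R 0, u + v = e ∧ u ≠ 0 ∧ v ≠ 0 := by
        by_contra hne
        push Not at hne
        apply hirr
        refine ⟨he, he0, fun u hu v hv huv => ?_⟩
        by_contra hor
        push Not at hor
        exact hor.2 (hne u hu v hv huv hor.1)
      obtain ⟨u, hu, v, hv, huv, hu0, hv0⟩ := h1
      have a1 := mem_M.1 hu
      have a2 := mem_M.1 hv
      have a3 : 0 < cx R v + cy R v := by
        rcases eq_or_lt_of_le a2.1 with h | h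
        · rcases eq_or_lt_of_le a2.2 with h' | h'
          · exact absurd (eq_zero_of hR h.symm h'.symm) hv0
          · linarith
        · linarith
      have b1 : cx R e = cx R u + cx R v := by rw [← huv, cx_add]
      have b2 : cy R e = cy R u + cy R v := by rw [← huv, cy_add]
      obtain ⟨w, hw1, hw2, hw3⟩ := ih (cx R u + cy R u).toNat (by omega) u hu hu0 rfl
      exact ⟨w, hw1, by linarith, by linarith⟩

/-! ## the sequences -/

/-- The sequence `1, 1, 6, 41, …`. -/
def J : ℕ → ℤ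
  | 0 => 1
  | 1 => 1
  | (n + 2) => 7 * J (n + 1) - J n

theorem J_rec (n : ℕ) : J (n + 2) = 7 * J (n + 1) - J n := rfl

theorem J_pos_aux (n : ℕ) : 1 ≤ J n ∧ J n ≤ J (n + 1) := by
  induction n with
  | zero => exact ⟨by decide, by decide⟩
  | succ n ih =>
    rw [J_rec]
    constructor <;> omega

theorem J_pos (n : ℕ) : 1 ≤ J n := (J_pos_aux n).1

theorem J_six (n : ℕ) : 6 * J (n + 1) ≤ J (n + 2) := by
  rw [J_rec]
  have := (J_pos_aux n).2
  omega

theorem J_mul (n : ℕ) : J n * J (n + 2) = J (n + 1) ^ 2 + 5 := by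
  induction n with
  | zero => decide
  | succ n ih =>
    rw [J_rec (n + 1)]
    rw [J_rec] at ih ⊢
    linear_combination ih

theorem E_sq (n : ℕ) : E (n + 2) ^ 2 = 7 * E (n + 1) ^ 2 - E n ^ 2 - 2 := by
  have := E_markov n
  rw [E_rec]
  linear_combination 2 * this

/-- the first coordinate of the elements -/
def I (s n : ℕ) : ℤ := J n * E (s + 1) ^ 2 - J (n + 1) * E s ^ 2

theorem I_rec (s n : ℕ) : I (s + 1) (n + 1) = I s n - 2 * J (n + 1) := by
  have h1 := E_sq s
  have h2 := J_rec n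
  unfold I
  show J (n + 1) * E (s + 2) ^ 2 - J (n + 2) * E (s + 1) ^ 2 = _
  rw [h1, h2]
  ring

theorem I_dec (n : ℕ) : ∀ s, n ≤ s → I s (n + 1) < I s n := by
  induction n with
  | zero =>
    intro s _
    unfold I
    have h0 : J 0 = 1 := rfl
    have h1 : J 1 = 1 := rfl
    have h2 : J 2 = 6 := by decide
    have := E_pos s
    show J 1 * E (s + 1) ^ 2 - J 2 * E s ^ 2 < J 0 * E (s + 1) ^ 2 - J 1 * E s ^ 2
    rw [h0, h1, h2]
    nlinarith
  | succ n ih =>
    intro s hs
    obtain ⟨s, rfl⟩ : ∃ k, s = k + 1 := ⟨s - 1, by omega⟩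
    have h1 := ih s (by omega)
    rw [I_rec, I_rec]
    have := (J_pos_aux (n + 1)).2
    linarith

theorem E_step (n : ℕ) : E (n + 2) ≤ E (n + 3) - 1 ∧ (n : ℤ) ≤ E (n + 2) := by
  induction n with
  | zero => exact ⟨by decide, by decide⟩
  | succ n ih =>
    have h1 : E (n + 4) = 3 * E (n + 3) - E (n + 2) := E_rec (n + 2)
    have h2 := E_pos (n + 2)
    show E (n + 3) ≤ E (n + 4) - 1 ∧ ((n + 1 : ℕ) : ℤ) ≤ E (n + 3)
    push_cast
    constructor <;> omega

theorem I_large (n : ℕ) : ∀ C : ℤ, ∃ s₀ : ℕ, ∀ s ≥ s₀, C < I s n := by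
  induction n with
  | zero =>
    intro C
    refine ⟨C.toNat + 2, fun s hs => ?_⟩
    obtain ⟨k, rfl⟩ : ∃ k, s = k + 2 := ⟨s - 2, by omega⟩
    have h1 := E_step k
    have h2 : I (k + 2) 0 = E (k + 3) ^ 2 - E (k + 2) ^ 2 := by
      unfold I
      have h0 : J 0 = 1 := rfl
      have h1 : J (0 + 1) = 1 := rfl
      rw [h0, h1]
      show 1 * E (k + 3) ^ 2 - 1 * E (k + 2) ^ 2 = _
      ring
    rw [h2]
    have h3 : C ≤ k := by
      have := Int.self_le_toNat C
      omega
    have h4 := E_pos (k + 2)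
    nlinarith [h1.1, h1.2]
  | succ n ih =>
    intro C
    obtain ⟨s₀, hs₀⟩ := ih (C + 2 * J (n + 1))
    refine ⟨s₀ + 1, fun s hs => ?_⟩
    obtain ⟨k, rfl⟩ : ∃ k, s = k + 1 := ⟨s - 1, by omega⟩
    have := hs₀ k (by omega)
    rw [I_rec]
    linarith

/-- the elements -/
def el (n : ℕ) : Fin 2 → ℤ := ![J (n + 1), -J n]

theorem cx_two (A B : ℤ) (u : Fin 2 → ℤ) : cx (wpsR A B 2) u = -(A * u 0) - B * u 1 := by
  simp [cx, wpsR, Matrix.vecMul, dotProduct, Fin.sum_univ_two]
  ring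

theorem cy_two (A B : ℤ) (u : Fin 2 → ℤ) : cy (wpsR A B 2) u = u 0 := by
  simp [cy, wpsR, Matrix.vecMul, dotProduct, Fin.sum_univ_two]

/-- the emptiness of the boxes -/
theorem box_empty {x y p q i i' j j' : ℤ} (hi' : 1 ≤ i') (hi : 6 * i' < i) (hj : 1 ≤ j)
    (hj' : 6 * j ≤ j') (hx : 5 * x = p * i + q * i') (hy : 5 * y = p * j + q * j') (hx0 : 0 ≤ x)
    (hy0 : 0 ≤ y) (hxi : x ≤ i') (hyj : y ≤ j) : p = 0 ∧ q = 0 := by
  rcases lt_trichotomy p 0 with hp | hp | hp
  · exfalso
    -- `q ≥ 6 |p|`, `6 q ≤ 5 + |p|`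
    have h1 : 6 * (-p) ≤ q := by
      by_contra hlt
      push Not at hlt
      have a : q * i' ≤ (6 * (-p) - 1) * i' := mul_le_mul_of_nonneg_right (by omega) (by omega)
      nlinarith
    have h2 : q * j' ≤ (5 + -p) * j := by nlinarith
    have h3 : q * (6 * j) ≤ q * j' := mul_le_mul_of_nonneg_left hj' (by omega)
    have h4 : (6 * q) * j ≤ (5 + -p) * j := by linarith
    have h5 : 6 * q ≤ 5 + -p := le_of_mul_le_mul_right h4 (by omega)
    omega
  · subst hp
    refine ⟨rfl, ?_⟩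
    rw [zero_mul, zero_add] at hx hy
    have h1 : 0 ≤ q := by
      by_contra hlt
      push Not at hlt
      nlinarith
    by_contra hne
    have h2 : 1 ≤ q := by omega
    nlinarith
  · exfalso
    have h1 : q ≤ 0 := by
      by_contra hlt
      push Not at hlt
      nlinarith
    have h2 : 6 * (-q) ≤ p := by
      have a : (-q) * j' ≤ p * j := by nlinarith
      have b : (-q) * (6 * j) ≤ (-q) * j' := mul_le_mul_of_nonneg_left hj' (by omega)
      have c : (6 * (-q)) * j ≤ p * j := by linarith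
      exact le_of_mul_le_mul_right c (by omega)
    have h3 : p * i ≤ (5 + -q) * i' := by nlinarith
    have h4 : p * (6 * i') < p * i := mul_lt_mul_of_pos_left hi hp
    have h5 : (6 * p) * i' < (5 + -q) * i' := by linarith
    have h6 : 6 * p < 5 + -q := lt_of_mul_lt_mul_right h5 (by omega)
    omega

/-- For every `k` and all large `t` there are at least `k` irreducible elements. -/
theorem many_irr (k : ℕ) : ∃ t : ℕ, 1 ≤ t ∧ ∃ W : Finset (Fin 2 → ℤ), W.card = k ∧
    ∀ w ∈ W, Irr (wpsR (E (t + 1) ^ 2) (E (t + 2) ^ 2) 2) w := by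
  classical
  obtain ⟨s₀, hs₀⟩ := I_large (k + 1) 0
  set s := s₀ + k + 2 with hs
  refine ⟨s, by omega, ?_⟩
  -- work with `a = E (s + 1)`, `b = E (s + 2)`
  set R := wpsR (E (s + 1) ^ 2) (E (s + 2) ^ 2) 2 with hRdef
  have hR : R.det ≠ 0 := wps_det _ _ (sq_pos' _) (sq_pos' _) 2
  have hcx : ∀ n, cx R (el n) = I (s + 1) n := by
    intro n
    rw [hRdef, cx_two]
    simp only [el, Matrix.cons_val_zero, Matrix.cons_val_one]
    unfold I
    ring
  have hcy : ∀ n, cy R (el n) = J (n + 1) := by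
    intro n
    rw [hRdef, cy_two]
    simp [el]
  have hdec : ∀ n ≤ k + 1, ∀ m ≤ n, I (s + 1) n ≤ I (s + 1) m := by
    intro n hn m hm
    induction n, hm using Nat.le_induction with
    | base => exact le_rfl
    | succ n hmn ih =>
      have := I_dec n (s + 1) (by omega)
      exact this.le.trans (ih (by omega))
  have hpos : ∀ n ≤ k + 1, 0 < I (s + 1) n := by
    intro n hn
    exact (hs₀ (s + 1) (by omega)).trans_le (hdec (k + 1) le_rfl n hn)
  have hsix : ∀ n ≤ k, 6 * I (s + 1) (n + 1) < I (s + 1) n := by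
    intro n hn
    have h1 := I_dec (n + 1) (s + 1) (by omega)
    have h2 : I (s + 1) (n + 2) = 7 * I (s + 1) (n + 1) - I (s + 1) n := by
      unfold I
      show J (n + 2) * E (s + 2) ^ 2 - J (n + 3) * E (s + 1) ^ 2 = _
      rw [show J (n + 3) = 7 * J (n + 2) - J (n + 1) from rfl, J_rec n]
      ring_nf
    have h1' : I (s + 1) (n + 2) < I (s + 1) (n + 1) := h1
    rw [h2] at h1'
    linarith
  have hempty : ∀ n ≤ k, ∀ w ∈ Mset R 0, cx R w ≤ I (s + 1) (n + 1) → cy R w ≤ J (n + 1) → w = 0 := by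
    intro n hn w hw h1 h2
    rw [mem_M] at hw
    have h5 : J n * J (n + 2) = J (n + 1) ^ 2 + 5 := J_mul n
    have key := box_empty (x := cx R w) (y := cy R w) (p := -(w 0 * J (n + 1)) - w 1 * J (n + 2))
      (q := w 1 * J (n + 1) + w 0 * J n) (i := I (s + 1) n) (i' := I (s + 1) (n + 1))
      (j := J (n + 1)) (j' := J (n + 2)) (hpos (n + 1) (by omega)) (hsix n hn) (J_pos (n + 1))
      (J_six n) (by
        rw [hRdef, cx_two]
        unfold I
        show _ = (-(w 0 * J (n + 1)) - w 1 * J (n + 2)) * (J n * E (s + 2) ^ 2 - J (n + 1) * E (s + 1) ^ 2)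
          + (w 1 * J (n + 1) + w 0 * J n) * (J (n + 1) * E (s + 2) ^ 2 - J (n + 2) * E (s + 1) ^ 2)
        linear_combination (w 0 * E (s + 1) ^ 2 + w 1 * E (s + 2) ^ 2) * h5) (by
        rw [hRdef, cy_two]
        linear_combination -(w 0) * h5) hw.1 hw.2 h1 h2
    obtain ⟨hp, hq⟩ := key
    have hw0 : w 0 = 0 := by
      have : 5 * w 0 = 0 := by
        linear_combination J (n + 1) * hp + J (n + 2) * hq - w 0 * h5
      omega
    have hw1 : w 1 = 0 := by
      rw [hw0] at hq
      have : w 1 * J (n + 1) = 0 := by linarith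
      rcases mul_eq_zero.1 this with h | h
      · exact h
      · have := J_pos (n + 1)
        omega
    funext i
    fin_cases i
    · exact hw0
    · exact hw1
  have hex : ∀ n : Fin k, ∃ w, Irr R w ∧ cx R w ≤ I (s + 1) n ∧ cy R w ≤ J ((n : ℕ) + 1) := by
    intro n
    have h1 : el n ∈ Mset R 0 := by
      rw [mem_M, hcx, hcy]
      exact ⟨(hpos n (by omega)).le, by have := J_pos ((n : ℕ) + 1); omega⟩
    have h2 : el n ≠ 0 := by
      intro h
      have := hcy n
      rw [h] at this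
      have h3 := J_pos ((n : ℕ) + 1)
      have h4 : cy R 0 = 0 := by simp [cy]
      omega
    obtain ⟨w, hw1, hw2, hw3⟩ := exists_irr hR (el n) h1 h2
    rw [hcx] at hw2
    rw [hcy] at hw3
    exact ⟨w, hw1, hw2, hw3⟩
  choose w hw1 hw2 hw3 using hex
  have hinj : Function.Injective w := by
    have key : ∀ n m : Fin k, n < m → w n ≠ w m := by
      intro n m hnm heq
      have h1 := hw2 m
      rw [← heq] at h1
      have h2 : I (s + 1) m ≤ I (s + 1) ((n : ℕ) + 1) := hdec m (by omega) (n + 1) (by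
        have : (n : ℕ) < m := hnm
        omega)
      exact (hw1 n).2.1 (hempty n (by omega) (w n) (hw1 n).1 (h1.trans h2) (hw3 n))
    intro n m h
    rcases lt_trichotomy n m with h1 | h1 | h1
    · exact absurd h (key n m h1)
    · exact h1
    · exact absurd h.symm (key m n h1)
  refine ⟨Finset.univ.image w, ?_, ?_⟩
  · rw [Finset.card_image_of_injective _ hinj, Finset.card_univ, Fintype.card_fin]
  · intro v hv
    rw [Finset.mem_image] at hv
    obtain ⟨n, _, rfl⟩ := hv
    exact hw1 n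

end Pool.Agent.Y179.SD
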