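import Pool.Agent.Y179.SD.Nu

/-!
The lowest terms of the elements of the coordinate ring of the projective plane.
-/

noncomputable section

namespace Pool.Agent.Y179.SD

open Pool.Agent.Helper774.KSing
open Pool.Agent.Helper774.KStab (TorusField)

variable {K : Type} [Field K] [Algebra ℂ K]

/-- A cluster sequence whose terms number `s` and `s + 1` are the first two coordinates of the torus,
together with the leading terms for the valuation `ord_c`. -/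
structure Seed (T : TorusField 3 K) (s : ℕ) extends CSeq K where
  hc' : c = T.χ ![0, 0, 1]
  hx : z s = T.χ ![1, 0, 0]
  hy : z (s + 1) = T.χ ![0, 1, 0]
  /-- expansion for `ord_c` -/
  Φ : K →+* HahnSeries ℤ K
  hΦ : ∀ u, Φ (T.χ u) = HahnSeries.single (u 2) (T.χ u)
  hC : ∀ c : ℂ, Φ (algebraMap ℂ K c) = HahnSeries.single 0 (algebraMap ℂ K c)
  /-- expansion for the valuation with weights `1, 1, 0` -/
  Ψ : K →+* HahnSeries ℤ K
  hΨ : ∀ u, Ψ (T.χ u) = HahnSeries.single (u 0 + u 1) (T.χ u)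
  hCΨ : ∀ c : ℂ, Ψ (algebraMap ℂ K c) = HahnSeries.single 0 (algebraMap ℂ K c)
  /-- exponents -/
  V : ℕ → Fin 3 → ℤ
  lead : ∀ n, Lead (Φ (z n)) 0 (T.χ (V n))
  hV : ∀ n, V n + V (n + 2) = (3 : ℤ) • V (n + 1)
  V0 : V s = ![1, 0, 0]
  V1 : V (s + 1) = ![0, 1, 0]

/-- the linear form with coefficients `a, b, c` -/
def lf (a b c : ℤ) : (Fin 3 → ℤ) →+ ℤ where
  toFun u := a * u 0 + b * u 1 + c * u 2
  map_zero' := by simp
  map_add' u v := by simp only [Pi.add_apply]; ring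

theorem exists_seed (T : TorusField 3 K) (s : ℕ) : Nonempty (Seed T s) := by
  obtain ⟨Φ, hΦ, hC⟩ := exists_hahn T (lf 0 0 1)
  obtain ⟨Ψ, hΨ, hCΨ⟩ := exists_hahn T (lf 1 1 0)
  have hΦ' : ∀ u, Φ (T.χ u) = HahnSeries.single (u 2) (T.χ u) := by
    intro u
    rw [hΦ]
    congr 1
    simp [lf]
  have hΨ' : ∀ u, Ψ (T.χ u) = HahnSeries.single (u 0 + u 1) (T.χ u) := by
    intro u
    rw [hΨ]
    congr 1
    simp [lf]
  have l0 : Lead (Φ (T.χ ![1, 0, 0])) 0 (T.χ ![1, 0, 0]) := by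
    rw [hΦ']
    exact Lead.single _ _
  have l1 : Lead (Φ (T.χ ![0, 1, 0])) 0 (T.χ ![0, 1, 0]) := by
    rw [hΦ']
    exact Lead.single _ _
  obtain ⟨z, V, a1, a2, a3, a4, a5, a6, a7⟩ := exists_seq T Φ hΦ' s _ _ _ _ l0 l1
  exact ⟨{
    z := z
    c := T.χ ![0, 0, 1]
    hz := fun n h => (a1 n).ne_zero (chi_ne T _) (by rw [h, map_zero])
    hc := chi_ne T _
    rel := a2
    hc' := rfl
    hx := a4
    hy := a5
    Φ := Φ
    hΦ := hΦ'
    hC := hC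
    Ψ := Ψ
    hΨ := hΨ'
    hCΨ := hCΨ
    V := V
    lead := a1
    hV := a3
    V0 := a6
    V1 := a7 }⟩

namespace Seed

variable {T : TorusField 3 K} {s : ℕ} (S : Seed T s)

theorem lead_c : Lead (S.Φ S.c) 1 (T.χ ![0, 0, 1]) := by
  rw [S.hc', S.hΦ]
  exact Lead.single _ _

theorem lead_Z : ∃ m, Lead (S.Φ S.Z) 0 m := by
  have h1 := (S.lead 1).pow 3
  have h2 := (S.lead 2).pow 3
  have h3 := (h1.add h2).add_lt S.lead_c (by norm_num)
  rw [← map_pow, ← map_pow, ← map_add, ← map_add, ← S.cubic] at h3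
  have h4 := (S.lead 1).mul (S.lead 2)
  rw [← map_mul] at h4
  have h5 := h3.div S.Φ h4 (mul_ne_zero (chi_ne T _) (chi_ne T _))
  have e : S.z 1 * S.z 2 * S.Z / (S.z 1 * S.z 2) = S.Z := by
    rw [mul_div_cancel_left₀ _ (mul_ne_zero (S.hz 1) (S.hz 2))]
  rw [e] at h5
  have e2 : ((3 : ℕ) : ℤ) * 0 - (0 + 0) = 0 := by norm_num
  rw [e2] at h5
  exact ⟨_, h5⟩

theorem lead_ι (g : MvPolynomial (Fin 3) ℂ) : ∃ m, Lead (S.Φ (S.ι g)) 0 m := by
  induction g using MvPolynomial.induction_on with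
  | C a =>
    rw [← MvPolynomial.algebraMap_eq, AlgHom.commutes, S.hC]
    exact ⟨_, Lead.single _ _⟩
  | add p q hp hq =>
    obtain ⟨m, hm⟩ := hp
    obtain ⟨m', hm'⟩ := hq
    rw [map_add, map_add]
    exact ⟨_, hm.add hm'⟩
  | mul_X p i hp =>
    obtain ⟨m, hm⟩ := hp
    have hi : ∃ m', Lead (S.Φ (S.ι (MvPolynomial.X i))) 0 m' := by
      fin_cases i
      · exact ⟨T.χ (S.V 1), by simpa [CSeq.ι] using S.lead 1⟩
      · exact ⟨T.χ (S.V 2), by simpa [CSeq.ι] using S.lead 2⟩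
      · obtain ⟨m, hm⟩ := S.lead_Z
        exact ⟨m, by simpa [CSeq.ι] using hm⟩
    obtain ⟨m', hm'⟩ := hi
    rw [map_mul, map_mul]
    exact ⟨_, by simpa using hm.mul hm'⟩

theorem ι_coeff_neg (g : MvPolynomial (Fin 3) ℂ) (i : ℤ) (hi : i < 0) :
    (S.Φ (S.ι g)).coeff i = 0 := by
  obtain ⟨m, hm⟩ := S.lead_ι g
  exact hm.1 i hi

/-- Expansion of the elements of the coordinate ring in a seed. -/
theorem expand_seed (N : ℕ) (hN : 1 ≤ N) {Vp Vq Wp Wq Wc : Fin 3 → ℤ} {wp wq wc : ℤ}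
    (hVp : Lead (S.Φ (S.z N)) 0 (T.χ Vp)) (hVq : Lead (S.Φ (S.z (N + 1))) 0 (T.χ Vq))
    (hinj : Function.Injective fun u : Fin 3 → ℤ => u 0 • Vp + u 1 • Vq + u 2 • ![0, 0, 1])
    (hWp : Lead (S.Ψ (S.z N)) wp (T.χ Wp)) (hWq : Lead (S.Ψ (S.z (N + 1))) wq (T.χ Wq))
    (hWc : Lead (S.Ψ S.c) wc (T.χ Wc))
    (hinj' : Function.Injective fun u : Fin 3 → ℤ => u 0 • Wp + u 1 • Wq + u 2 • Wc)
    (m : ℕ) (g : MvPolynomial (Fin 3) ℂ) (hg : g.IsHomogeneous m) (l : ℤ)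
    (hl : ∀ i < l, (S.Ψ (S.ι g)).coeff i = 0) :
    (S.Ψ (S.ι g)).coeff l ∈ Submodule.span ℂ
      (T.χ '' {v | ∃ u : Fin 3 → ℤ, E N * u 0 + E (N + 1) * u 1 + 3 * u 2 = m ∧ 0 ≤ u 2 ∧
        u 0 * wp + u 1 * wq + u 2 * wc = l ∧ v = u 0 • Wp + u 1 • Wq + u 2 • Wc}) := by
  have h1 := S.ι_mem_Gr N hN m g hg
  unfold Gr at h1
  rw [Finsupp.mem_span_image_iff_linearCombination] at h1
  obtain ⟨a, ha, ha'⟩ := h1
  have h2 := expand T S.Φ S.hC (mon (S.z N) (S.z (N + 1)) S.c) (fun u => u 0 * 0 + u 1 * 0 + u 2 * 1)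
    (fun u => u 0 • Vp + u 1 • Vq + u 2 • ![0, 0, 1]) hinj
    (fun u => lead_mon T S.Φ hVp hVq S.lead_c u) a 0 (fun i hi => by
      rw [ha']
      exact S.ι_coeff_neg g i hi)
  have h3 := expand T S.Ψ S.hCΨ (mon (S.z N) (S.z (N + 1)) S.c)
    (fun u => u 0 * wp + u 1 * wq + u 2 * wc)
    (fun u => u 0 • Wp + u 1 • Wq + u 2 • Wc) hinj'
    (fun u => lead_mon T S.Ψ hWp hWq hWc u) a l (fun i hi => by
      rw [ha']
      exact hl i hi)
  rw [← ha', h3.2]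
  refine Submodule.sum_mem _ fun u hu => ?_
  by_cases h : u 0 * wp + u 1 * wq + u 2 * wc = l
  · rw [if_pos h]
    refine Submodule.smul_mem _ _ (Submodule.subset_span ⟨_, ⟨u, ?_, ?_, h, rfl⟩, rfl⟩)
    · exact (Finsupp.mem_supported ℂ a).1 ha hu
    · have := h2.1 u hu
      simpa using this
  · rw [if_neg h]
    exact Submodule.zero_mem _

/-- The lattice points of the degree `m` part of the toric ring. -/
def Sset (a b m : ℤ) : Set (Fin 3 → ℤ) :=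
  {u | a * u 0 + b * u 1 + 3 * u 2 = m ∧ 0 ≤ u 2 ∧ 0 ≤ a * u 1 + u 2 ∧ 0 ≤ b * u 0 + u 2}

theorem span_inter {n : ℕ} (T : TorusField n K) {A B : Set (Fin n → ℤ)} {f : K}
    (hA : f ∈ Submodule.span ℂ (T.χ '' A)) (hB : f ∈ Submodule.span ℂ (T.χ '' B)) :
    f ∈ Submodule.span ℂ (T.χ '' (A ∩ B)) := by
  rw [Finsupp.mem_span_image_iff_linearCombination] at hA hB ⊢
  obtain ⟨a, ha, ha'⟩ := hA
  obtain ⟨b, hb, hb'⟩ := hB
  have : a = b := T.li (ha'.trans hb'.symm)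
  subst this
  refine ⟨a, ?_, ha'⟩
  rw [Finsupp.mem_supported] at ha hb ⊢
  exact Set.subset_inter ha hb

end Seed

end Pool.Agent.Y179.SD
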