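import Pool.Agent.Y179.SD.Coef

/-!
The coordinates of the projective plane are algebraically independent.
-/

noncomputable section

namespace Pool.Agent.Y179.SD

open Pool.Agent.Helper774.KSing
open Pool.Agent.Helper774.KStab (TorusField)

variable {K : Type} [Field K] [Algebra ℂ K]

namespace Seed

variable {T : TorusField 3 K} {s : ℕ} (S : Seed T s)

theorem V_two (n : ℕ) (hn : n ≤ s + 1) : S.V n 2 = 0 := by
  have key : ∀ k n, n + k = s + 1 → S.V n 2 = 0 ∧ S.V (n + 1) 2 = 0 ∨ k = 0 := by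
    intro k
    induction k with
    | zero => intro n _; exact Or.inr rfl
    | succ k ih =>
      intro n hn
      left
      rcases ih (n + 1) (by omega) with h | h
      · have h2 := congrFun (S.hV n) 2
        simp only [Pi.add_apply, Pi.smul_apply, smul_eq_mul] at h2
        have h3 : S.V (n + 2) 2 = 0 := h.2
        rw [h3, h.1] at h2
        exact ⟨by linarith, h.1⟩
      · obtain rfl : n = s := by omega
        rw [S.V0, S.V1]
        exact ⟨by simp, by simp⟩
  rcases key (s + 1 - n) n (by omega) with h | h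
  · exact h.1
  · obtain rfl : n = s + 1 := by omega
    rw [S.V1]
    simp

/-- the Laurent monomials in `z_1, z_2, c` are independent -/
theorem li_mon (hs : 1 ≤ s) : LinearIndependent ℂ (mon (S.z 1) (S.z 2) S.c) := by
  have hinj : Function.Injective fun u : Fin 3 → ℤ =>
      u 0 • S.V 1 + u 1 • S.V 2 + u 2 • (![0, 0, 1] : Fin 3 → ℤ) := by
    intro u v huv
    have huv' : u 0 • S.V 1 + u 1 • S.V 2 + u 2 • (![0, 0, 1] : Fin 3 → ℤ) =
      v 0 • S.V 1 + v 1 • S.V 2 + v 2 • (![0, 0, 1] : Fin 3 → ℤ) := huv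
    have h2 := congrFun huv' 2
    simp [S.V_two 1 (by omega), S.V_two 2 (by omega)] at h2
    rw [h2] at huv'
    have h3 : (u 0 - v 0) • S.V 1 + (u 1 - v 1) • S.V (1 + 1) = 0 := by
      have : (u 0 - v 0) • S.V 1 + (u 1 - v 1) • S.V (1 + 1) =
        (u 0 • S.V 1 + u 1 • S.V 2 + v 2 • (![0, 0, 1] : Fin 3 → ℤ)) -
        (v 0 • S.V 1 + v 1 • S.V 2 + v 2 • (![0, 0, 1] : Fin 3 → ℤ)) := by
        show _ • _ + (u 1 - v 1) • S.V 2 = _
        module
      rw [this, huv', sub_self]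
    obtain ⟨a, b⟩ := V_inj S.V S.hV s S.V0 S.V1 1 hs _ _ h3
    funext i
    fin_cases i
    · exact sub_eq_zero.1 a
    · exact sub_eq_zero.1 b
    · exact h2
  rw [linearIndependent_iff]
  intro a ha
  by_contra hne
  obtain ⟨u, hu⟩ := Finsupp.support_nonempty_iff.2 hne
  have h := expand T S.Φ S.hC (mon (S.z 1) (S.z 2) S.c) (fun u => u 0 * 0 + u 1 * 0 + u 2 * 1)
    (fun u => u 0 • S.V 1 + u 1 • S.V 2 + u 2 • ![0, 0, 1]) hinj
    (fun u => lead_mon T S.Φ (S.lead 1) (S.lead 2) S.lead_c u) a (u 2 + 1)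
    (fun i hi => by
      rw [ha, map_zero]
      rfl)
  have h1 := h.1 u hu
  simp at h1

/-- the polynomials in `z_1, z_2, c` -/
def κ : MvPolynomial (Fin 3) ℂ →ₐ[ℂ] K := MvPolynomial.aeval ![S.z 1, S.z 2, S.c]

theorem κ_inj (hs : 1 ≤ s) : Function.Injective S.κ := by
  rw [injective_iff_map_eq_zero]
  intro p hp
  have hli : LinearIndependent ℂ fun d : Fin 3 →₀ ℕ => mon (S.z 1) (S.z 2) S.c (fun i => (d i : ℤ)) :=
    (S.li_mon hs).comp (fun d : Fin 3 →₀ ℕ => fun i => ((d i : ℕ) : ℤ)) (by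
      intro d d' h
      ext i
      have := congrFun h i
      simp only at this
      exact_mod_cast this)
  rw [κ, MvPolynomial.aeval_def, MvPolynomial.eval₂_eq'] at hp
  have h1 := linearIndependent_iff'.1 hli p.support (fun d => p.coeff d) (by
    rw [← hp]
    refine Finset.sum_congr rfl fun d _ => ?_
    rw [Algebra.smul_def, Fin.prod_univ_three]
    simp [mon])
  ext d
  rw [MvPolynomial.coeff_zero]
  by_cases hd : d ∈ p.support
  · exact h1 d hd
  · rwa [MvPolynomial.notMem_support_iff] at hd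

/-- `X ↦ X`, `Y ↦ Y`, `C ↦ X Y Z - X ^ 3 - Y ^ 3` -/
def θ : MvPolynomial (Fin 3) ℂ →ₐ[ℂ] MvPolynomial (Fin 3) ℂ :=
  MvPolynomial.aeval ![MvPolynomial.X 0, MvPolynomial.X 1,
    MvPolynomial.X 0 * MvPolynomial.X 1 * MvPolynomial.X 2 - MvPolynomial.X 0 ^ 3 -
      MvPolynomial.X 1 ^ 3]

theorem ι_θ (p : MvPolynomial (Fin 3) ℂ) : S.ι (θ p) = S.κ p := by
  have : S.ι.comp θ = S.κ := by
    apply MvPolynomial.algHom_ext
    intro i
    fin_cases i
    · simp [θ, κ, CSeq.ι]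
    · simp [θ, κ, CSeq.ι]
    · simp [θ, κ, CSeq.ι]
      rw [S.cubic]
      ring
  rw [← this]
  rfl

theorem θ_range (g : MvPolynomial (Fin 3) ℂ) : ∃ (N : ℕ) (h : MvPolynomial (Fin 3) ℂ),
    θ h = (MvPolynomial.X 0 * MvPolynomial.X 1) ^ N * g := by
  have hXY : ∀ N : ℕ, θ ((MvPolynomial.X 0 * MvPolynomial.X 1) ^ N) =
    (MvPolynomial.X 0 * MvPolynomial.X 1) ^ N := by
    intro N
    simp [θ]
  induction g using MvPolynomial.induction_on with
  | C a =>
    refine ⟨0, MvPolynomial.C a, ?_⟩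
    rw [← MvPolynomial.algebraMap_eq, AlgHom.commutes, pow_zero, one_mul]
  | add p q hp hq =>
    obtain ⟨N, h, hh⟩ := hp
    obtain ⟨N', h', hh'⟩ := hq
    refine ⟨N + N', (MvPolynomial.X 0 * MvPolynomial.X 1) ^ N' * h +
      (MvPolynomial.X 0 * MvPolynomial.X 1) ^ N * h', ?_⟩
    rw [map_add, map_mul, map_mul, hXY, hXY, hh, hh']
    ring
  | mul_X p i hp =>
    obtain ⟨N, h, hh⟩ := hp
    have hi : ∃ h', θ h' = (MvPolynomial.X 0 * MvPolynomial.X 1) * MvPolynomial.X i := by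
      fin_cases i
      · exact ⟨(MvPolynomial.X 0 * MvPolynomial.X 1) * MvPolynomial.X 0, by simp [θ]⟩
      · exact ⟨(MvPolynomial.X 0 * MvPolynomial.X 1) * MvPolynomial.X 1, by simp [θ]⟩
      · exact ⟨MvPolynomial.X 2 + MvPolynomial.X 0 ^ 3 + MvPolynomial.X 1 ^ 3, by simp [θ]; ring⟩
    obtain ⟨h', hh'⟩ := hi
    refine ⟨N + 1, h * h', ?_⟩
    rw [map_mul, hh, hh']
    ring

theorem ι_inj (hs : 1 ≤ s) : Function.Injective S.ι := by
  rw [injective_iff_map_eq_zero]
  intro g hg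
  obtain ⟨N, h, hh⟩ := θ_range g
  have h1 : S.κ h = 0 := by
    rw [← S.ι_θ, hh, map_mul, hg, mul_zero]
  have h2 : h = 0 := S.κ_inj hs (by rw [h1, map_zero])
  rw [h2, map_zero] at hh
  rcases mul_eq_zero.1 hh.symm with h3 | h3
  · exact absurd h3 (pow_ne_zero _ (mul_ne_zero (MvPolynomial.X_ne_zero _)
      (MvPolynomial.X_ne_zero _)))
  · exact h3

end Seed

end Pool.Agent.Y179.SD
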