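import Pool.Agent.Y179.SD.Lat

/-!
The anticanonical ring of the projective plane.
-/

noncomputable section

namespace Pool.Agent.Y179.SD

open Pool.Agent.Helper774.KSing
open Pool.Agent.Helper774.KStab (TorusField)

variable {L : Type} [Field L] [Algebra ℂ L] (T2 : TorusField 2 L)

/-- the data of `ℙ²` -/
@[reducible] def dat2 : SData 2 := wpsData 1 1 le_rfl le_rfl isCoprime_one_left

/-- dehomogenisation -/
def kp : MvPolynomial (Fin 3) ℂ →ₐ[ℂ] L := MvPolynomial.aeval ![T2.χ ![1, 0], T2.χ ![0, 1], 1]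

/-- The section of `O(-m K)` given by a form of degree `3 m`. -/
def kap (m : ℕ) : MvPolynomial (Fin 3) ℂ →ₗ[ℂ] L :=
  (LinearMap.mulLeft ℂ (T2.χ ![-(m : ℤ), -(m : ℤ)])) ∘ₗ (kp T2).toLinearMap

theorem kap_apply (m : ℕ) (g : MvPolynomial (Fin 3) ℂ) :
    kap T2 m g = T2.χ ![-(m : ℤ), -(m : ℤ)] * kp T2 g := rfl

theorem kap_mul (m m' : ℕ) (g h : MvPolynomial (Fin 3) ℂ) :
    kap T2 (m + m') (g * h) = kap T2 m g * kap T2 m' h := by
  rw [kap_apply, kap_apply, kap_apply, map_mul]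
  have : T2.χ ![-((m + m' : ℕ) : ℤ), -((m + m' : ℕ) : ℤ)] =
      T2.χ ![-(m : ℤ), -(m : ℤ)] * T2.χ ![-(m' : ℤ), -(m' : ℤ)] := by
    rw [← T2.χ_add]
    congr 1
    funext i
    fin_cases i
    · show -((m + m' : ℕ) : ℤ) = -(m : ℤ) + -(m' : ℤ)
      push_cast; ring
    · show -((m + m' : ℕ) : ℤ) = -(m : ℤ) + -(m' : ℤ)
      push_cast; ring
  rw [this]
  ring

theorem kap_one : kap T2 0 1 = 1 := by
  rw [kap_apply, map_one, mul_one]
  have : (![-((0 : ℕ) : ℤ), -((0 : ℕ) : ℤ)] : Fin 2 → ℤ) = 0 := by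
    funext i
    fin_cases i <;> simp
  rw [this, T2.χ_zero]

/-- the exponent of a monomial -/
def ex (m : ℕ) (d : Fin 3 →₀ ℕ) : Fin 2 → ℤ := ![(d 0 : ℤ) - m, (d 1 : ℤ) - m]

theorem kap_monomial (m : ℕ) (d : Fin 3 →₀ ℕ) (c : ℂ) :
    kap T2 m (MvPolynomial.monomial d c) = c • T2.χ (ex m d) := by
  rw [kap_apply, kp, MvPolynomial.aeval_monomial, Finsupp.prod_fintype _ _ (fun i => pow_zero _),
    Fin.prod_univ_three, Algebra.smul_def]
  have h1 : T2.χ (ex m d) = T2.χ ![-(m : ℤ), -(m : ℤ)] * (T2.χ ![1, 0] ^ d 0 * T2.χ ![0, 1] ^ d 1) := by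
    rw [← chi_nsmul', ← chi_nsmul', ← T2.χ_add, ← T2.χ_add]
    congr 1
    funext i
    fin_cases i
    · simp [ex]; ring
    · simp [ex]; ring
  rw [h1]
  simp only [Matrix.cons_val_zero, Matrix.cons_val_one, Matrix.cons_val, one_pow, mul_one]
  ring

theorem kap_inj (m d : ℕ) (g : MvPolynomial (Fin 3) ℂ) (hg : g.IsHomogeneous d)
    (h : kap T2 m g = 0) : g = 0 := by
  have h1 : Set.InjOn (ex m) {e : Fin 3 →₀ ℕ | e.degree = d} := by
    intro e he e' he' hee
    have a0 := congrFun hee 0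
    have a1 := congrFun hee 1
    simp only [ex, Matrix.cons_val_zero, Matrix.cons_val_one] at a0 a1
    have b0 : e 0 + e 1 + e 2 = d := by
      rw [← (he : e.degree = d), Finsupp.degree_eq_sum, Fin.sum_univ_three]
    have b1 : e' 0 + e' 1 + e' 2 = d := by
      rw [← (he' : e'.degree = d), Finsupp.degree_eq_sum, Fin.sum_univ_three]
    ext i
    fin_cases i
    · show e 0 = e' 0
      omega
    · show e 1 = e' 1
      omega
    · show e 2 = e' 2
      omega
  have h2 : (↑g.support : Set (Fin 3 →₀ ℕ)) ⊆ {e : Fin 3 →₀ ℕ | e.degree = d} := by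
    intro e he
    by_contra hne
    exact (MvPolynomial.mem_support_iff.1 he) (hg.coeff_eq_zero hne)
  have h3 := indep_on T2 (ex m) _ h1 g.support h2 (fun e => g.coeff e) (by
    rw [← h]
    conv_rhs => rw [g.as_sum, map_sum]
    exact Finset.sum_congr rfl fun e _ => (kap_monomial T2 m e _).symm)
  ext e
  rw [MvPolynomial.coeff_zero]
  by_cases he : e ∈ g.support
  · exact h3 e he
  · rwa [MvPolynomial.notMem_support_iff] at he

theorem kap_image (m : ℕ) : (MvPolynomial.homogeneousSubmodule (Fin 3) ℂ (3 * m)).map (kap T2 m) =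
    Submodule.span ℂ (T2.χ '' dat2.pts m) := by
  apply le_antisymm
  · rintro _ ⟨g, hg, rfl⟩
    have hg' : g.IsHomogeneous (3 * m) := hg
    rw [g.as_sum, map_sum]
    refine Submodule.sum_mem _ fun e he => ?_
    have hd : e.degree = 3 * m := by
      by_contra hne
      exact (MvPolynomial.mem_support_iff.1 he) (hg'.coeff_eq_zero hne)
    rw [Finsupp.degree_eq_sum, Fin.sum_univ_three] at hd
    rw [kap_monomial]
    refine Submodule.smul_mem _ _ (Submodule.subset_span ⟨ex m e, ?_, rfl⟩)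
    rw [wps_pts]
    simp only [ex, Matrix.cons_val_zero, Matrix.cons_val_one]
    refine ⟨by omega, by omega, by omega⟩
  · rw [Submodule.span_le]
    rintro _ ⟨v, hv, rfl⟩
    rw [wps_pts] at hv
    obtain ⟨h1, h2, h3⟩ := hv
    refine ⟨MvPolynomial.monomial (Finsupp.equivFunOnFinite.symm
      ![(v 0 + m).toNat, (v 1 + m).toNat, (m - v 0 - v 1).toNat]) 1, ?_, ?_⟩
    · apply MvPolynomial.isHomogeneous_monomial
      rw [Finsupp.degree_eq_sum, Fin.sum_univ_three]
      simp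
      omega
    · rw [kap_monomial, one_smul]
      congr 1
      funext i
      fin_cases i
      · simp [ex]
        omega
      · simp [ex]
        omega

theorem antican2 (m : ℕ) : (toricVar T2 dat2).antican m =
    (MvPolynomial.homogeneousSubmodule (Fin 3) ℂ (3 * m)).map (kap T2 m) := by
  rw [kap_image]
  ext f
  exact toric_antican T2 dat2 m f

theorem exists_G (m : ℕ) : ∃ G : L →ₗ[ℂ] MvPolynomial (Fin 3) ℂ, ∀ g : MvPolynomial (Fin 3) ℂ,
    g.IsHomogeneous (3 * m) → G (kap T2 m g) = g := by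
  obtain ⟨G, hG⟩ := LinearMap.exists_leftInverse_of_injective ((kap T2 m).domRestrict
    (MvPolynomial.homogeneousSubmodule (Fin 3) ℂ (3 * m))) (by
      rw [LinearMap.ker_eq_bot']
      intro g hg
      exact Subtype.ext (kap_inj T2 m (3 * m) g.1 g.2 hg))
  refine ⟨(MvPolynomial.homogeneousSubmodule (Fin 3) ℂ (3 * m)).subtype ∘ₗ G, fun g hg => ?_⟩
  have := congrArg (fun f => ((f ⟨g, hg⟩ : MvPolynomial.homogeneousSubmodule (Fin 3) ℂ (3 * m)) :
    MvPolynomial (Fin 3) ℂ)) hG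
  exact this

end Pool.Agent.Y179.SD
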