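import Pool.Agent.Y179.SD.WPS

/-!
The toric ring of the Markov triple `(1, a, b)` is the anticanonical ring of `ℙ(1, a², b²)`.
-/

noncomputable section

namespace Pool.Agent.Y179.SD

open Pool.Agent.Helper774.KSing
open Pool.Agent.Helper774.KStab (TorusField)

/-- independence on a subset -/
theorem indep_on {n : ℕ} {K : Type} [Field K] [Algebra ℂ K] (T : TorusField n K) {I : Type}
    (φ : I → (Fin n → ℤ)) (A : Set I) (hφ : Set.InjOn φ A) (s : Finset I) (hs : ↑s ⊆ A) (c : I → ℂ)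
    (h : ∑ i ∈ s, c i • T.χ (φ i) = 0) : ∀ i ∈ s, c i = 0 := by
  have h1 : LinearIndepOn ℂ (fun i => T.χ (φ i)) A := by
    have : LinearIndependent ℂ fun i : A => T.χ (φ i) :=
      T.li.comp (fun i : A => φ i) fun x y hxy => Subtype.ext (hφ x.2 y.2 hxy)
    exact this
  exact linearIndepOn_iff'.1 h1 s c hs h

theorem exists_tau {n k : ℕ} {K L : Type} [Field K] [Algebra ℂ K] [Field L] [Algebra ℂ L]
    (T : TorusField n K) (T' : TorusField k L) (φ : (Fin n → ℤ) → (Fin k → ℤ)) :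
    ∃ τ : K →ₗ[ℂ] L, ∀ u, τ (T.χ u) = T'.χ (φ u) := by
  obtain ⟨g, hg⟩ := LinearMap.exists_extend ((Module.Basis.span T.li).constr ℂ fun u => T'.χ (φ u))
  refine ⟨g, fun u => ?_⟩
  have h1 : (Module.Basis.span T.li) u = ⟨T.χ u, Submodule.subset_span ⟨u, rfl⟩⟩ :=
    Module.Basis.span_apply T.li u
  have h2 := (Module.Basis.span T.li).constr_basis ℂ (fun u => T'.χ (φ u)) u
  rw [h1] at h2
  rw [← h2, ← hg]
  rfl

variable {K L : Type} [Field K] [Algebra ℂ K] [Field L] [Algebra ℂ L]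

/-- The Laurent monomials of weight `3 m`. -/
def Lm (a b : ℤ) (m : ℤ) : Set (Fin 3 → ℤ) := {u | a * u 0 + b * u 1 + 3 * u 2 = 3 * m}

/-- The projection to the lattice of the weighted projective plane. -/
def pr (a b : ℤ) (u : Fin 3 → ℤ) : Fin 2 → ℤ :=
  ![b * u 0 + u 2 - (a * u 0 + b * u 1 + 3 * u 2) / 3,
    a * u 1 + u 2 - (a * u 0 + b * u 1 + 3 * u 2) / 3]

theorem pr_eq {a b m : ℤ} {u : Fin 3 → ℤ} (hu : u ∈ Lm a b m) :
    pr a b u = ![b * u 0 + u 2 - m, a * u 1 + u 2 - m] := by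
  have h : a * u 0 + b * u 1 + 3 * u 2 = 3 * m := hu
  have h2 : (a * u 0 + b * u 1 + 3 * u 2) / 3 = m := by omega
  rw [pr, h2]

theorem pr_add {a b m m' : ℤ} {u v : Fin 3 → ℤ} (hu : u ∈ Lm a b m) (hv : v ∈ Lm a b m') :
    pr a b (u + v) = pr a b u + pr a b v := by
  have huv : u + v ∈ Lm a b (m + m') := by
    have h : a * u 0 + b * u 1 + 3 * u 2 = 3 * m := hu
    have h' : a * v 0 + b * v 1 + 3 * v 2 = 3 * m' := hv
    show a * (u 0 + v 0) + b * (u 1 + v 1) + 3 * (u 2 + v 2) = 3 * (m + m')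
    linear_combination h + h'
  rw [pr_eq hu, pr_eq hv, pr_eq huv]
  funext i
  fin_cases i
  · show b * (u 0 + v 0) + (u 2 + v 2) - (m + m') = (b * u 0 + u 2 - m) + (b * v 0 + v 2 - m')
    ring
  · show a * (u 1 + v 1) + (u 2 + v 2) - (m + m') = (a * u 1 + u 2 - m) + (a * v 1 + v 2 - m')
    ring

theorem pr_inj {a b m : ℤ} (ha : 1 ≤ a) (hb : 1 ≤ b) (hab : 1 + a ^ 2 + b ^ 2 = 3 * a * b) :
    Set.InjOn (pr a b) (Lm a b m) := by
  intro u hu v hv h
  rw [pr_eq hu, pr_eq hv] at h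
  have h0 := congrFun h 0
  have h1 := congrFun h 1
  simp only [Matrix.cons_val_zero, Matrix.cons_val_one] at h0 h1
  have hu' : a * u 0 + b * u 1 + 3 * u 2 = 3 * m := hu
  have hv' : a * v 0 + b * v 1 + 3 * v 2 = 3 * m := hv
  have h2 : u 2 = v 2 := by
    have e : u 2 - v 2 = 0 := by
      linear_combination a * b * hu' - a * b * hv' - a ^ 2 * h0 - b ^ 2 * h1 -
        (u 2 - v 2) * (-hab)
    linarith
  rw [h2] at h0 h1
  have h3 : u 0 = v 0 := by
    have : b * (u 0 - v 0) = 0 := by linear_combination h0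
    rcases mul_eq_zero.1 this with h | h <;> omega
  have h4 : u 1 = v 1 := by
    have : a * (u 1 - v 1) = 0 := by linear_combination h1
    rcases mul_eq_zero.1 this with h | h <;> omega
  funext i
  fin_cases i
  · exact h3
  · exact h4
  · exact h2

theorem markov (t : ℕ) : 1 + E (t + 1) ^ 2 + E (t + 2) ^ 2 = 3 * E (t + 1) * E (t + 2) :=
  E_markov (t + 1)

theorem cop (t : ℕ) : IsCoprime (E (t + 1) ^ 2) (E (t + 2) ^ 2) := by
  have h : IsCoprime (E (t + 1) ^ 2) (E (t + 2)) := by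
    refine ⟨-1, E t, ?_⟩
    have := E_mul t
    linear_combination this
  exact h.pow_right

theorem sq_pos' (t : ℕ) : 1 ≤ E t ^ 2 := by
  have := E_pos t
  nlinarith

/-- the toric Fano variety `ℙ(1, E_{t+1}², E_{t+2}²)` -/
@[reducible] def dat (t : ℕ) : SData 2 :=
  wpsData (E (t + 1) ^ 2) (E (t + 2) ^ 2) (sq_pos' _) (sq_pos' _) (cop t)

theorem Sset_sub_Lm (a b : ℤ) (m : ℕ) : Seed.Sset a b ((3 * m : ℕ) : ℤ) ⊆ Lm a b m := by
  rintro u ⟨h, _⟩
  show a * u 0 + b * u 1 + 3 * u 2 = 3 * (m : ℤ)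
  rw [h]
  push_cast
  rfl

theorem pr_image (t : ℕ) (m : ℕ) :
    pr (E (t + 1)) (E (t + 2)) '' Seed.Sset (E (t + 1)) (E (t + 2)) ((3 * m : ℕ) : ℤ) =
      (dat t).pts m := by
  have hm := markov t
  have ha := E_pos (t + 1)
  have hb := E_pos (t + 2)
  set a := E (t + 1) with hadef
  set b := E (t + 2) with hbdef
  ext v
  rw [wps_pts]
  constructor
  · rintro ⟨u, hu, rfl⟩
    rw [pr_eq (Sset_sub_Lm a b m hu)]
    obtain ⟨h1, h2, h3, h4⟩ := hu
    simp only [Matrix.cons_val_zero, Matrix.cons_val_one]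
    refine ⟨by linarith, by linarith, ?_⟩
    have h1' : a * u 0 + b * u 1 + 3 * u 2 = 3 * m := by
      rw [h1]; push_cast; rfl
    have : a ^ 2 * (b * u 0 + u 2 - m) + b ^ 2 * (a * u 1 + u 2 - m) = m - u 2 := by
      linear_combination a * b * h1' + (u 2 - m) * hm
    rw [this]
    linarith
  · rintro ⟨h1, h2, h3⟩
    have hmem : ![(3 * a - b) * v 0 + b * v 1, a * v 0 + (3 * b - a) * v 1,
        m - a ^ 2 * v 0 - b ^ 2 * v 1] ∈ Seed.Sset a b ((3 * m : ℕ) : ℤ) := by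
      simp only [Seed.Sset, Set.mem_setOf_eq, Matrix.cons_val_zero, Matrix.cons_val_one,
        Matrix.cons_val]
      refine ⟨?_, ?_, ?_, ?_⟩
      · push_cast
        ring
      · linarith
      · have : a * (a * v 0 + (3 * b - a) * v 1) + (m - a ^ 2 * v 0 - b ^ 2 * v 1) = v 1 + m := by
          linear_combination -v 1 * hm
        rw [this]
        linarith
      · have : b * ((3 * a - b) * v 0 + b * v 1) + (m - a ^ 2 * v 0 - b ^ 2 * v 1) = v 0 + m := by
          linear_combination -v 0 * hm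
        rw [this]
        linarith
    refine ⟨_, hmem, ?_⟩
    rw [pr_eq (Sset_sub_Lm a b m hmem)]
    funext i
    fin_cases i
    · show b * ((3 * a - b) * v 0 + b * v 1) + (m - a ^ 2 * v 0 - b ^ 2 * v 1) - m = v 0
      linear_combination -v 0 * hm
    · show a * (a * v 0 + (3 * b - a) * v 1) + (m - a ^ 2 * v 0 - b ^ 2 * v 1) - m = v 1
      linear_combination -v 1 * hm

end Pool.Agent.Y179.SD
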