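import Pool.Agent.Y179.SD.Hahn

/-!
Leading terms of Hahn series.
-/

noncomputable section

namespace Pool.Agent.Y179.SD

variable {K : Type} [Field K]

/-- The series `x` has no terms of degree `< w` and the term `m` in degree `w` (`m = 0` is
allowed). -/
def Lead (x : HahnSeries ℤ K) (w : ℤ) (m : K) : Prop :=
  (∀ i < w, x.coeff i = 0) ∧ x.coeff w = m

theorem Lead.zero_of_lt {x : HahnSeries ℤ K} {w w' : ℤ} {m : K} (h : Lead x w m) (hw : w' < w) :
    Lead x w' 0 := ⟨fun i hi => h.1 i (hi.trans hw), h.1 w' hw⟩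

theorem Lead.unique {x : HahnSeries ℤ K} {w : ℤ} {m m' : K} (h : Lead x w m) (h' : Lead x w m') :
    m = m' := h.2.symm.trans h'.2

theorem Lead.add {x y : HahnSeries ℤ K} {w : ℤ} {m m' : K} (h : Lead x w m) (h' : Lead y w m') :
    Lead (x + y) w (m + m') := by
  refine ⟨fun i hi => ?_, ?_⟩
  · rw [HahnSeries.coeff_add, h.1 i hi, h'.1 i hi, add_zero]
  · rw [HahnSeries.coeff_add, h.2, h'.2]

theorem Lead.sub {x y : HahnSeries ℤ K} {w : ℤ} {m m' : K} (h : Lead x w m) (h' : Lead y w m') :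
    Lead (x - y) w (m - m') := by
  refine ⟨fun i hi => ?_, ?_⟩
  · rw [HahnSeries.coeff_sub, h.1 i hi, h'.1 i hi, sub_zero]
  · rw [HahnSeries.coeff_sub, h.2, h'.2]

theorem Lead.single (w : ℤ) (m : K) : Lead (HahnSeries.single w m) w m := by
  refine ⟨fun i hi => ?_, ?_⟩
  · rw [HahnSeries.coeff_single_of_ne hi.ne]
  · rw [HahnSeries.coeff_single_same]

theorem Lead.one : Lead (1 : HahnSeries ℤ K) 0 1 := Lead.single 0 1

theorem Lead.zero (w : ℤ) : Lead (0 : HahnSeries ℤ K) w 0 := ⟨fun _ _ => rfl, rfl⟩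

theorem Lead.mul {x y : HahnSeries ℤ K} {w w' : ℤ} {m m' : K} (h : Lead x w m)
    (h' : Lead y w' m') : Lead (x * y) (w + w') (m * m') := by
  have hx : ((w : ℤ) : WithTop ℤ) ≤ x.orderTop :=
    HahnSeries.le_orderTop_iff_forall.2 fun j hj => h.1 j (by exact_mod_cast hj)
  have hy : ((w' : ℤ) : WithTop ℤ) ≤ y.orderTop :=
    HahnSeries.le_orderTop_iff_forall.2 fun j hj => h'.1 j (by exact_mod_cast hj)
  refine ⟨fun i hi => ?_, ?_⟩
  · have h1 : (((w + w' : ℤ)) : WithTop ℤ) ≤ (x * y).orderTop := by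
      push_cast
      exact (add_le_add hx hy).trans HahnSeries.orderTop_add_le_mul
    exact HahnSeries.le_orderTop_iff_forall.1 h1 i (by exact_mod_cast hi)
  · rw [HahnSeries.coeff_mul, Finset.sum_eq_single (w, w')]
    · rw [h.2, h'.2]
    · rintro ⟨i, j⟩ hij hne
      rw [Finset.mem_addAntidiagonal] at hij
      obtain ⟨hi, hj, hs⟩ := hij
      rw [HahnSeries.mem_support] at hi hj
      have h1 : w ≤ i := by
        by_contra hlt
        exact hi (h.1 i (not_le.1 hlt))
      have h2 : w' ≤ j := by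
        by_contra hlt
        exact hj (h'.1 j (not_le.1 hlt))
      exfalso
      apply hne
      simp only at hs
      have e1 : i = w := by linarith
      have e2 : j = w' := by linarith
      rw [e1, e2]
    · intro hn
      rw [Finset.mem_addAntidiagonal] at hn
      by_contra hne
      apply hn
      refine ⟨?_, ?_, rfl⟩
      · rw [HahnSeries.mem_support]
        exact left_ne_zero_of_mul hne
      · rw [HahnSeries.mem_support]
        exact right_ne_zero_of_mul hne

theorem Lead.pow {x : HahnSeries ℤ K} {w : ℤ} {m : K} (h : Lead x w m) (n : ℕ) :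
    Lead (x ^ n) (n * w) (m ^ n) := by
  induction n with
  | zero => simpa using Lead.one
  | succ n ih =>
    have := ih.mul h
    rw [pow_succ, pow_succ]
    convert this using 1
    push_cast
    ring

theorem Lead.ne_zero {x : HahnSeries ℤ K} {w : ℤ} {m : K} (h : Lead x w m) (hm : m ≠ 0) : x ≠ 0 := by
  rintro rfl
  apply hm
  rw [← h.2]
  rfl

variable {F : Type} [Field F] (Φ : F →+* HahnSeries ℤ K)

theorem Lead.inv {f : F} {w : ℤ} {m : K} (h : Lead (Φ f) w m) (hm : m ≠ 0) :
    Lead (Φ f⁻¹) (-w) m⁻¹ := by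
  have hf : Φ f ≠ 0 := h.ne_zero hm
  have hf0 : f ≠ 0 := by
    rintro rfl
    exact hf (map_zero Φ)
  have h1 : Φ f * Φ f⁻¹ = 1 := by rw [← map_mul, mul_inv_cancel₀ hf0, map_one]
  have h2 : (Φ f).orderTop = ((w : ℤ) : WithTop ℤ) := by
    apply le_antisymm
    · by_contra hlt
      push Not at hlt
      have := HahnSeries.coeff_eq_zero_of_lt_orderTop hlt
      rw [h.2] at this
      exact hm this
    · exact HahnSeries.le_orderTop_iff_forall.2 fun j hj => h.1 j (by exact_mod_cast hj)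
  have h3 : (Φ f).orderTop + (Φ f⁻¹).orderTop = 0 := by
    rw [← HahnSeries.orderTop_mul, h1, HahnSeries.orderTop_one]
  have h4 : (((-w : ℤ)) : WithTop ℤ) ≤ (Φ f⁻¹).orderTop := by
    rw [h2] at h3
    cases ho : (Φ f⁻¹).orderTop with
    | top => exact le_top
    | coe o =>
      rw [ho] at h3
      have h5 : w + o = 0 := by exact_mod_cast h3
      have h6 : -w ≤ o := by linarith
      exact_mod_cast h6
  have h5 : Lead (Φ f⁻¹) (-w) ((Φ f⁻¹).coeff (-w)) :=
    ⟨fun i hi => HahnSeries.le_orderTop_iff_forall.1 h4 i (by exact_mod_cast hi), rfl⟩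
  have h6 := h.mul h5
  rw [h1, add_neg_cancel] at h6
  have h7 := h6.unique Lead.one
  have h8 : (Φ f⁻¹).coeff (-w) = m⁻¹ := eq_inv_of_mul_eq_one_right h7
  rw [h8] at h5
  exact h5

theorem Lead.zpow {f : F} {w : ℤ} {m : K} (h : Lead (Φ f) w m) (hm : m ≠ 0) (n : ℤ) :
    Lead (Φ (f ^ n)) (n * w) (m ^ n) := by
  obtain ⟨k, rfl | rfl⟩ := n.eq_nat_or_neg
  · rw [zpow_natCast, zpow_natCast, map_pow]
    exact h.pow k
  · have h1 := (h.inv Φ hm).pow k
    rw [← map_pow] at h1
    rw [zpow_neg, zpow_neg, zpow_natCast, zpow_natCast, ← inv_pow, ← inv_pow]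
    convert h1 using 1
    ring

theorem Lead.div {f g : F} {w w' : ℤ} {m m' : K} (h : Lead (Φ f) w m) (h' : Lead (Φ g) w' m')
    (hm' : m' ≠ 0) : Lead (Φ (f / g)) (w - w') (m / m') := by
  rw [div_eq_mul_inv, div_eq_mul_inv, map_mul, sub_eq_add_neg]
  exact h.mul (h'.inv Φ hm')

/-- sum of two elements, the first of which has lower order -/
theorem Lead.add_lt {x y : HahnSeries ℤ K} {w w' : ℤ} {m m' : K} (h : Lead x w m)
    (h' : Lead y w' m') (hw : w < w') : Lead (x + y) w m := by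
  have := h.add (h'.zero_of_lt hw)
  rwa [add_zero] at this

/-- sum of two elements, the second of which has lower order -/
theorem Lead.add_gt {x y : HahnSeries ℤ K} {w w' : ℤ} {m m' : K} (h : Lead x w m)
    (h' : Lead y w' m') (hw : w' < w) : Lead (x + y) w' m' := by
  rw [add_comm]
  exact h'.add_lt h hw

end Pool.Agent.Y179.SD
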