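import Pool.Agent.Y179.SD.Rees
import Pool.Agent.Y179.SD.Hilb

/-!
The special degenerations of the projective plane are unbounded.
-/

noncomputable section

namespace Pool.Agent.Y179.SD

open Pool.Agent.Helper774.KSing
open Pool.Agent.Helper774.KStab (TorusField)

variable {L : Type} [Field L] [Algebra ℂ L] (T : TorusField 2 L)

/-- the maximal ideal of the torus fixed point -/
def fixIdeal {R : Matrix (Fin 2) (Fin 2) ℤ} (hR : R.det ≠ 0) : Ideal (cone T R) where
  carrier := {a | co T 0 (a : L) = 0}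
  add_mem' := by
    intro a b ha hb
    show co T 0 ((a : L) + b) = 0
    rw [map_add, (ha : co T 0 (a : L) = 0), (hb : co T 0 (b : L) = 0), add_zero]
  zero_mem' := map_zero _
  smul_mem' := by
    intro a b hb
    show co T 0 ((a : L) * b) = 0
    rw [co_zero_mul T hR a.2 b.2, (hb : co T 0 (b : L) = 0), mul_zero]

theorem mem_fixIdeal {R : Matrix (Fin 2) (Fin 2) ℤ} (hR : R.det ≠ 0) (a : cone T R) :
    a ∈ fixIdeal T hR ↔ co T 0 (a : L) = 0 := Iff.rfl

theorem fixIdeal_prime {R : Matrix (Fin 2) (Fin 2) ℤ} (hR : R.det ≠ 0) :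
    (fixIdeal T hR).IsPrime := by
  refine ⟨?_, ?_⟩
  · rw [Ideal.ne_top_iff_one]
    intro h
    rw [mem_fixIdeal] at h
    have h1 : co T 0 (1 : L) = 1 := by
      rw [← T.χ_zero]
      exact co_self T 0
    exact one_ne_zero (h1.symm.trans h)
  · intro a b hab
    rw [mem_fixIdeal] at hab
    have h1 : co T 0 ((a : L) * b) = 0 := hab
    rw [co_zero_mul T hR a.2 b.2] at h1
    exact mul_eq_zero.1 h1

theorem locRing_fix {R : Matrix (Fin 2) (Fin 2) ℤ} (hR : R.det ≠ 0) :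
    locRing (cone T R) (fixIdeal T hR) =
      {z | ∃ a ∈ cone T R, ∃ s ∈ cone T R, co T 0 s ≠ 0 ∧ z * s = a} := by
  ext z
  constructor
  · rintro ⟨a, s, hs, h⟩
    exact ⟨a, a.2, s, s.2, hs, h⟩
  · rintro ⟨a, ha, s, hs, hs0, h⟩
    exact ⟨⟨a, ha⟩, ⟨s, hs⟩, hs0, h⟩

/-- The special degenerations of the projective plane do not form a bounded family. -/
theorem unbounded {K : Type} [Field K] [Algebra ℂ K] (T3 : TorusField 3 K) :
    ¬ IsBounded {Y | IsSpecialDegeneration (toricVar T dat2) Y} := by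
  rintro ⟨B, _, _, N, S, _, _, h⟩
  obtain ⟨t, ht, W, hW, hirr⟩ := many_irr (N + 2)
  obtain ⟨b, y, _, _, hpts⟩ := h (toricVar T (dat t)) (Seed.isSpecialDegeneration T3 T t ht)
  have hR : (wpsR (E (t + 1) ^ 2) (E (t + 2) ^ 2) 2).det ≠ 0 :=
    wps_det _ _ (sq_pos' _) (sq_pos' _) 2
  have h1 : locRing (cone T (wpsR (E (t + 1) ^ 2) (E (t + 2) ^ 2) 2)) (fixIdeal T hR) ∈
      (toricVar T (dat t)).points := ⟨(2 : Fin 3), fixIdeal T hR, fixIdeal_prime T hR, rfl⟩
  rw [hpts] at h1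
  obtain ⟨i, _, p, hp, h2⟩ := h1
  have h3 := card_le T hR W hirr (fun j : Fin (N + 1) => y j / y i) _ _ rfl p hp h2
    (locRing_fix T hR)
  omega

/-- The projective plane is a klt Fano variety whose special degenerations are unbounded. -/
theorem main : ∃ X : Variety, X.IsFano ∧ X.IsKlt ∧ ¬ IsBounded {Y | IsSpecialDegeneration X Y} := by
  obtain ⟨K, _, _, ⟨T3⟩⟩ := Pool.Agent.Helper774.KStab.exists_torusField 3
  obtain ⟨L, _, _, ⟨T2⟩⟩ := Pool.Agent.Helper774.KStab.exists_torusField 2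
  exact ⟨toricVar T2 dat2, toric_isFano T2 dat2, toric_klt T2 dat2, unbounded T2 T3⟩

end Pool.Agent.Y179.SD
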