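import Pool.Agent.Y179.SD.Clus

/-!
Existence of the cluster sequence with prescribed terms `z_s, z_{s+1}`, and linear independence.
-/

noncomputable section

namespace Pool.Agent.Y179.SD

open Pool.Agent.Helper774.KSing
open Pool.Agent.Helper774.KStab (TorusField)

variable {K : Type} [Field K] [Algebra ℂ K]

theorem chi_zpow (T : TorusField 3 K) (u : Fin 3 → ℤ) (l : ℤ) : T.χ u ^ l = T.χ (l • u) := by
  obtain ⟨k, rfl | rfl⟩ := l.eq_nat_or_neg
  · rw [zpow_natCast, natCast_zsmul, chi_pow]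
  · rw [zpow_neg, zpow_natCast, neg_smul, natCast_zsmul, ← chi_pow]
    symm
    apply eq_inv_of_mul_eq_one_left
    rw [← T.χ_add, neg_add_cancel, T.χ_zero]

/-- the auxiliary forward sequence -/
def zf (c x y : K) : ℕ → K
  | 0 => x
  | 1 => y
  | (n + 2) => (zf c x y (n + 1) ^ 3 + c ^ E (n + 1)) / zf c x y n

/-- the exponents of the leading terms -/
def Vf (a b : Fin 3 → ℤ) : ℕ → (Fin 3 → ℤ)
  | 0 => a
  | 1 => b
  | (n + 2) => (3 : ℤ) • Vf a b (n + 1) - Vf a b n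

theorem lead_step (T : TorusField 3 K) (Φ : K →+* HahnSeries ℤ K)
    (hΦ : ∀ u, Φ (T.χ u) = HahnSeries.single (u 2) (T.χ u)) (x : K) (V : Fin 3 → ℤ)
    (hx : Lead (Φ x) 0 (T.χ V)) (n : ℕ) :
    Lead (Φ (x ^ 3 + T.χ ![0, 0, 1] ^ E n)) 0 (T.χ ((3 : ℤ) • V)) := by
  rw [map_add, map_pow]
  have h1 := hx.pow 3
  have h2 : Lead (Φ (T.χ ![0, 0, 1] ^ E n)) (E n) (T.χ (E n • ![0, 0, 1])) := by
    rw [chi_zpow, hΦ]
    have := Lead.single ((E n • (![0, 0, 1] : Fin 3 → ℤ)) 2) (T.χ (E n • ![0, 0, 1]))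
    simpa using this
  rw [mul_zero] at h1
  have h3 := h1.add_lt h2 (by have := E_pos n; omega)
  have e : T.χ V ^ 3 = T.χ ((3 : ℤ) • V) := by
    rw [← chi_zpow]
    exact_mod_cast rfl
  rwa [e] at h3

theorem exists_seq (T : TorusField 3 K) (Φ : K →+* HahnSeries ℤ K)
    (hΦ : ∀ u, Φ (T.χ u) = HahnSeries.single (u 2) (T.χ u)) (s : ℕ) :
    ∀ (x y : K) (Vx Vy : Fin 3 → ℤ), Lead (Φ x) 0 (T.χ Vx) → Lead (Φ y) 0 (T.χ Vy) →
    ∃ (z : ℕ → K) (V : ℕ → Fin 3 → ℤ), (∀ n, Lead (Φ (z n)) 0 (T.χ (V n))) ∧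
      (∀ n, z n * z (n + 2) = z (n + 1) ^ 3 + T.χ ![0, 0, 1] ^ E (n + 1)) ∧
      (∀ n, V n + V (n + 2) = (3 : ℤ) • V (n + 1)) ∧
      z s = x ∧ z (s + 1) = y ∧ V s = Vx ∧ V (s + 1) = Vy := by
  have hne : ∀ {f : K} {V : Fin 3 → ℤ}, Lead (Φ f) 0 (T.χ V) → f ≠ 0 := by
    intro f V h hf
    apply h.ne_zero (chi_ne T V)
    rw [hf, map_zero]
  induction s with
  | zero =>
    intro x y Vx Vy hx hy
    have key : ∀ n, Lead (Φ (zf (T.χ ![0, 0, 1]) x y n)) 0 (T.χ (Vf Vx Vy n)) ∧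
        Lead (Φ (zf (T.χ ![0, 0, 1]) x y (n + 1))) 0 (T.χ (Vf Vx Vy (n + 1))) := by
      intro n
      induction n with
      | zero => exact ⟨hx, hy⟩
      | succ n ih =>
        refine ⟨ih.2, ?_⟩
        have h1 := lead_step T Φ hΦ _ _ ih.2 (n + 1)
        have h2 := h1.div Φ ih.1 (chi_ne T _)
        show Lead (Φ ((zf (T.χ ![0, 0, 1]) x y (n + 1) ^ 3 + T.χ ![0, 0, 1] ^ E (n + 1)) /
          zf (T.χ ![0, 0, 1]) x y n)) 0 (T.χ ((3 : ℤ) • Vf Vx Vy (n + 1) - Vf Vx Vy n))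
        have e : T.χ ((3 : ℤ) • Vf Vx Vy (n + 1)) / T.χ (Vf Vx Vy n) =
            T.χ ((3 : ℤ) • Vf Vx Vy (n + 1) - Vf Vx Vy n) := by
          rw [div_eq_iff (chi_ne T _), ← T.χ_add, sub_add_cancel]
        rwa [sub_zero, e] at h2
    refine ⟨zf (T.χ ![0, 0, 1]) x y, Vf Vx Vy, fun n => (key n).1, fun n => ?_, fun n => ?_, rfl,
      rfl, rfl, rfl⟩
    · show zf (T.χ ![0, 0, 1]) x y n *
        ((zf (T.χ ![0, 0, 1]) x y (n + 1) ^ 3 + T.χ ![0, 0, 1] ^ E (n + 1)) /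
          zf (T.χ ![0, 0, 1]) x y n) = _
      rw [mul_div_cancel₀ _ (hne (key n).1)]
    · show Vf Vx Vy n + ((3 : ℤ) • Vf Vx Vy (n + 1) - Vf Vx Vy n) = _
      abel
  | succ s ih =>
    intro x y Vx Vy hx hy
    have h1 := lead_step T Φ hΦ _ _ hx (s + 1)
    have h2 := h1.div Φ hy (chi_ne T _)
    have e : T.χ ((3 : ℤ) • Vx) / T.χ Vy = T.χ ((3 : ℤ) • Vx - Vy) := by
      rw [div_eq_iff (chi_ne T _), ← T.χ_add, sub_add_cancel]
    rw [sub_zero, e] at h2
    obtain ⟨z, V, a1, a2, a3, a4, a5, a6, a7⟩ := ih _ x _ Vx h2 hx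
    refine ⟨z, V, a1, a2, a3, a5, ?_, a7, ?_⟩
    · have h3 := a2 s
      have h4 := hne (a1 s)
      rw [a4] at h3 h4
      rw [a5] at h3
      have h5 : x ^ 3 + T.χ ![0, 0, 1] ^ E (s + 1) ≠ 0 := by
        intro h0
        rw [h0, zero_div] at h4
        exact h4 rfl
      have h6 : y ≠ 0 := hne hy
      have h7 : (x ^ 3 + T.χ ![0, 0, 1] ^ E (s + 1)) * (z (s + 2) / y) =
          (x ^ 3 + T.χ ![0, 0, 1] ^ E (s + 1)) * 1 := by
        rw [mul_one]
        conv_rhs => rw [← h3]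
        field_simp
      have h8 := mul_left_cancel₀ h5 h7
      rw [div_eq_one_iff_eq h6] at h8
      exact h8
    · have h3 := a3 s
      rw [a6, a7] at h3
      have h4 := eq_sub_of_add_eq' h3
      show V (s + 2) = Vy
      rw [h4, sub_sub_cancel]

/-! ## linear independence -/

/-- independence of the exponent vectors of the leading terms -/
theorem V_inj (V : ℕ → Fin 3 → ℤ) (hV : ∀ n, V n + V (n + 2) = (3 : ℤ) • V (n + 1)) (s : ℕ)
    (h0 : V s = ![1, 0, 0]) (h1 : V (s + 1) = ![0, 1, 0]) (n : ℕ) (hn : n ≤ s) (i j : ℤ)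
    (h : i • V n + j • V (n + 1) = 0) : i = 0 ∧ j = 0 := by
  obtain ⟨k, rfl⟩ := Nat.exists_eq_add_of_le hn
  clear hn
  induction k generalizing n i j with
  | zero =>
    rw [Nat.add_zero] at h0 h1
    rw [h0, h1] at h
    have a := congrFun h 0
    have b := congrFun h 1
    simp at a b
    exact ⟨a, b⟩
  | succ k ih =>
    have e := eq_sub_of_add_eq (hV n)
    have h2 : (3 * i + j) • V (n + 1) + (-i) • V (n + 1 + 1) = 0 := by
      rw [← h, e]
      show _ = i • ((3 : ℤ) • V (n + 1) - V (n + 2)) + j • V (n + 1)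
      module
    have h3 := ih (n + 1) (3 * i + j) (-i) h2 (by rw [← h0]; congr 1; omega)
      (by rw [← h1]; congr 1; omega)
    obtain ⟨h4, h5⟩ := h3
    constructor <;> omega

/-- the leading term of a Laurent monomial -/
theorem lead_mon (T : TorusField 3 K) (Φ : K →+* HahnSeries ℤ K) {p q c : K} {wp wq wc : ℤ}
    {Vp Vq Vc : Fin 3 → ℤ} (hp : Lead (Φ p) wp (T.χ Vp)) (hq : Lead (Φ q) wq (T.χ Vq))
    (hc : Lead (Φ c) wc (T.χ Vc)) (u : Fin 3 → ℤ) :
    Lead (Φ (mon p q c u)) (u 0 * wp + u 1 * wq + u 2 * wc)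
      (T.χ (u 0 • Vp + u 1 • Vq + u 2 • Vc)) := by
  have h1 := hp.zpow Φ (chi_ne T _) (u 0)
  have h2 := hq.zpow Φ (chi_ne T _) (u 1)
  have h3 := hc.zpow Φ (chi_ne T _) (u 2)
  have h4 := (h1.mul h2).mul h3
  rw [← map_mul, ← map_mul] at h4
  rw [T.χ_add, T.χ_add, ← chi_zpow, ← chi_zpow, ← chi_zpow]
  exact h4

theorem lead_smul (Φ : K →+* HahnSeries ℤ K)
    (hC : ∀ c : ℂ, Φ (algebraMap ℂ K c) = HahnSeries.single 0 (algebraMap ℂ K c)) {f : K} {w : ℤ}
    {m : K} (h : Lead (Φ f) w m) (c : ℂ) : Lead (Φ (c • f)) w (c • m) := by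
  rw [Algebra.smul_def, Algebra.smul_def, map_mul, hC]
  have := (Lead.single 0 (algebraMap ℂ K c)).mul h
  rwa [zero_add] at this

theorem lead_sum (Φ : K →+* HahnSeries ℤ K)
    (hC : ∀ c : ℂ, Φ (algebraMap ℂ K c) = HahnSeries.single 0 (algebraMap ℂ K c))
    {I : Type} (M : I → K) (w : I → ℤ) (N : I → K) (hM : ∀ u, Lead (Φ (M u)) (w u) (N u))
    (μ : ℤ) (s : Finset I) (a : I → ℂ) (hμ : ∀ u ∈ s, μ ≤ w u) :
    Lead (Φ (∑ u ∈ s, a u • M u)) μ (∑ u ∈ s, if w u = μ then a u • N u else 0) := by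
  classical
  induction s using Finset.induction_on with
  | empty => simpa using Lead.zero μ
  | insert v s hv ih =>
    rw [Finset.sum_insert hv, Finset.sum_insert hv, map_add]
    refine Lead.add ?_ (ih fun u hu => hμ u (Finset.mem_insert_of_mem hu))
    have h1 := lead_smul Φ hC (hM v) (a v)
    by_cases h : w v = μ
    · rw [if_pos h]
      rwa [h] at h1
    · rw [if_neg h]
      exact h1.zero_of_lt (lt_of_le_of_ne (hμ v (Finset.mem_insert_self v s)) (Ne.symm h))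

/-- Expansion along a family whose leading terms are independent characters. -/
theorem expand (T : TorusField 3 K) (Φ : K →+* HahnSeries ℤ K)
    (hC : ∀ c : ℂ, Φ (algebraMap ℂ K c) = HahnSeries.single 0 (algebraMap ℂ K c))
    {I : Type} (M : I → K) (w : I → ℤ) (L : I → (Fin 3 → ℤ)) (hL : Function.Injective L)
    (hM : ∀ u, Lead (Φ (M u)) (w u) (T.χ (L u))) (a : I →₀ ℂ) (l : ℤ)
    (hl : ∀ i < l, (Φ (Finsupp.linearCombination ℂ M a)).coeff i = 0) :
    (∀ u ∈ a.support, l ≤ w u) ∧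
      (Φ (Finsupp.linearCombination ℂ M a)).coeff l =
        ∑ u ∈ a.support, if w u = l then a u • T.χ (L u) else 0 := by
  classical
  have h0 : Finsupp.linearCombination ℂ M a = ∑ u ∈ a.support, a u • M u := by
    rw [Finsupp.linearCombination_apply, Finsupp.sum]
  have h1 : ∀ u ∈ a.support, l ≤ w u := by
    by_contra hne
    push Not at hne
    obtain ⟨u₀, hu₀, hlt⟩ := hne
    obtain ⟨u₁, hu₁, hmin⟩ := Finset.exists_min_image a.support w ⟨u₀, hu₀⟩
    have h2 : w u₁ < l := (hmin u₀ hu₀).trans_lt hlt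
    have h3 := lead_sum Φ hC M w (fun u => T.χ (L u)) hM (w u₁) a.support a hmin
    rw [← h0] at h3
    have h4 := hl _ h2
    rw [h3.2] at h4
    have hli : LinearIndependent ℂ fun u => T.χ (L u) := T.li.comp L hL
    have h5 := linearIndependent_iff'.1 hli a.support (fun u => if w u = w u₁ then a u else 0)
      (by
        rw [← h4]
        refine Finset.sum_congr rfl fun u _ => ?_
        by_cases h : w u = w u₁
        · rw [if_pos h, if_pos h]
        · rw [if_neg h, if_neg h, zero_smul]) u₁ hu₁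
    rw [if_pos rfl] at h5
    exact (Finsupp.mem_support_iff.1 hu₁) h5
  refine ⟨h1, ?_⟩
  rw [h0]
  exact (lead_sum Φ hC M w (fun u => T.χ (L u)) hM l a.support a h1).2

end Pool.Agent.Y179.SD
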