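import Pool.Agent.Y179.SD.Main

/-!
The toric variety of the data `dat2` is the projective plane.
-/

noncomputable section

namespace Pool.Agent.Y179.SD

open Pool.Agent.Helper774.KSing
open Pool.Agent.Helper774.KStab (TorusField)

variable {L : Type} [Field L] [Algebra ℂ L] (T : TorusField 2 L)

/-- homogeneous coordinates -/
def hcoord : Fin 3 → L := ![T.χ ![1, 0], T.χ ![0, 1], 1]

theorem chart_eq (σ i : Fin 3) (e f : Fin 2 → ℤ)
    (h : ∀ u : Fin 2 → ℤ, u ∈ Mset (wpsR 1 1 σ) 0 → ∃ a b : ℕ, u = a • e + b • f)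
    (he : e ∈ Mset (wpsR 1 1 σ) 0) (hf : f ∈ Mset (wpsR 1 1 σ) 0)
    (he' : ∃ j, hcoord T j / hcoord T i = T.χ e) (hf' : ∃ j, hcoord T j / hcoord T i = T.χ f)
    (hall : ∀ j, hcoord T j / hcoord T i = T.χ e ∨ hcoord T j / hcoord T i = T.χ f ∨
      hcoord T j / hcoord T i = 1) :
    cone T (wpsR 1 1 σ) = Algebra.adjoin ℂ (Set.range fun j => hcoord T j / hcoord T i) := by
  apply le_antisymm
  · unfold cone
    rw [Algebra.adjoin_le_iff]
    rintro _ ⟨u, hu, rfl⟩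
    obtain ⟨a, b, rfl⟩ := h u hu
    rw [T.χ_add, chi_nsmul', chi_nsmul']
    obtain ⟨j, hj⟩ := he'
    obtain ⟨k, hk⟩ := hf'
    have m1 : T.χ e ∈ Algebra.adjoin ℂ (Set.range fun j => hcoord T j / hcoord T i) :=
      Algebra.subset_adjoin ⟨j, hj⟩
    have m2 : T.χ f ∈ Algebra.adjoin ℂ (Set.range fun j => hcoord T j / hcoord T i) :=
      Algebra.subset_adjoin ⟨k, hk⟩
    exact Subalgebra.mul_mem _ (Subalgebra.pow_mem _ m1 a) (Subalgebra.pow_mem _ m2 b)
  · rw [Algebra.adjoin_le_iff]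
    rintro _ ⟨j, rfl⟩
    show hcoord T j / hcoord T i ∈ cone T (wpsR 1 1 σ)
    rcases hall j with h1 | h1 | h1
    · rw [h1]
      exact mem_cone_chi T _ he
    · rw [h1]
      exact mem_cone_chi T _ hf
    · rw [h1]
      exact (cone T (wpsR 1 1 σ)).one_mem

theorem chi_div (u v w : Fin 2 → ℤ) (h : u = w + v) : T.χ u / T.χ v = T.χ w := by
  rw [div_eq_iff (chi_ne' T v), ← T.χ_add, h]

theorem chi_inv (v w : Fin 2 → ℤ) (h : w + v = 0) : 1 / T.χ v = T.χ w := by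
  rw [div_eq_iff (chi_ne' T v), ← T.χ_add, h, T.χ_zero]

theorem vec2_ext {u v : Fin 2 → ℤ} (h0 : u 0 = v 0) (h1 : u 1 = v 1) : u = v := by
  funext i
  fin_cases i
  · exact h0
  · exact h1

theorem chart0 : cone T (wpsR 1 1 0) =
    Algebra.adjoin ℂ (Set.range fun j => hcoord T j / hcoord T 2) := by
  refine chart_eq T 0 2 ![1, 0] ![0, 1] ?_ ?_ ?_ ⟨0, ?_⟩ ⟨1, ?_⟩ ?_
  · intro u hu
    have h0 := hu 0
    have h1 := hu 1
    simp [wpsR, Matrix.vecMul, dotProduct, Fin.sum_univ_two] at h0 h1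
    refine ⟨(u 0).toNat, (u 1).toNat, vec2_ext ?_ ?_⟩
    · simp [h0]
    · simp [h1]
  · intro j
    fin_cases j <;> simp [wpsR, Matrix.vecMul, dotProduct, Fin.sum_univ_two]
  · intro j
    fin_cases j <;> simp [wpsR, Matrix.vecMul, dotProduct, Fin.sum_univ_two]
  · simp [hcoord]
  · simp [hcoord]
  · intro j
    fin_cases j
    · left; simp [hcoord]
    · right; left; simp [hcoord]
    · right; right; simp [hcoord]

theorem chart1 : cone T (wpsR 1 1 1) =
    Algebra.adjoin ℂ (Set.range fun j => hcoord T j / hcoord T 0) := by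
  have hne := chi_ne' T ![1, 0]
  have e1 : T.χ ![0, 1] / T.χ ![1, 0] = T.χ ![-1, 1] :=
    chi_div T _ _ _ (vec2_ext (by simp) (by simp))
  have e2 : 1 / T.χ ![1, 0] = T.χ ![-1, 0] := chi_inv T _ _ (vec2_ext (by simp) (by simp))
  refine chart_eq T 1 0 ![-1, 0] ![-1, 1] ?_ ?_ ?_ ⟨2, e2⟩ ⟨1, e1⟩ ?_
  · intro u hu
    have h0 := hu 0
    have h1 := hu 1
    simp [wpsR, Matrix.vecMul, dotProduct, Fin.sum_univ_two] at h0 h1
    refine ⟨(-u 0 - u 1).toNat, (u 1).toNat, vec2_ext ?_ ?_⟩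
    · simp
      omega
    · simp [h1]
  · intro j
    fin_cases j <;> simp [wpsR, Matrix.vecMul, dotProduct, Fin.sum_univ_two]
  · intro j
    fin_cases j <;> simp [wpsR, Matrix.vecMul, dotProduct, Fin.sum_univ_two]
  · intro j
    fin_cases j
    · right; right
      show T.χ ![1, 0] / T.χ ![1, 0] = 1
      exact div_self hne
    · right; left; exact e1
    · left; exact e2

theorem chart2 : cone T (wpsR 1 1 2) =
    Algebra.adjoin ℂ (Set.range fun j => hcoord T j / hcoord T 1) := by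
  have hne := chi_ne' T ![0, 1]
  have e1 : T.χ ![1, 0] / T.χ ![0, 1] = T.χ ![1, -1] :=
    chi_div T _ _ _ (vec2_ext (by simp) (by simp))
  have e2 : 1 / T.χ ![0, 1] = T.χ ![0, -1] := chi_inv T _ _ (vec2_ext (by simp) (by simp))
  refine chart_eq T 2 1 ![0, -1] ![1, -1] ?_ ?_ ?_ ⟨2, e2⟩ ⟨0, e1⟩ ?_
  · intro u hu
    have h0 := hu 0
    have h1 := hu 1
    simp [wpsR, Matrix.vecMul, dotProduct, Fin.sum_univ_two] at h0 h1
    refine ⟨(-u 0 - u 1).toNat, (u 0).toNat, vec2_ext ?_ ?_⟩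
    · simp [h1]
    · simp
      omega
  · intro j
    fin_cases j <;> simp [wpsR, Matrix.vecMul, dotProduct, Fin.sum_univ_two]
  · intro j
    fin_cases j <;> simp [wpsR, Matrix.vecMul, dotProduct, Fin.sum_univ_two]
  · intro j
    fin_cases j
    · right; left; exact e1
    · right; right
      show T.χ ![0, 1] / T.χ ![0, 1] = 1
      exact div_self hne
    · left; exact e2

theorem hcoord_ne (i : Fin 3) : hcoord T i ≠ 0 := by
  fin_cases i
  · exact chi_ne' T _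
  · exact chi_ne' T _
  · exact one_ne_zero

/-- the chart with the number `σ` is the complement of the line `x_i = 0` -/
theorem charts (σ i : Fin 3) (h : (σ = 0 ∧ i = 2) ∨ (σ = 1 ∧ i = 0) ∨ (σ = 2 ∧ i = 1)) :
    cone T (wpsR 1 1 σ) = Algebra.adjoin ℂ (Set.range fun j => hcoord T j / hcoord T i) := by
  rcases h with ⟨rfl, rfl⟩ | ⟨rfl, rfl⟩ | ⟨rfl, rfl⟩
  · exact chart0 T
  · exact chart1 T
  · exact chart2 T

/-- `dat2` is the data of `ℙ²`. -/
theorem isProj_dat2 : IsProj (toricVar T dat2) (⊥ : Ideal (MvPolynomial (Fin (2 + 1)) ℂ)) := by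
  refine ⟨hcoord T, ⟨2, hcoord_ne T 2⟩, ?_, ?_⟩
  · intro d f hf
    constructor
    · intro h
      have h1 : kap T 0 f = 0 := by
        rw [kap_apply]
        have : kp T f = MvPolynomial.aeval (hcoord T) f := rfl
        rw [this, h, mul_zero]
      have h2 := kap_inj T 0 d f hf h1
      refine ⟨0, fun g _ => ?_⟩
      rw [h2, mul_zero]
      exact Submodule.zero_mem _
    · rintro ⟨n, hn⟩
      have h1 := hn (MvPolynomial.X 0 ^ n) (by
        have := (MvPolynomial.isHomogeneous_X ℂ (0 : Fin 3)).pow n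
        rwa [one_mul] at this)
      rw [Ideal.mem_bot] at h1
      rcases mul_eq_zero.1 h1 with h2 | h2
      · exact absurd h2 (pow_ne_zero _ (MvPolynomial.X_ne_zero _))
      · rw [h2, map_zero]
  · have key : ∀ (σ i : Fin 3), ((σ = 0 ∧ i = 2) ∨ (σ = 1 ∧ i = 0) ∨ (σ = 2 ∧ i = 1)) →
        ∀ A : Set L, (∃ p : Ideal (cone T (wpsR 1 1 σ)), p.IsPrime ∧
          A = locRing (cone T (wpsR 1 1 σ)) p) ↔
        ∃ p : Ideal (Algebra.adjoin ℂ (Set.range fun j => hcoord T j / hcoord T i)), p.IsPrime ∧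
          A = locRing (Algebra.adjoin ℂ (Set.range fun j => hcoord T j / hcoord T i)) p := by
      intro σ i h A
      rw [charts T σ i h]
    ext A
    constructor
    · rintro ⟨σ, p, hp, rfl⟩
      revert σ
      intro (σ : Fin 3) p hp
      have hi : ∃ i : Fin 3, (σ = 0 ∧ i = 2) ∨ (σ = 1 ∧ i = 0) ∨ (σ = 2 ∧ i = 1) := by
        fin_cases σ
        · exact ⟨2, Or.inl ⟨rfl, rfl⟩⟩
        · exact ⟨0, Or.inr (Or.inl ⟨rfl, rfl⟩)⟩
        · exact ⟨1, Or.inr (Or.inr ⟨rfl, rfl⟩)⟩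
      obtain ⟨i, hi⟩ := hi
      exact ⟨i, hcoord_ne T i, (key σ i hi _).1 ⟨p, hp, rfl⟩⟩
    · rintro ⟨i, _, h⟩
      have hσ : ∃ σ : Fin 3, (σ = 0 ∧ i = 2) ∨ (σ = 1 ∧ i = 0) ∨ (σ = 2 ∧ i = 1) := by
        clear h
        revert i
        intro (i : Fin 3) _
        fin_cases i
        · exact ⟨1, Or.inr (Or.inl ⟨rfl, rfl⟩)⟩
        · exact ⟨2, Or.inr (Or.inr ⟨rfl, rfl⟩)⟩
        · exact ⟨0, Or.inl ⟨rfl, rfl⟩⟩
      obtain ⟨σ, hσ⟩ := hσ
      obtain ⟨p, hp, hA⟩ := (key σ i hσ A).2 h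
      exact ⟨σ, p, hp, hA⟩

/-- The projective plane is a klt Fano variety whose special degenerations are unbounded. -/
theorem main' : ∃ X : Variety, X.IsFano ∧ X.IsKlt ∧
    IsProj X (⊥ : Ideal (MvPolynomial (Fin (2 + 1)) ℂ)) ∧
    ¬ IsBounded {Y | IsSpecialDegeneration X Y} := by
  obtain ⟨K, _, _, ⟨T3⟩⟩ := Pool.Agent.Helper774.KStab.exists_torusField 3
  obtain ⟨L, _, _, ⟨T2⟩⟩ := Pool.Agent.Helper774.KStab.exists_torusField 2
  exact ⟨toricVar T2 dat2, toric_isFano T2 dat2, toric_klt T2 dat2, isProj_dat2 T2,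
    unbounded T2 T3⟩

end Pool.Agent.Y179.SD
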