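import Pool.Agent.Y179.SD.Deg

/-!
Finite generation of the Rees algebra.
-/

noncomputable section

namespace Pool.Agent.Y179.SD

open Pool.Agent.Helper774.KSing
open Pool.Agent.Helper774.KStab (TorusField)

variable {K L : Type} [Field K] [Algebra ℂ K] [Field L] [Algebra ℂ L]
  {T : TorusField 3 K} {t : ℕ} (S : Seed T (t + 1)) (T2 : TorusField 2 L)

namespace Seed

/-- `f` in degree `(m, l)` -/
abbrev sg (m : ℕ) (l : ℤ) (f : L) : AddMonoidAlgebra L (ℕ × ℤ) := AddMonoidAlgebra.single (m, l) f

/-- lifts of characters whose image is in the subalgebra `C` -/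
def Good (C : Subalgebra ℂ (AddMonoidAlgebra L (ℕ × ℤ))) (m : ℕ) (u : Fin 3 → ℤ) : Prop :=
  ∃ g ∈ S.PF (3 * m) (u 0 + u 1), S.cf (u 0 + u 1) g = T.χ u ∧ sg m (u 0 + u 1) (kap T2 m g) ∈ C

variable {S T2} in
theorem Good.add {C : Subalgebra ℂ (AddMonoidAlgebra L (ℕ × ℤ))} {m m' : ℕ} {u v : Fin 3 → ℤ}
    (hu : S.Good T2 C m u) (hv : S.Good T2 C m' v) : S.Good T2 C (m + m') (u + v) := by
  obtain ⟨g, hg, hg1, hg2⟩ := hu
  obtain ⟨h, hh, hh1, hh2⟩ := hv
  have e : (u + v) 0 + (u + v) 1 = (u 0 + u 1) + (v 0 + v 1) := by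
    simp only [Pi.add_apply]
    ring
  obtain ⟨h1, h2⟩ := S.PF_mul hg hh
  refine ⟨g * h, ?_, ?_, ?_⟩
  · rw [e, mul_add]
    exact h1
  · rw [e, h2, hg1, hh1, T.χ_add]
  · rw [e, kap_mul]
    have := C.mul_mem hg2 hh2
    rw [AddMonoidAlgebra.single_mul_single] at this
    exact this

/-- All characters have good lifts if those of bounded degree do. -/
theorem good_all (ht : 1 ≤ t) (C : Subalgebra ℂ (AddMonoidAlgebra L (ℕ × ℤ))) (W : ℕ)
    (hW : (W : ℤ) = 3 * E (t + 1) * E (t + 2))
    (hC : ∀ m ≤ W, ∀ u ∈ Sset (E (t + 1)) (E (t + 2)) ((3 * m : ℕ) : ℤ), S.Good T2 C m u) :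
    ∀ m, ∀ u ∈ Sset (E (t + 1)) (E (t + 2)) ((3 * m : ℕ) : ℤ), S.Good T2 C m u := by
  have hm := markov t
  have ha := E_pos (t + 1)
  have hb := E_pos (t + 2)
  set a := E (t + 1) with hadef
  set b := E (t + 2) with hbdef
  intro m
  induction m using Nat.strong_induction_on with
  | _ m ih =>
    intro u hu
    rcases le_or_gt m W with h | h
    · exact hC m h u hu
    · have key : ∀ (k : ℕ) (v : Fin 3 → ℤ), 1 ≤ k → k ≤ W → v ∈ Sset a b ((3 * k : ℕ) : ℤ) →
          u - v ∈ Sset a b ((3 * (m - k) : ℕ) : ℤ) → S.Good T2 C m u := by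
        intro k v hk hkW hv huv
        have h1 := ih (m - k) (by omega) (u - v) huv
        have h2 := hC k hkW v hv
        have h3 := h1.add h2
        rwa [sub_add_cancel, Nat.sub_add_cancel (by omega)] at h3
      obtain ⟨h1, h2, h3, h4⟩ := hu
      have h1' : a * u 0 + b * u 1 + 3 * u 2 = 3 * m := by rw [h1]; push_cast; rfl
      have e : u 2 + a ^ 2 * (b * u 0 + u 2) + b ^ 2 * (a * u 1 + u 2) = (W : ℤ) * m := by
        rw [hW]
        linear_combination a * b * h1' + u 2 * hm
      have hWpos : (1 : ℤ) ≤ W := by rw [hW]; nlinarith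
      have haW : a ^ 2 ≤ W := by rw [hW, ← hm]; nlinarith
      have hbW : b ^ 2 ≤ W := by rw [hW, ← hm]; nlinarith
      have hmW : (W : ℤ) < m := by exact_mod_cast h
      by_cases c1 : (W : ℤ) ≤ u 2
      · refine key 1 ![-3 * a, -3 * b, 3 * a * b] le_rfl (by exact_mod_cast hWpos) ?_ ?_
        · simp only [Sset, Set.mem_setOf_eq, Matrix.cons_val_zero, Matrix.cons_val_one,
            Matrix.cons_val]
          refine ⟨?_, by positivity, ?_, ?_⟩
          · push_cast
            linear_combination -3 * hm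
          · have : a * (-3 * b) + 3 * a * b = 0 := by ring
            rw [this]
          · have : b * (-3 * a) + 3 * a * b = 0 := by ring
            rw [this]
        · simp only [Sset, Set.mem_setOf_eq, Pi.sub_apply, Matrix.cons_val_zero,
            Matrix.cons_val_one, Matrix.cons_val]
          refine ⟨?_, ?_, ?_, ?_⟩
          · push_cast [Nat.cast_sub (show 1 ≤ m by omega)]
            linear_combination h1' + 3 * hm
          · linarith
          · have : a * (u 1 - -3 * b) + (u 2 - 3 * a * b) = a * u 1 + u 2 := by ring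
            rw [this]; exact h3
          · have : b * (u 0 - -3 * a) + (u 2 - 3 * a * b) = b * u 0 + u 2 := by ring
            rw [this]; exact h4
      · by_cases c2 : (W : ℤ) ≤ b * u 0 + u 2
        · have hk : ((a ^ 2).toNat : ℤ) = a ^ 2 := Int.toNat_of_nonneg (by positivity)
          have hk1 : 1 ≤ (a ^ 2).toNat := by
            have : (1 : ℤ) ≤ ((a ^ 2).toNat : ℤ) := by rw [hk]; nlinarith
            exact_mod_cast this
          have hk2 : (a ^ 2).toNat ≤ W := by
            have : ((a ^ 2).toNat : ℤ) ≤ W := by rw [hk]; exact haW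
            exact_mod_cast this
          refine key (a ^ 2).toNat ![3 * a, 0, 0] hk1 hk2 ?_ ?_
          · simp only [Sset, Set.mem_setOf_eq, Matrix.cons_val_zero, Matrix.cons_val_one,
              Matrix.cons_val]
            refine ⟨?_, le_rfl, ?_, by positivity⟩
            · push_cast [hk]
              ring
            · simp
          · simp only [Sset, Set.mem_setOf_eq, Pi.sub_apply, Matrix.cons_val_zero,
              Matrix.cons_val_one, Matrix.cons_val]
            refine ⟨?_, ?_, ?_, ?_⟩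
            · push_cast [Nat.cast_sub (show (a ^ 2).toNat ≤ m by omega), hk]
              linear_combination h1'
            · linarith
            · linarith
            · have : b * (u 0 - 3 * a) + (u 2 - 0) = b * u 0 + u 2 - W := by rw [hW]; ring
              rw [this]; linarith
        · by_cases c3 : (W : ℤ) ≤ a * u 1 + u 2
          · have hk : ((b ^ 2).toNat : ℤ) = b ^ 2 := Int.toNat_of_nonneg (by positivity)
            have hk1 : 1 ≤ (b ^ 2).toNat := by
              have : (1 : ℤ) ≤ ((b ^ 2).toNat : ℤ) := by rw [hk]; nlinarith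
              exact_mod_cast this
            have hk2 : (b ^ 2).toNat ≤ W := by
              have : ((b ^ 2).toNat : ℤ) ≤ W := by rw [hk]; exact hbW
              exact_mod_cast this
            refine key (b ^ 2).toNat ![0, 3 * b, 0] hk1 hk2 ?_ ?_
            · simp only [Sset, Set.mem_setOf_eq, Matrix.cons_val_zero, Matrix.cons_val_one,
                Matrix.cons_val]
              refine ⟨?_, le_rfl, by positivity, ?_⟩
              · push_cast [hk]
                ring
              · simp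
            · simp only [Sset, Set.mem_setOf_eq, Pi.sub_apply, Matrix.cons_val_zero,
                Matrix.cons_val_one, Matrix.cons_val]
              refine ⟨?_, ?_, ?_, ?_⟩
              · push_cast [Nat.cast_sub (show (b ^ 2).toNat ≤ m by omega), hk]
                linear_combination h1'
              · linarith
              · have : a * (u 1 - 3 * b) + (u 2 - 0) = a * u 1 + u 2 - W := by rw [hW]; ring
                rw [this]; linarith
              · linarith
          · exfalso
            push Not at c1 c2 c3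
            have k1 : a ^ 2 * (b * u 0 + u 2) ≤ a ^ 2 * W :=
              mul_le_mul_of_nonneg_left c2.le (by positivity)
            have k2 : b ^ 2 * (a * u 1 + u 2) ≤ b ^ 2 * W :=
              mul_le_mul_of_nonneg_left c3.le (by positivity)
            have k3 : (W : ℤ) * m ≤ W * (1 + a ^ 2 + b ^ 2) := by
              rw [← e]
              linarith
            rw [hm, ← hW] at k3
            nlinarith

theorem rees_fg (ht : 1 ≤ t) : (S.fil T2 ht).rees.FG := by
  classical
  have ha := E_pos (t + 1)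
  have hb := E_pos (t + 2)
  obtain ⟨W, hW⟩ : ∃ W : ℕ, (W : ℤ) = 3 * E (t + 1) * E (t + 2) :=
    ⟨(3 * E (t + 1) * E (t + 2)).toNat, Int.toNat_of_nonneg (by positivity)⟩
  have hl : ∀ (m : ℕ) (u : Fin 3 → ℤ), ∃ g : MvPolynomial (Fin 3) ℂ,
      u ∈ Sset (E (t + 1)) (E (t + 2)) ((3 * m : ℕ) : ℤ) →
      g ∈ S.PF (3 * m) (u 0 + u 1) ∧ S.cf (u 0 + u 1) g = T.χ u := by
    intro m u
    by_cases hu : u ∈ Sset (E (t + 1)) (E (t + 2)) ((3 * m : ℕ) : ℤ)
    · obtain ⟨g, hg, hg'⟩ := S.exists_lift ht (3 * m) u hu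
      exact ⟨g, fun _ => ⟨hg, hg'⟩⟩
    · exact ⟨0, fun h => absurd h hu⟩
  choose lift hlift using hl
  let gens : Set (AddMonoidAlgebra L (ℕ × ℤ)) := {sg 0 (-1) 1} ∪
    ⋃ m ∈ Set.Iic W, (fun u : Fin 3 → ℤ => sg m (u 0 + u 1) (kap T2 m (lift m u))) ''
      Sset (E (t + 1)) (E (t + 2)) ((3 * m : ℕ) : ℤ)
  have hfin : gens.Finite := by
    refine (Set.finite_singleton _).union ?_
    refine Set.Finite.biUnion (Set.finite_Iic W) fun m _ => ?_
    exact (Sset_count (t + 1) (by omega) (3 * m)).1.image _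
  have hF0 : (1 : L) ∈ (S.fil T2 ht).F 0 (-1) := by
    have h1 := (S.fil T2 ht).anti 0 (-1)
    exact h1 (S.fil T2 ht).one
  set C := Algebra.adjoin ℂ gens with hCdef
  have ht0 : sg 0 (-1) 1 ∈ C := Algebra.subset_adjoin (Or.inl rfl)
  have hgood := S.good_all T2 ht C W hW (by
    intro m hm u hu
    obtain ⟨h1, h2⟩ := hlift m u hu
    refine ⟨lift m u, h1, h2, Algebra.subset_adjoin (Or.inr ?_)⟩
    rw [Set.mem_iUnion₂]
    exact ⟨m, hm, u, hu, rfl⟩)
  have hspan : ∀ (m : ℕ) (l : ℤ) (f : K), f ∈ Submodule.span ℂ (T.χ '' Sl t (3 * m) l) →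
      ∃ h ∈ S.PF (3 * m) l, S.cf l h = f ∧ sg m l (kap T2 m h) ∈ C := by
    intro m l f hf
    induction hf using Submodule.span_induction with
    | mem x hx =>
      obtain ⟨u, hu, rfl⟩ := hx
      obtain ⟨g, h1, h2, h3⟩ := hgood m u hu.1
      rw [hu.2] at h1 h2 h3
      exact ⟨g, h1, h2, h3⟩
    | zero =>
      refine ⟨0, Submodule.zero_mem _, map_zero _, ?_⟩
      rw [map_zero, sg, AddMonoidAlgebra.single_zero]
      exact C.zero_mem
    | add x y _ _ hx hy =>
      obtain ⟨h, h1, h2, h3⟩ := hx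
      obtain ⟨h', h1', h2', h3'⟩ := hy
      refine ⟨h + h', Submodule.add_mem _ h1 h1', by rw [map_add, h2, h2'], ?_⟩
      rw [map_add, sg, AddMonoidAlgebra.single_add]
      exact C.add_mem h3 h3'
    | smul c x _ hx =>
      obtain ⟨h, h1, h2, h3⟩ := hx
      refine ⟨c • h, Submodule.smul_mem _ _ h1, by rw [map_smul, h2], ?_⟩
      rw [map_smul, sg, ← AddMonoidAlgebra.smul_single]
      exact C.smul_mem h3 c
  have hall : ∀ (m : ℕ) (l : ℤ) (g : MvPolynomial (Fin 3) ℂ), g ∈ S.PF (3 * m) l →
      sg m l (kap T2 m g) ∈ C := by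
    intro m
    obtain ⟨B, b1, b2, b3, b4⟩ := S.PF_low ht (3 * m)
    have hk : ∀ (k : ℕ) (l : ℤ), B - k ≤ l → ∀ g ∈ S.PF (3 * m) l, sg m l (kap T2 m g) ∈ C := by
      intro k
      induction k with
      | zero =>
        intro l hl g hg
        rw [b2 l (by simpa using hl)] at hg
        rw [(Submodule.mem_bot ℂ).1 hg, map_zero, sg, AddMonoidAlgebra.single_zero]
        exact C.zero_mem
      | succ k ih =>
        intro l hl g hg
        have h1 : S.cf l g ∈ Submodule.span ℂ (T.χ '' Sl t (3 * m) l) := by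
          rw [← S.map_eq ht]
          exact ⟨g, hg, rfl⟩
        obtain ⟨h, hh1, hh2, hh3⟩ := hspan m l _ h1
        have h2 : g - h ∈ S.PF (3 * m) (l + 1) :=
          S.mem_PF_succ.2 ⟨Submodule.sub_mem _ hg hh1, by rw [map_sub, hh2, sub_self]⟩
        have h3 := ih (l + 1) (by push_cast at hl; omega) _ h2
        have h4 : sg m l (kap T2 m g) = sg m l (kap T2 m h) + sg m (l + 1) (kap T2 m (g - h)) *
            sg 0 (-1) 1 := by
          rw [AddMonoidAlgebra.single_mul_single]
          have : ((m, l + 1) : ℕ × ℤ) + (0, -1) = (m, l) := by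
            ext
            · simp
            · simp
          rw [this, mul_one, ← AddMonoidAlgebra.single_add, ← map_add]
          congr 2
          ring
        rw [h4]
        exact C.add_mem hh3 (C.mul_mem h3 ht0)
    intro l g hg
    exact hk (B - l).toNat l (by omega) g hg
  have hle : (S.fil T2 ht).rees ≤ C := by
    unfold Filtration.rees
    rw [Algebra.adjoin_le_iff]
    rintro _ ⟨m, l, _, ⟨g, hg, rfl⟩, rfl⟩
    exact hall m l g hg
  have hge : C ≤ (S.fil T2 ht).rees := by
    rw [hCdef, Algebra.adjoin_le_iff]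
    rintro x (hx | hx)
    · rw [Set.mem_singleton_iff] at hx
      exact Algebra.subset_adjoin ⟨0, -1, 1, hF0, hx⟩
    · rw [Set.mem_iUnion₂] at hx
      obtain ⟨m, _, u, hu, rfl⟩ := hx
      exact Algebra.subset_adjoin ⟨m, _, _, ⟨_, (hlift m u hu).1, rfl⟩, rfl⟩
  rw [le_antisymm hle hge, Subalgebra.fg_def]
  exact ⟨gens, hfin, rfl⟩

/-- `ℙ(1, E_{t+1}², E_{t+2}²)` is a special degeneration of `ℙ²`. -/
theorem isSpecialDegeneration (T : TorusField 3 K) (T2 : TorusField 2 L) (t : ℕ) (ht : 1 ≤ t) :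
    IsSpecialDegeneration (toricVar T2 dat2) (toricVar T2 (dat t)) := by
  obtain ⟨S⟩ := exists_seed T (t + 1)
  exact ⟨toric_isFano T2 (dat t), toric_klt T2 (dat t), 1, le_rfl, S.fil T2 ht, S.rees_fg T2 ht,
    S.grIso T2 ht⟩

end Seed

end Pool.Agent.Y179.SD
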