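import Pool.Agent.Y179.SD.Count

/-!
Every character of the toric ring is the lowest term of a form on the projective plane.
-/

noncomputable section

namespace Pool.Agent.Y179.SD

open Pool.Agent.Helper774.KSing
open Pool.Agent.Helper774.KStab (TorusField)

variable {K : Type} [Field K] [Algebra ℂ K]

namespace Seed

variable {T : TorusField 3 K} {t : ℕ} (S : Seed T (t + 1))

/-- the coefficient of degree `l` -/
def cf (l : ℤ) : MvPolynomial (Fin 3) ℂ →ₗ[ℂ] K where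
  toFun g := (S.Ψ (S.ι g)).coeff l
  map_add' g h := by rw [map_add, map_add, HahnSeries.coeff_add]
  map_smul' c g := by
    rw [map_smul, Algebra.smul_def, map_mul, S.hCΨ, RingHom.id_apply, Algebra.smul_def]
    have := HahnSeries.coeff_single_mul_add (r := algebraMap ℂ K c) (x := S.Ψ (S.ι g)) (a := l)
      (b := 0)
    rwa [add_zero] at this

theorem cf_apply (l : ℤ) (g : MvPolynomial (Fin 3) ℂ) : S.cf l g = (S.Ψ (S.ι g)).coeff l := rfl

/-- the filtration of the forms of degree `m` -/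
def PF (m : ℕ) (l : ℤ) : Submodule ℂ (MvPolynomial (Fin 3) ℂ) where
  carrier := {g | g.IsHomogeneous m ∧ ∀ i < l, S.cf i g = 0}
  add_mem' := by
    rintro g h ⟨hg, hg'⟩ ⟨hh, hh'⟩
    exact ⟨hg.add hh, fun i hi => by rw [map_add, hg' i hi, hh' i hi, add_zero]⟩
  zero_mem' := ⟨MvPolynomial.isHomogeneous_zero _ _ _, fun i _ => map_zero _⟩
  smul_mem' := by
    rintro c g ⟨hg, hg'⟩
    exact ⟨(MvPolynomial.homogeneousSubmodule (Fin 3) ℂ m).smul_mem c hg,
      fun i hi => by rw [map_smul, hg' i hi, smul_zero]⟩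

theorem mem_PF {m : ℕ} {l : ℤ} {g : MvPolynomial (Fin 3) ℂ} :
    g ∈ S.PF m l ↔ g.IsHomogeneous m ∧ ∀ i < l, S.cf i g = 0 := Iff.rfl

theorem mem_PF_succ {m : ℕ} {l : ℤ} {g : MvPolynomial (Fin 3) ℂ} :
    g ∈ S.PF m (l + 1) ↔ g ∈ S.PF m l ∧ S.cf l g = 0 := by
  rw [mem_PF, mem_PF]
  constructor
  · rintro ⟨h1, h2⟩
    exact ⟨⟨h1, fun i hi => h2 i (by omega)⟩, h2 l (by omega)⟩
  · rintro ⟨⟨h1, h2⟩, h3⟩
    refine ⟨h1, fun i hi => ?_⟩
    rcases lt_or_eq_of_le (show i ≤ l by omega) with h | h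
    · exact h2 i h
    · rw [h]; exact h3

theorem PF_anti {m : ℕ} {l l' : ℤ} (h : l ≤ l') : S.PF m l' ≤ S.PF m l :=
  fun _ hg => ⟨hg.1, fun i hi => hg.2 i (by omega)⟩

theorem PF_lead {m : ℕ} {l : ℤ} {g : MvPolynomial (Fin 3) ℂ} (hg : g ∈ S.PF m l) :
    Lead (S.Ψ (S.ι g)) l (S.cf l g) := ⟨fun i hi => hg.2 i hi, rfl⟩

theorem PF_mul {m m' : ℕ} {l l' : ℤ} {g h : MvPolynomial (Fin 3) ℂ} (hg : g ∈ S.PF m l)
    (hh : h ∈ S.PF m' l') : g * h ∈ S.PF (m + m') (l + l') ∧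
      S.cf (l + l') (g * h) = S.cf l g * S.cf l' h := by
  have h1 := (S.PF_lead hg).mul (S.PF_lead hh)
  rw [← map_mul, ← map_mul] at h1
  exact ⟨⟨hg.1.mul hh.1, fun i hi => h1.1 i hi⟩, h1.2⟩

theorem PF_one : (1 : MvPolynomial (Fin 3) ℂ) ∈ S.PF 0 0 ∧ S.cf 0 1 = 1 := by
  have h1 : Lead (S.Ψ (S.ι 1)) 0 1 := by
    rw [map_one, map_one]
    exact Lead.one
  exact ⟨⟨MvPolynomial.isHomogeneous_one _ _, fun i hi => h1.1 i hi⟩, h1.2⟩

/-- a lower bound of the orders -/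
theorem exists_order (ht : 1 ≤ t) (m : ℕ) (g : MvPolynomial (Fin 3) ℂ) (hg : g.IsHomogeneous m)
    (h0 : g ≠ 0) : ∃ u ∈ Sset (E (t + 1)) (E (t + 2)) m, g ∈ S.PF m (u 0 + u 1) ∧
      S.cf (u 0 + u 1) g ≠ 0 := by
  have h1 : S.Ψ (S.ι g) ≠ 0 := by
    rw [Ne, map_eq_zero]
    intro h
    exact h0 (S.ι_inj (by omega) (by rw [h, map_zero]))
  have h2 : ∀ i < (S.Ψ (S.ι g)).order, (S.Ψ (S.ι g)).coeff i = 0 := fun i hi =>
    HahnSeries.coeff_eq_zero_of_lt_order hi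
  have h3 : (S.Ψ (S.ι g)).coeff (S.Ψ (S.ι g)).order ≠ 0 := HahnSeries.coeff_order_eq_zero.not.2 h1
  have h4 := S.coeff_mem ht m g hg _ h2
  have h5 : ({u | u ∈ Sset (E (t + 1)) (E (t + 2)) m ∧ u 0 + u 1 = (S.Ψ (S.ι g)).order} :
      Set (Fin 3 → ℤ)).Nonempty := by
    rw [Set.nonempty_iff_ne_empty]
    intro h
    rw [h, Set.image_empty, Submodule.span_empty, Submodule.mem_bot] at h4
    exact h3 h4
  obtain ⟨u, hu1, hu2⟩ := h5
  refine ⟨u, hu1, ?_, ?_⟩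
  · rw [hu2]
    exact ⟨hg, h2⟩
  · rw [hu2]
    exact h3

/-- the characters of weight `l` -/
def Sl (t m : ℕ) (l : ℤ) : Set (Fin 3 → ℤ) :=
  {u | u ∈ Sset (E (t + 1)) (E (t + 2)) m ∧ u 0 + u 1 = l}

/-- the characters of weight at least `l` -/
def Sg (t m : ℕ) (l : ℤ) : Set (Fin 3 → ℤ) :=
  {u | u ∈ Sset (E (t + 1)) (E (t + 2)) m ∧ l ≤ u 0 + u 1}

theorem Sg_finite (t m : ℕ) (l : ℤ) : (Sg t m l).Finite :=
  (Sset_count (t + 1) (by omega) m).1.subset fun _ hu => hu.1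

theorem Sl_finite (t m : ℕ) (l : ℤ) : (Sl t m l).Finite :=
  (Sset_count (t + 1) (by omega) m).1.subset fun _ hu => hu.1

theorem Sg_ncard (t m : ℕ) (l : ℤ) : (Sg t m l).ncard = (Sl t m l).ncard + (Sg t m (l + 1)).ncard := by
  rw [← Set.ncard_union_eq _ (Sl_finite t m l) (Sg_finite t m (l + 1))]
  · congr 1
    ext u
    constructor
    · rintro ⟨h1, h2⟩
      rcases eq_or_lt_of_le h2 with h | h
      · exact Or.inl ⟨h1, h.symm⟩
      · exact Or.inr ⟨h1, by omega⟩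
    · rintro (⟨h1, h2⟩ | ⟨h1, h2⟩)
      · exact ⟨h1, h2.ge⟩
      · exact ⟨h1, by omega⟩
  · rw [Set.disjoint_left]
    rintro u ⟨_, h2⟩ ⟨_, h4⟩
    omega

theorem bounds (t m : ℕ) : ∃ B : ℤ, ∀ u ∈ Sset (E (t + 1)) (E (t + 2)) m, -B < u 0 + u 1 ∧
    u 0 + u 1 < B := by
  have hf := (Sset_count (t + 1) (by omega) m).1
  obtain ⟨B, hB⟩ := (hf.image fun u => |u 0 + u 1|).bddAbove
  refine ⟨B + 1, fun u hu => ?_⟩
  have h1 : |u 0 + u 1| ≤ B := hB ⟨u, hu, rfl⟩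
  have h2 := abs_le.1 h1
  constructor <;> omega

theorem PF_low (ht : 1 ≤ t) (m : ℕ) : ∃ B : ℤ,
    (∀ l ≤ -B, S.PF m l = MvPolynomial.homogeneousSubmodule (Fin 3) ℂ m) ∧
    (∀ l ≥ B, S.PF m l = ⊥) ∧ (∀ l ≤ -B, Sg t m l = Sset (E (t + 1)) (E (t + 2)) m) ∧
    (∀ l ≥ B, Sg t m l = ∅) := by
  obtain ⟨B, hB⟩ := bounds t m
  refine ⟨B, fun l hl => ?_, fun l hl => ?_, fun l hl => ?_, fun l hl => ?_⟩
  · apply le_antisymm
    · exact fun g hg => hg.1
    · intro g hg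
      by_cases h0 : g = 0
      · rw [h0]; exact Submodule.zero_mem _
      · obtain ⟨u, hu1, hu2, _⟩ := S.exists_order ht m g hg h0
        exact S.PF_anti (by have := hB u hu1; omega) hu2
  · rw [eq_bot_iff]
    intro g hg
    by_contra h0
    obtain ⟨u, hu1, hu2, hu3⟩ := S.exists_order ht m g hg.1 h0
    exact hu3 (hg.2 _ (by have := hB u hu1; omega))
  · ext u
    exact ⟨fun h => h.1, fun h => ⟨h, by have := hB u h; omega⟩⟩
  · ext u
    simp only [Set.mem_empty_iff_false, iff_false]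
    rintro ⟨h1, h2⟩
    have := hB u h1
    omega

instance PF_fin (m : ℕ) (l : ℤ) : Module.Finite ℂ (S.PF m l) := by
  have h1 : Module.Finite ℂ (MvPolynomial.homogeneousSubmodule (Fin 3) ℂ m) :=
    Module.Finite.iff_fg.2 (MvPolynomial.homogeneousSubmodule_fg (Fin 3) ℂ m)
  have h2 : S.PF m l ≤ MvPolynomial.homogeneousSubmodule (Fin 3) ℂ m := fun g hg => hg.1
  exact Submodule.finiteDimensional_of_le h2

theorem PF_finrank (m : ℕ) (l : ℤ) : Module.finrank ℂ (S.PF m l) =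
    Module.finrank ℂ ((S.PF m l).map (S.cf l)) + Module.finrank ℂ (S.PF m (l + 1)) := by
  have h1 := LinearMap.finrank_range_add_finrank_ker ((S.cf l).domRestrict (S.PF m l))
  have h2 : LinearMap.range ((S.cf l).domRestrict (S.PF m l)) = (S.PF m l).map (S.cf l) := by
    rw [LinearMap.range_domRestrict]
  have h3 : LinearMap.ker ((S.cf l).domRestrict (S.PF m l)) =
      (S.PF m (l + 1)).comap (S.PF m l).subtype := by
    ext g
    rw [LinearMap.mem_ker, Submodule.mem_comap, mem_PF_succ]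
    exact ⟨fun h => ⟨g.2, h⟩, fun h => h.2⟩
  have h4 := (Submodule.comapSubtypeEquivOfLe (S.PF_anti (m := m) (show l ≤ l + 1 by omega))).finrank_eq
  rw [h2, h3, h4] at h1
  exact h1.symm

theorem map_le (ht : 1 ≤ t) (m : ℕ) (l : ℤ) :
    (S.PF m l).map (S.cf l) ≤ Submodule.span ℂ (T.χ '' Sl t m l) := by
  rintro _ ⟨g, hg, rfl⟩
  exact S.coeff_mem ht m g hg.1 l hg.2

theorem span_fin (T : TorusField 3 K) {A : Set (Fin 3 → ℤ)} (hA : A.Finite) :
    Module.Finite ℂ (Submodule.span ℂ (T.χ '' A)) ∧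
    Module.finrank ℂ (Submodule.span ℂ (T.χ '' A)) = A.ncard := by
  have h1 : (T.χ '' A).Finite := hA.image _
  refine ⟨Module.Finite.span_of_finite ℂ h1, ?_⟩
  have : Fintype A := hA.fintype
  have h2 : LinearIndependent ℂ (fun u : A => T.χ u) := T.li.comp _ Subtype.val_injective
  have h3 := finrank_span_eq_card h2
  rw [Set.image_eq_range, h3, ← Nat.card_coe_set_eq, Nat.card_eq_fintype_card]

theorem PF_count (ht : 1 ≤ t) (m : ℕ) (l : ℤ) :
    Module.finrank ℂ (S.PF m l) = (Sg t m l).ncard := by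
  obtain ⟨B, b1, b2, b3, b4⟩ := S.PF_low ht m
  have hmono : Monotone fun l : ℤ => (Module.finrank ℂ (S.PF m l) : ℤ) - (Sg t m l).ncard := by
    refine monotone_int_of_le_succ fun l => ?_
    have h1 := S.PF_finrank m l
    have h2 := Sg_ncard t m l
    obtain ⟨f1, f2⟩ := span_fin T (Sl_finite t m l)
    have h3 := Submodule.finrank_mono (S.map_le ht m l)
    rw [f2] at h3
    have : (Module.finrank ℂ (S.PF m l) : ℤ) - (Sg t m l).ncard ≤
      (Module.finrank ℂ (S.PF m (l + 1)) : ℤ) - (Sg t m (l + 1)).ncard := by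
      rw [h1, h2]
      push_cast
      have : (Module.finrank ℂ ((S.PF m l).map (S.cf l)) : ℤ) ≤ (Sl t m l).ncard := by
        exact_mod_cast h3
      linarith
    exact this
  have h1 := hmono (min_le_left l (-B))
  have h2 := hmono (le_max_left l B)
  have e1 : (Module.finrank ℂ (S.PF m (min l (-B))) : ℤ) - (Sg t m (min l (-B))).ncard = 0 := by
    rw [b1 _ (min_le_right _ _), b3 _ (min_le_right _ _), finrank_hom,
      (Sset_count (t + 1) (by omega) m).2, sub_self]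
  have e2 : (Module.finrank ℂ (S.PF m (max l B)) : ℤ) - (Sg t m (max l B)).ncard = 0 := by
    rw [b2 _ (le_max_right _ _), b4 _ (le_max_right _ _)]
    simp
  simp only at h1 h2
  rw [e1] at h1
  rw [e2] at h2
  omega

theorem map_eq (ht : 1 ≤ t) (m : ℕ) (l : ℤ) :
    (S.PF m l).map (S.cf l) = Submodule.span ℂ (T.χ '' Sl t m l) := by
  obtain ⟨f1, f2⟩ := span_fin T (Sl_finite t m l)
  apply Submodule.eq_of_le_of_finrank_eq (S.map_le ht m l)
  rw [f2]
  have h1 := S.PF_finrank m l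
  rw [S.PF_count ht, S.PF_count ht, Sg_ncard] at h1
  omega

/-- every character of the toric ring is the lowest term of a form -/
theorem exists_lift (ht : 1 ≤ t) (m : ℕ) (u : Fin 3 → ℤ)
    (hu : u ∈ Sset (E (t + 1)) (E (t + 2)) m) : ∃ g ∈ S.PF m (u 0 + u 1),
      S.cf (u 0 + u 1) g = T.χ u := by
  have h : T.χ u ∈ (S.PF m (u 0 + u 1)).map (S.cf (u 0 + u 1)) := by
    rw [S.map_eq ht]
    exact Submodule.subset_span ⟨u, ⟨hu, rfl⟩, rfl⟩
  obtain ⟨g, hg, e⟩ := h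
  exact ⟨g, hg, e⟩

end Seed

end Pool.Agent.Y179.SD
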