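import Pool.Agent.Helper774.KSing.Bd
import Pool.Agent.Y179.SD.Surj

/-!
The weighted projective planes `ℙ(1, A, B)` as toric varieties.
-/

noncomputable section

namespace Pool.Agent.Y179.SD

open Pool.Agent.Helper774.KSing
open Pool.Agent.Helper774.KStab (TorusField)

/-- The maximal cones of the fan of `ℙ(1, A, B)`; the rays are `(1, 0)`, `(0, 1)`, `(-A, -B)`. -/
def wpsR (A B : ℤ) : Fin 3 → Matrix (Fin 2) (Fin 2) ℤ
  | 0 => !![1, 0; 0, 1]
  | 1 => !![-A, 0; -B, 1]
  | 2 => !![-A, 1; -B, 0]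

/-- The vertices of the polytope, multiplied by `A B`. -/
def wpsW (A B : ℤ) : Fin 3 → Fin 2 → ℤ
  | 0 => ![-(A * B), -(A * B)]
  | 1 => ![B * (1 + B), -(A * B)]
  | 2 => ![-(A * B), A * (1 + A)]

theorem wps_det (A B : ℤ) (hA : 1 ≤ A) (hB : 1 ≤ B) : ∀ σ, (wpsR A B σ).det ≠ 0 := by
  intro σ
  fin_cases σ <;> simp only [wpsR, Matrix.det_fin_two_of, ne_eq] <;> omega

theorem wps_prim (A B : ℤ) (h : IsCoprime A B) :
    ∀ σ j, ∃ u, Matrix.vecMul u (wpsR A B σ) j = 1 := by
  obtain ⟨x, y, hxy⟩ := h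
  intro σ j
  fin_cases σ <;> fin_cases j
  · exact ⟨![1, 0], by simp [wpsR, Matrix.vecMul, dotProduct, Fin.sum_univ_two]⟩
  · exact ⟨![0, 1], by simp [wpsR, Matrix.vecMul, dotProduct, Fin.sum_univ_two]⟩
  · exact ⟨![-x, -y], by simp [wpsR, Matrix.vecMul, dotProduct, Fin.sum_univ_two, hxy]⟩
  · exact ⟨![0, 1], by simp [wpsR, Matrix.vecMul, dotProduct, Fin.sum_univ_two]⟩
  · exact ⟨![-x, -y], by simp [wpsR, Matrix.vecMul, dotProduct, Fin.sum_univ_two, hxy]⟩
  · exact ⟨![1, 0], by simp [wpsR, Matrix.vecMul, dotProduct, Fin.sum_univ_two]⟩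

theorem wps_self (A B : ℤ) : ∀ σ j, Matrix.vecMul (wpsW A B σ) (wpsR A B σ) j = -(A * B) := by
  intro σ j
  fin_cases σ <;> fin_cases j <;>
    simp [wpsR, wpsW, Matrix.vecMul, dotProduct, Fin.sum_univ_two] <;> ring

theorem wps_vert (A B : ℤ) (hA : 1 ≤ A) (hB : 1 ≤ B) : ∀ σ τ j,
    -(A * B) ≤ Matrix.vecMul (wpsW A B σ) (wpsR A B τ) j := by
  have h1 : 0 < A * B := by positivity
  have h2 : 0 < A * B * A := by positivity
  have h3 : 0 < A * B * B := by positivity
  have h4 : 0 < B * B := by positivity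
  have h5 : 0 < A * A := by positivity
  intro σ τ j
  fin_cases σ <;> fin_cases τ <;> fin_cases j <;>
    simp [wpsR, wpsW, Matrix.vecMul, dotProduct, Fin.sum_univ_two] <;> nlinarith

theorem wps_strict (A B : ℤ) (hA : 1 ≤ A) (hB : 1 ≤ B) : ∀ σ τ j,
    Matrix.vecMul (wpsW A B σ) (wpsR A B τ) j = -(A * B) →
      ∃ k, ∀ i, wpsR A B τ i j = wpsR A B σ i k := by
  have h1 : 0 < A * B := by positivity
  have h2 : 0 < A * B * A := by positivity
  have h3 : 0 < A * B * B := by positivity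
  have h4 : 0 < B * B := by positivity
  have h5 : 0 < A * A := by positivity
  intro σ τ j
  fin_cases σ <;> fin_cases τ <;> fin_cases j <;> intro h <;>
    first
    | (refine ⟨0, ?_⟩; intro i; fin_cases i <;> rfl)
    | (refine ⟨1, ?_⟩; intro i; fin_cases i <;> rfl)
    | (exfalso; simp [wpsR, wpsW, Matrix.vecMul, dotProduct, Fin.sum_univ_two] at h; nlinarith)

theorem wps_nbr (A B : ℤ) (hA : 1 ≤ A) (hB : 1 ≤ B) : ∀ σ i, ∃ τ,
    (∀ j, j ≠ i → Matrix.vecMul (wpsW A B τ) (wpsR A B σ) j = -(A * B)) ∧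
    Matrix.vecMul (wpsW A B τ) (wpsR A B σ) i ≠ -(A * B) := by
  have h1 : 0 < A * B := by positivity
  have h2 : 0 < A * B * A := by positivity
  have h3 : 0 < A * B * B := by positivity
  have h4 : 0 < B * B := by positivity
  have h5 : 0 < A * A := by positivity
  intro σ i
  fin_cases σ <;> fin_cases i
  · refine ⟨1, ?_, ?_⟩
    · intro j hj; fin_cases j
      · exact absurd rfl hj
      · simp [wpsR, wpsW, Matrix.vecMul, dotProduct, Fin.sum_univ_two]
    · simp [wpsR, wpsW, Matrix.vecMul, dotProduct, Fin.sum_univ_two]; nlinarith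
  · refine ⟨2, ?_, ?_⟩
    · intro j hj; fin_cases j
      · simp [wpsR, wpsW, Matrix.vecMul, dotProduct, Fin.sum_univ_two]
      · exact absurd rfl hj
    · simp [wpsR, wpsW, Matrix.vecMul, dotProduct, Fin.sum_univ_two]; nlinarith
  · refine ⟨0, ?_, ?_⟩
    · intro j hj; fin_cases j
      · exact absurd rfl hj
      · simp [wpsR, wpsW, Matrix.vecMul, dotProduct, Fin.sum_univ_two]
    · simp [wpsR, wpsW, Matrix.vecMul, dotProduct, Fin.sum_univ_two]; nlinarith
  · refine ⟨2, ?_, ?_⟩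
    · intro j hj; fin_cases j
      · simp [wpsR, wpsW, Matrix.vecMul, dotProduct, Fin.sum_univ_two]; ring
      · exact absurd rfl hj
    · simp [wpsR, wpsW, Matrix.vecMul, dotProduct, Fin.sum_univ_two]; nlinarith
  · refine ⟨0, ?_, ?_⟩
    · intro j hj; fin_cases j
      · exact absurd rfl hj
      · simp [wpsR, wpsW, Matrix.vecMul, dotProduct, Fin.sum_univ_two]
    · simp [wpsR, wpsW, Matrix.vecMul, dotProduct, Fin.sum_univ_two]; nlinarith
  · refine ⟨1, ?_, ?_⟩
    · intro j hj; fin_cases j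
      · simp [wpsR, wpsW, Matrix.vecMul, dotProduct, Fin.sum_univ_two]; ring
      · exact absurd rfl hj
    · simp [wpsR, wpsW, Matrix.vecMul, dotProduct, Fin.sum_univ_two]; nlinarith

/-- The data of `ℙ(1, A, B)`. -/
@[reducible] def wpsData (A B : ℤ) (hA : 1 ≤ A) (hB : 1 ≤ B) (h : IsCoprime A B) : SData 2 where
  pos := by norm_num
  ι := Fin 3
  R := wpsR A B
  det_ne := wps_det A B hA hB
  prim := wps_prim A B h
  r := (A * B).toNat
  r_pos := by
    have : 0 < A * B := by positivity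
    omega
  w := wpsW A B
  w_self := by
    have : 0 < A * B := by positivity
    rw [Int.toNat_of_nonneg this.le]
    exact wps_self A B
  vert := by
    have : 0 < A * B := by positivity
    rw [Int.toNat_of_nonneg this.le]
    exact wps_vert A B hA hB
  strict := by
    have : 0 < A * B := by positivity
    rw [Int.toNat_of_nonneg this.le]
    exact wps_strict A B hA hB
  nbr := by
    have : 0 < A * B := by positivity
    rw [Int.toNat_of_nonneg this.le]
    exact wps_nbr A B hA hB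
  ne := ⟨0⟩

theorem wps_pts (A B : ℤ) (hA : 1 ≤ A) (hB : 1 ≤ B) (h : IsCoprime A B) (m : ℕ) (u : Fin 2 → ℤ) :
    u ∈ (wpsData A B hA hB h).pts m ↔ -(m : ℤ) ≤ u 0 ∧ -(m : ℤ) ≤ u 1 ∧ A * u 0 + B * u 1 ≤ m := by
  constructor
  · intro hu
    have h0 := hu (0 : Fin 3) 0
    have h1 := hu (0 : Fin 3) 1
    have h2 := hu (1 : Fin 3) 0
    simp [wpsR, Matrix.vecMul, dotProduct, Fin.sum_univ_two] at h0 h1 h2
    exact ⟨h0, h1, by linarith⟩
  · rintro ⟨h0, h1, h2⟩ σ j
    revert σ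
    intro (σ : Fin 3)
    fin_cases σ <;> fin_cases j <;>
      simp [wpsR, Matrix.vecMul, dotProduct, Fin.sum_univ_two] <;> linarith

end Pool.Agent.Y179.SD
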